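import Mathlib
import Pool.Agent.Helper86.MQ.Defs

/-!
# The index type of the coefficients is finite
-/

set_option autoImplicit false

namespace Pool.Agent.Helper26.MQ

instance instFiniteExp (m d : ℕ) : Finite {s : Fin (m + 1) →₀ ℕ // s.degree ≤ d} :=
  (Finsupp.finite_of_degree_le d).to_subtype

noncomputable instance instFintypeExp (m d : ℕ) :
    Fintype {s : Fin (m + 1) →₀ ℕ // s.degree ≤ d} := Fintype.ofFinite _

end Pool.Agent.Helper26.MQ
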