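import Pool.Agent.Helper26.MQ.Count
import Pool.Agent.Helper26.MQ.Idx

/-!
# Polynomial maps given by coefficient arrays over a finite field: interpolation
-/

set_option autoImplicit false

namespace Pool.Agent.Helper26.MQ

open Finset MvPolynomial Pool.Agent.Helper86.MQ

variable {F : Type*} [Field F] {m d : ℕ}

/-- The polynomials with coefficient array `c`. -/
noncomputable def arrPoly {R : Type*} [CommRing R] {m d : ℕ} (c : Idx m d → R)
    (i : Fin (m + 1)) : MvPolynomial (Fin (m + 1)) R :=
  ∑ e : {s : Fin (m + 1) →₀ ℕ // s.degree ≤ d}, monomial (e : Fin (m + 1) →₀ ℕ) (c (i, e))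

theorem coeff_arrPoly {R : Type*} [CommRing R] (c : Idx m d → R) (i : Fin (m + 1))
    (e : {s : Fin (m + 1) →₀ ℕ // s.degree ≤ d}) :
    coeff (e : Fin (m + 1) →₀ ℕ) (arrPoly c i) = c (i, e) := by
  classical
  rw [arrPoly, coeff_sum]
  simp only [coeff_monomial]
  rw [Finset.sum_eq_single e]
  · simp
  · intro b _ hb
    rw [if_neg]
    exact fun h => hb (Subtype.ext h)
  · simp

theorem coeff_arrPoly_of_gt {R : Type*} [CommRing R] (c : Idx m d → R) (i : Fin (m + 1))
    {e : Fin (m + 1) →₀ ℕ} (he : ¬ e.degree ≤ d) : coeff e (arrPoly c i) = 0 := by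
  classical
  rw [arrPoly, coeff_sum]
  refine Finset.sum_eq_zero fun b _ => ?_
  rw [coeff_monomial, if_neg]
  rintro rfl
  exact he b.2

/-- Polynomials of degree at most `d` are given by arrays. -/
theorem arrPoly_coeff {R : Type*} [CommRing R] (P : Fin (m + 1) → MvPolynomial (Fin (m + 1)) R)
    (hP : ∀ i (e : Fin (m + 1) →₀ ℕ), ¬ e.degree ≤ d → coeff e (P i) = 0) :
    arrPoly (fun k : Idx m d => coeff (k.2 : Fin (m + 1) →₀ ℕ) (P k.1)) = P := by
  funext i
  ext e
  by_cases he : e.degree ≤ d
  · exact coeff_arrPoly (fun k : Idx m d => coeff (k.2 : Fin (m + 1) →₀ ℕ) (P k.1)) i ⟨e, he⟩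
  · rw [coeff_arrPoly_of_gt _ _ he, hP i e he]

/-- The form of degree `d` of the map with array `c`. -/
noncomputable def arrForm {R : Type*} [CommRing R] {m d : ℕ} (c : Idx m d → R)
    (i : Fin (m + 1)) : MvPolynomial (Fin (m + 1)) R :=
  homogeneousComponent d (arrPoly c i)

/-- A linear family of maps with interpolation at `x` is equidistributed at `x`. -/
theorem card_fiber_le [Fintype F] {r : ℕ}
    (f : (Idx m d → F) →+ (Fin r → Fin (m + 1) → F)) (hf : Function.Surjective f)
    (y : Fin r → Fin (m + 1) → F) :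
    {c : Idx m d → F | f c = y}.ncard * Fintype.card (Fin (m + 1) → F) ^ r ≤
      Fintype.card (Idx m d → F) := by
  classical
  have hcard : ∀ z, (univ.filter fun c => f c = z).card = (univ.filter fun c => f c = y).card :=
    fun z => AddMonoidHom.card_fiber_eq_of_mem_range f (hf z) (hf y)
  have h1 : Fintype.card (Idx m d → F) =
      ∑ z : Fin r → Fin (m + 1) → F, (univ.filter fun c => f c = z).card := by
    rw [← Finset.card_univ]
    exact Finset.card_eq_sum_card_fiberwise (fun c _ => Finset.mem_coe.2 (Finset.mem_univ _))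
  have h2 : Fintype.card (Idx m d → F) =
      Fintype.card (Fin (m + 1) → F) ^ r * (univ.filter fun c => f c = y).card := by
    rw [h1, Finset.sum_congr rfl fun z _ => hcard z, Finset.sum_const, smul_eq_mul,
      Finset.card_univ, Fintype.card_fun (α := Fin r)]
    simp
  have h3 : {c : Idx m d → F | f c = y}.ncard = (univ.filter fun c => f c = y).card := by
    rw [← Set.ncard_coe_finset]
    congr 1
    ext c
    simp
  rw [h3, h2, mul_comm]

theorem exists_dual {W : Type*} [AddCommGroup W] [Module F W] {r : ℕ} (v : Fin r → W)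
    (hv : LinearIndependent F v) (k : Fin r) :
    ∃ l : W →ₗ[F] F, ∀ j, l (v j) = if j = k then 1 else 0 := by
  classical
  obtain ⟨g, hg⟩ := LinearMap.exists_extend
    ((Finsupp.lapply k : (Fin r →₀ F) →ₗ[F] F).comp
      (hv.repr : Submodule.span F (Set.range v) →ₗ[F] (Fin r →₀ F)))
  refine ⟨g, fun j => ?_⟩
  have hj : v j ∈ Submodule.span F (Set.range v) := Submodule.subset_span ⟨j, rfl⟩
  have h1 : g (v j) = ((Finsupp.lapply k : (Fin r →₀ F) →ₗ[F] F).comp
      (hv.repr : Submodule.span F (Set.range v) →ₗ[F] (Fin r →₀ F))) ⟨v j, hj⟩ := by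
    rw [← hg]
    rfl
  rw [h1]
  have h2 : hv.repr ⟨v j, hj⟩ = Finsupp.single j 1 := hv.repr_eq_single j ⟨v j, hj⟩ rfl
  change (Finsupp.lapply k : (Fin r →₀ F) →ₗ[F] F) (hv.repr ⟨v j, hj⟩) = _
  rw [h2]
  simp [Finsupp.single_apply]

theorem linear_apply {σ : Type*} [Fintype σ] [DecidableEq σ] (l : (σ → F) →ₗ[F] F) (x : σ → F) :
    l x = ∑ j, l (Pi.single j 1) * x j := by
  have h : x = ∑ j, x j • (Pi.single j 1 : σ → F) := by
    funext i
    simp [Finset.sum_apply, Pi.single_apply]
  conv_lhs => rw [h]
  rw [map_sum]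
  refine Finset.sum_congr rfl fun j _ => ?_
  rw [map_smul, smul_eq_mul, mul_comm]

/-- affine interpolation -/
theorem interp_affine (hd : 1 ≤ d) {r : ℕ}
    (x : Fin r → Fin (m + 1) → F) (hx : LinearIndependent F fun k => ((1 : F), x k)) (k : Fin r) :
    ∃ P : MvPolynomial (Fin (m + 1)) F,
      (∀ e : Fin (m + 1) →₀ ℕ, ¬ e.degree ≤ d → coeff e P = 0) ∧
      ∀ j, eval (x j) P = if j = k then 1 else 0 := by
  obtain ⟨l, hl⟩ := exists_dual _ hx k
  set l2 : (Fin (m + 1) → F) →ₗ[F] F := l.comp (LinearMap.inr F F (Fin (m + 1) → F)) with hl2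
  refine ⟨C (l (1, 0)) + ∑ j, C (l2 (Pi.single j 1)) * X j, ?_, ?_⟩
  · intro e he
    have h0 : e ≠ 0 := by
      rintro rfl
      exact he (by simp)
    have h1 : ∀ j, e ≠ Finsupp.single j 1 := by
      rintro j rfl
      exact he (by simpa using hd)
    rw [coeff_add, coeff_C, if_neg (Ne.symm h0), zero_add, coeff_sum]
    refine Finset.sum_eq_zero fun j _ => ?_
    rw [coeff_C_mul, coeff_X, if_neg (Ne.symm (h1 j)), mul_zero]
  · intro j
    rw [← hl j, map_add, eval_C, map_sum]
    simp only [map_mul, eval_C, eval_X]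
    rw [← linear_apply l2 (x j), hl2]
    simp only [LinearMap.comp_apply, LinearMap.inr_apply]
    rw [← map_add]
    simp

/-- interpolation by forms of degree `d` -/
theorem interp_form (hd : d ≠ 0) {r : ℕ}
    (x : Fin r → Fin (m + 1) → F) (hx : LinearIndependent F x) (k : Fin r) :
    ∃ P : MvPolynomial (Fin (m + 1)) F, P.IsHomogeneous d ∧
      ∀ j, eval (x j) P = if j = k then 1 else 0 := by
  obtain ⟨l, hl⟩ := exists_dual _ hx k
  have hhom : (∑ j, C (l (Pi.single j 1)) * X j :
      MvPolynomial (Fin (m + 1)) F).IsHomogeneous 1 := by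
    refine IsHomogeneous.sum _ _ _ fun j _ => ?_
    have := (isHomogeneous_C (Fin (m + 1)) (l (Pi.single j 1))).mul (isHomogeneous_X F j)
    simpa using this
  refine ⟨(∑ j, C (l (Pi.single j 1)) * X j) ^ d, ?_, ?_⟩
  · have h1 := hhom.pow d
    rwa [one_mul] at h1
  · intro j
    rw [map_pow, map_sum]
    simp only [map_mul, eval_C, eval_X]
    rw [← linear_apply l (x j), hl j]
    split_ifs
    · simp
    · simp [hd]

/-- Equidistribution of the values at affinely independent points. -/
theorem fiber_affine [Fintype F] (hd : 1 ≤ d) {r : ℕ} (x : Fin r → Fin (m + 1) → F)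
    (hx : LinearIndependent F fun k => ((1 : F), x k)) (y : Fin r → Fin (m + 1) → F) :
    {c : Idx m d → F | ∀ k, pm (arrPoly c) (x k) = y k}.ncard *
      Fintype.card (Fin (m + 1) → F) ^ r ≤ Fintype.card (Idx m d → F) := by
  classical
  choose P hP1 hP2 using interp_affine (d := d) hd x hx
  let f : (Idx m d → F) →+ (Fin r → Fin (m + 1) → F) :=
    { toFun := fun c k => pm (arrPoly c) (x k)
      map_zero' := by
        funext k i
        simp [pm, arrPoly]
      map_add' := by
        intro c c'
        funext k i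
        simp [pm, arrPoly, Finset.sum_add_distrib] }
  have hf : Function.Surjective f := by
    intro y
    refine ⟨fun k' : Idx m d =>
      coeff (k'.2 : Fin (m + 1) →₀ ℕ) ((fun i => ∑ k, C (y k i) * P k) k'.1), ?_⟩
    funext k i
    change pm (arrPoly _) (x k) i = y k i
    rw [pm, arrPoly_coeff (fun i => ∑ k, C (y k i) * P k)]
    · rw [map_sum]
      simp only [map_mul, eval_C, hP2]
      simp
    · intro i e he
      rw [coeff_sum]
      refine Finset.sum_eq_zero fun k _ => ?_
      rw [coeff_C_mul, hP1 k e he, mul_zero]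
  have h := card_fiber_le f hf y
  have e : {c : Idx m d → F | ∀ k, pm (arrPoly c) (x k) = y k} = {c : Idx m d → F | f c = y} := by
    ext c
    exact ⟨fun h => funext h, fun h k => congrFun h k⟩
  rw [e]
  exact h

theorem arrForm_add (c c' : Idx m d → F) (i : Fin (m + 1)) :
    arrForm (c + c') i = arrForm c i + arrForm c' i := by
  simp [arrForm, arrPoly, Finset.sum_add_distrib]

/-- Equidistribution of the values of the leading form at independent points. -/
theorem fiber_form [Fintype F] (hd : d ≠ 0) {r : ℕ} (x : Fin r → Fin (m + 1) → F)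
    (hx : LinearIndependent F x) (y : Fin r → Fin (m + 1) → F) :
    {c : Idx m d → F | ∀ k, pm (arrForm c) (x k) = y k}.ncard *
      Fintype.card (Fin (m + 1) → F) ^ r ≤ Fintype.card (Idx m d → F) := by
  classical
  choose P hP1 hP2 using interp_form (d := d) hd x hx
  let f : (Idx m d → F) →+ (Fin r → Fin (m + 1) → F) :=
    { toFun := fun c k => pm (arrForm c) (x k)
      map_zero' := by
        funext k i
        simp [pm, arrForm, arrPoly]
      map_add' := by
        intro c c'
        funext k i
        simp only [pm, Pi.add_apply]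
        rw [arrForm_add, map_add] }
  have hf : Function.Surjective f := by
    intro y
    have hQ : ∀ i, (∑ k, C (y k i) * P k : MvPolynomial (Fin (m + 1)) F).IsHomogeneous d := by
      intro i
      refine IsHomogeneous.sum _ _ _ fun k _ => ?_
      have := (isHomogeneous_C (Fin (m + 1)) (y k i)).mul (hP1 k)
      simpa using this
    refine ⟨fun k' : Idx m d =>
      coeff (k'.2 : Fin (m + 1) →₀ ℕ) ((fun i => ∑ k, C (y k i) * P k) k'.1), ?_⟩
    funext k i
    change pm (arrForm _) (x k) i = y k i
    rw [pm, arrForm, arrPoly_coeff (fun i => ∑ k, C (y k i) * P k)]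
    · simp only
      rw [homogeneousComponent_of_mem (hQ i), if_pos rfl, map_sum]
      simp only [map_mul, eval_C, hP2]
      simp
    · intro i e he
      exact (hQ i).coeff_eq_zero (by omega)
  have h := card_fiber_le f hf y
  have e : {c : Idx m d → F | ∀ k, pm (arrForm c) (x k) = y k} = {c : Idx m d → F | f c = y} := by
    ext c
    exact ⟨fun h => funext h, fun h k => congrFun h k⟩
  rw [e]
  exact h

end Pool.Agent.Helper26.MQ
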