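import Pool.Agent.Helper26.MQ.Bounds2

/-!
# Maps with one non-integral coefficient: the structure of one step
-/

set_option autoImplicit false

namespace Pool.Agent.Helper26.MQ

open Finset MvPolynomial Pool.Agent.Helper86.MQ

variable {m d : ℕ}

theorem eval_arrPoly {R : Type*} [CommRing R] (c : Idx m d → R) (i : Fin (m + 1))
    (x : Fin (m + 1) → R) :
    eval x (arrPoly c i) = ∑ e : {s : Fin (m + 1) →₀ ℕ // s.degree ≤ d},
      c (i, e) * ∏ j, x j ^ (e : Fin (m + 1) →₀ ℕ) j := by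
  rw [arrPoly, map_sum]
  refine Finset.sum_congr rfl fun e _ => ?_
  rw [eval_monomial, Finsupp.prod_fintype]
  simp

theorem eval_arrForm {R : Type*} [CommRing R] (c : Idx m d → R) (i : Fin (m + 1))
    (x : Fin (m + 1) → R) :
    eval x (arrForm c i) = ∑ e : {s : Fin (m + 1) →₀ ℕ // s.degree ≤ d},
      if (e : Fin (m + 1) →₀ ℕ).degree = d then
        c (i, e) * ∏ j, x j ^ (e : Fin (m + 1) →₀ ℕ) j else 0 := by
  rw [arrForm, arrPoly, map_sum, map_sum]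
  refine Finset.sum_congr rfl fun e _ => ?_
  rw [homogeneousComponent_of_mem (isHomogeneous_monomial _ rfl)]
  by_cases h : (e : Fin (m + 1) →₀ ℕ).degree = d
  · rw [if_pos h.symm, if_pos h, eval_monomial, Finsupp.prod_fintype]
    simp
  · rw [if_neg (Ne.symm h), if_neg h, map_zero]

variable {p : ℕ} [hp : Fact p.Prime]

theorem toZMod_eq_zero_iff (z : ℤ_[p]) : PadicInt.toZMod z = 0 ↔ ‖z‖ < 1 := by
  rw [← RingHom.mem_ker, PadicInt.ker_toZMod, IsLocalRing.mem_maximalIdeal, PadicInt.mem_nonunits]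

theorem norm_eq_one_of_toZMod (z : ℤ_[p]) (h : PadicInt.toZMod z ≠ 0) : ‖z‖ = 1 := by
  have h1 : ¬ ‖z‖ < 1 := fun h2 => h ((toZMod_eq_zero_iff z).2 h2)
  exact le_antisymm (PadicInt.norm_le_one z) (not_lt.1 h1)

/-- The decomposition of `Φ`. -/
theorem exists_lift {Φ : Fin (m + 1) → MvPolynomial (Fin (m + 1)) ℚ_[p]} (hΦ : Pre p m d Φ)
    {c : Idx m d → ZMod p} (hc : Red Φ c) :
    ∃ (a : Idx m d → ℤ_[p]) (s : ℚ_[p]), (∀ k, PadicInt.toZMod (a k) = c k) ∧ ‖s‖ = (p : ℝ) ∧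
      (∀ k : Idx m d, ¬ (k.1 = 0 ∧ k.2.1 = Finsupp.single 0 d) →
        ((a k : ℤ_[p]) : ℚ_[p]) = coeff k.2.1 (Φ k.1)) ∧
      ∀ x i, pm Φ x i = (∑ e : {s : Fin (m + 1) →₀ ℕ // s.degree ≤ d},
        ((a (i, e) : ℤ_[p]) : ℚ_[p]) * ∏ j, x j ^ (e : Fin (m + 1) →₀ ℕ) j) +
          if i = 0 then s * x 0 ^ d else 0 := by
  classical
  have hz : ∀ k : Idx m d, ∃ z : ℤ_[p], PadicInt.toZMod z = c k ∧
      (¬ (k.1 = 0 ∧ k.2.1 = Finsupp.single 0 d) → (z : ℚ_[p]) = coeff k.2.1 (Φ k.1)) := by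
    intro k
    by_cases hk : k.1 = 0 ∧ k.2.1 = Finsupp.single 0 d
    · obtain ⟨z, hz⟩ := ZMod.ringHom_surjective (PadicInt.toZMod (p := p)) (c k)
      exact ⟨z, hz, fun h => absurd hk h⟩
    · obtain ⟨z, hz1, hz2⟩ := hc k hk
      exact ⟨z, hz2, fun _ => hz1⟩
  choose a ha1 ha2 using hz
  have hdeg : (Finsupp.single (0 : Fin (m + 1)) d).degree ≤ d := by simp
  set k₀ : Idx m d := (0, ⟨Finsupp.single 0 d, hdeg⟩) with hk₀
  set s : ℚ_[p] := coeff (Finsupp.single 0 d) (Φ 0) - (a k₀ : ℚ_[p]) with hs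
  have hp1 : (1 : ℝ) < p := by exact_mod_cast hp.out.one_lt
  have hsn : ‖s‖ = (p : ℝ) := by
    have h1 : ‖(a k₀ : ℚ_[p])‖ ≤ 1 := PadicInt.norm_le_one _
    have h2 : ‖coeff (Finsupp.single 0 d) (Φ 0)‖ ≠ ‖-(a k₀ : ℚ_[p])‖ := by
      rw [hΦ.one, norm_neg]
      exact fun h => absurd (h ▸ h1) (not_le.2 hp1)
    rw [hs, sub_eq_add_neg, IsUltrametricDist.norm_add_eq_max_of_norm_ne_norm h2, hΦ.one, norm_neg]
    exact max_eq_left (h1.trans hp1.le)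
  refine ⟨a, s, ha1, hsn, ha2, ?_⟩
  intro x i
  -- the array of `Φ`
  have hΦ' : Φ = arrPoly (fun k : Idx m d => coeff (k.2 : Fin (m + 1) →₀ ℕ) (Φ k.1)) := by
    rw [arrPoly_coeff]
    intro i e he
    apply coeff_eq_zero_of_totalDegree_lt
    have h1 := hΦ.deg i
    have h2 : (∑ j ∈ e.support, e j) = e.degree := rfl
    rw [h2]
    omega
  have h1 : pm Φ x i = ∑ e : {s : Fin (m + 1) →₀ ℕ // s.degree ≤ d},
      coeff (e : Fin (m + 1) →₀ ℕ) (Φ i) * ∏ j, x j ^ (e : Fin (m + 1) →₀ ℕ) j := by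
    conv_lhs => rw [hΦ']
    rw [pm, eval_arrPoly]
  rw [h1]
  by_cases hi : i = 0
  · subst hi
    rw [if_pos rfl]
    rw [← Finset.add_sum_erase _ _ (Finset.mem_univ (⟨Finsupp.single 0 d, hdeg⟩ :
      {s : Fin (m + 1) →₀ ℕ // s.degree ≤ d})), ← Finset.add_sum_erase (M := ℚ_[p]) _ (fun e =>
      ((a (0, e) : ℤ_[p]) : ℚ_[p]) * ∏ j, x j ^ (e : Fin (m + 1) →₀ ℕ) j)
      (Finset.mem_univ (⟨Finsupp.single 0 d, hdeg⟩ :
      {s : Fin (m + 1) →₀ ℕ // s.degree ≤ d}))]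
    have h2 : ∀ e ∈ univ.erase (⟨Finsupp.single 0 d, hdeg⟩ :
        {s : Fin (m + 1) →₀ ℕ // s.degree ≤ d}),
        coeff (e : Fin (m + 1) →₀ ℕ) (Φ 0) * ∏ j, x j ^ (e : Fin (m + 1) →₀ ℕ) j =
        ((a (0, e) : ℤ_[p]) : ℚ_[p]) * ∏ j, x j ^ (e : Fin (m + 1) →₀ ℕ) j := by
      intro e he
      rw [← ha2 (0, e)]
      rintro ⟨_, h3⟩
      exact (Finset.mem_erase.1 he).1 (Subtype.ext h3)
    rw [Finset.sum_congr rfl h2]
    have h3 : ∏ j, x j ^ (Finsupp.single (0 : Fin (m + 1)) d) j = x 0 ^ d := by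
      rw [Finset.prod_eq_single 0]
      · simp
      · intro b _ hb
        rw [Finsupp.single_apply, if_neg (Ne.symm hb), pow_zero]
      · simp
    simp only [h3]
    rw [hs, hk₀]
    ring
  · rw [if_neg hi, add_zero]
    refine Finset.sum_congr rfl fun e _ => ?_
    rw [← ha2 (i, e)]
    rintro ⟨h3, _⟩
    exact hi h3

/-- The special term at integral points in the residue disc of the hyperplane. -/
theorem special_small (hd : 2 ≤ d) {s : ℚ_[p]} (hs : ‖s‖ = (p : ℝ)) (y : ℤ_[p]) (hy : ‖y‖ < 1) :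
    ∃ z : ℤ_[p], ((z : ℤ_[p]) : ℚ_[p]) = s * ((y : ℤ_[p]) : ℚ_[p]) ^ d ∧
      PadicInt.toZMod z = 0 := by
  have hp0 : (0 : ℝ) < p := by exact_mod_cast hp.out.pos
  have hp1 : (1 : ℝ) < p := by exact_mod_cast hp.out.one_lt
  have h1 : ‖y‖ ≤ (p : ℝ)⁻¹ := by
    have h2 : ‖y‖ < (p : ℝ) ^ ((-1 : ℤ) + 1) := by simpa using hy
    have h3 := (PadicInt.norm_le_pow_iff_norm_lt_pow_add_one y (-1)).2 h2
    simpa using h3
  have h2 : ‖s * ((y : ℤ_[p]) : ℚ_[p]) ^ d‖ < 1 := by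
    rw [norm_mul, norm_pow, hs]
    have h3 : ‖((y : ℤ_[p]) : ℚ_[p])‖ = ‖y‖ := rfl
    rw [h3]
    calc (p : ℝ) * ‖y‖ ^ d ≤ (p : ℝ) * ((p : ℝ)⁻¹) ^ d := by gcongr
      _ ≤ (p : ℝ) * ((p : ℝ)⁻¹) ^ 2 := by
        refine mul_le_mul_of_nonneg_left ?_ hp0.le
        exact pow_le_pow_of_le_one (by positivity) (inv_le_one_of_one_le₀ hp1.le) hd
      _ = (p : ℝ)⁻¹ := by field_simp
      _ < 1 := inv_lt_one_of_one_lt₀ hp1
  exact ⟨⟨s * ((y : ℤ_[p]) : ℚ_[p]) ^ d, h2.le⟩, rfl, (toZMod_eq_zero_iff _).2 h2⟩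

end Pool.Agent.Helper26.MQ
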