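import Pool.Agent.Helper26.MQ.Bounds

/-!
# The three bounds, second part
-/

set_option autoImplicit false

namespace Pool.Agent.Helper26.MQ

open Finset MvPolynomial Pool.Agent.Helper86.MQ

variable {F : Type*} [Field F] {m d : ℕ}

theorem arrForm_isHomogeneous (c : Idx m d → F) (i : Fin (m + 1)) :
    (arrForm c i).IsHomogeneous d :=
  homogeneousComponent_isHomogeneous d _

theorem eval_smul_of_hom {R : Type*} [CommRing R] {f : MvPolynomial (Fin (m + 1)) R}
    (hf : f.IsHomogeneous d) (a : R) (x : Fin (m + 1) → R) :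
    eval (a • x) f = a ^ d * eval x f := by
  rw [eval_eq', eval_eq', Finset.mul_sum]
  refine Finset.sum_congr rfl fun e he => ?_
  have h1 : e.degree = d := by
    by_contra hcon
    exact (mem_support_iff.1 he) (hf.coeff_eq_zero hcon)
  simp only [Pi.smul_apply, smul_eq_mul, mul_pow]
  rw [Finset.prod_mul_distrib, Finset.prod_pow_eq_pow_sum, ← Finsupp.degree_eq_sum, h1]
  ring

theorem pm_smul (c : Idx m d → F) (a : F) (x : Fin (m + 1) → F) :
    pm (arrForm c) (a • x) = a ^ d • pm (arrForm c) x := by
  funext i
  simp only [pm, Pi.smul_apply, smul_eq_mul]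
  exact eval_smul_of_hom (arrForm_isHomogeneous c i) a x

theorem pm_iter_smul (c : Idx m d → F) (x : Fin (m + 1) → F) (k : ℕ) : ∀ (a : F),
    ∃ b : F, (pm (arrForm c))^[k] (a • x) = b • (pm (arrForm c))^[k] x := by
  induction k generalizing x with
  | zero => exact fun a => ⟨a, rfl⟩
  | succ k ih =>
    intro a
    rw [Function.iterate_succ_apply, Function.iterate_succ_apply, pm_smul]
    exact ih _ _

theorem bad2 [Fintype F] (hd : d ≠ 0) :
    {c : Idx m d → F | ¬ T2 c}.ncard * Fintype.card F ≤
      2 * (m + 1) * Fintype.card (Idx m d → F) := by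
  classical
  set q := Fintype.card F with hq
  have hq2 : 2 ≤ q := Fintype.one_lt_card
  set S : Finset (Fin (m + 1) → F) := univ.filter fun x => x 0 = 0 with hS
  have hcount := trap_count (F := F) (X := Fin (m + 1) → F) (W := Fin (m + 1) → F)
    (C := Idx m d → F) (fun c => pm (arrForm c)) (fun x => x) S
    (fun r x hx y => fiber_form hd x hx y) (fun r => q ^ r) (by
      intro r x _ hx
      rw [hq, ← card_span x hx]
      exact Set.ncard_le_ncard (fun z hz => hz.2) (Set.toFinite _))
  have hR : Module.finrank F (Fin (m + 1) → F) = m + 1 := by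
    rw [Module.finrank_fin_fun]
  rw [hR] at hcount
  have hXc : (Fintype.card (Fin (m + 1) → F) : ℝ) = (q : ℝ) ^ (m + 1) := by
    rw [Fintype.card_fun, Fintype.card_fin]
    push_cast
    rfl
  have hSc : (S.card : ℝ) = (q : ℝ) ^ m := by
    rw [hS, card_hyper]
    push_cast
    rfl
  have hqR : (0 : ℝ) < q := by
    have : 0 < q := by omega
    exact_mod_cast this
  have hterm : ∀ r ∈ Finset.Icc 1 (m + 1),
      (S.card : ℝ) ^ r * ((q ^ r : ℕ) : ℝ) / (Fintype.card (Fin (m + 1) → F) : ℝ) ^ r = 1 := by
    intro r _
    rw [hXc, hSc]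
    push_cast
    rw [← pow_mul, ← pow_add, ← pow_mul]
    have : m * r + r = (m + 1) * r := by ring
    rw [this, div_self (by positivity)]
  rw [Finset.sum_congr rfl hterm, Finset.sum_const, Nat.card_Icc, nsmul_eq_mul, mul_one] at hcount
  have hcountN : {cx : (Idx m d → F) × (Fin (m + 1) → F) | cx.2 ∈ S ∧ cx.2 ≠ 0 ∧
      ∀ k, (pm (arrForm cx.1))^[k] cx.2 ∈ S}.ncard ≤
      Fintype.card (Idx m d → F) * (m + 1) := by
    have e : m + 1 + 1 - 1 = m + 1 := by omega
    rw [e] at hcount
    exact_mod_cast hcount
  have h2 := double (fun (c : Idx m d → F) (x : Fin (m + 1) → F) => x ∈ S ∧ x ≠ 0 ∧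
      ∀ k, (pm (arrForm c))^[k] x ∈ S) (univ.filter fun c => ¬ T2 c) (q - 1) (by
        intro c hc
        rw [Finset.mem_filter] at hc
        obtain ⟨_, hc⟩ := hc
        unfold T2 at hc
        push Not at hc
        obtain ⟨x, hx, hx0, hxk⟩ := hc
        refine scaling_card (F := F) _ x hx fun a ha => ?_
        refine ⟨?_, smul_ne_zero ha hx, ?_⟩
        · rw [hS, Finset.mem_filter]
          exact ⟨Finset.mem_univ _, by simp [hx0]⟩
        · intro k
          rw [hS, Finset.mem_filter]
          refine ⟨Finset.mem_univ _, ?_⟩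
          obtain ⟨b, hb⟩ := pm_iter_smul c x k a
          rw [hb, Pi.smul_apply, hxk k, smul_zero])
  have e : {c : Idx m d → F | ¬ T2 c} =
      ((univ.filter fun c : Idx m d → F => ¬ T2 c : Finset _) : Set _) := by
    ext c
    simp
  rw [e, Set.ncard_coe_finset]
  have h3 : (univ.filter fun c : Idx m d → F => ¬ T2 c).card * (q - 1) ≤
      Fintype.card (Idx m d → F) * (m + 1) := h2.trans hcountN
  have h4 : q ≤ 2 * (q - 1) := by omega
  calc (univ.filter fun c : Idx m d → F => ¬ T2 c).card * q
      ≤ (univ.filter fun c : Idx m d → F => ¬ T2 c).card * (2 * (q - 1)) :=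
        Nat.mul_le_mul_left _ h4
    _ = 2 * ((univ.filter fun c : Idx m d → F => ¬ T2 c).card * (q - 1)) := by ring
    _ ≤ 2 * (Fintype.card (Idx m d → F) * (m + 1)) := Nat.mul_le_mul_left _ h3
    _ = 2 * (m + 1) * Fintype.card (Idx m d → F) := by ring

/-- The exponent of `x₀ ^ (d - 1) x_j`. -/
noncomputable def ex (hd : 1 ≤ d) (j : Fin m) : {s : Fin (m + 1) →₀ ℕ // s.degree ≤ d} :=
  ⟨Finsupp.single 0 (d - 1) + Finsupp.single j.succ 1, by
    rw [map_add, Finsupp.degree_single, Finsupp.degree_single]
    omega⟩

theorem ex_injective (hd : 1 ≤ d) : Function.Injective (ex (m := m) hd) := by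
  intro i j h
  have h1 := congrArg Subtype.val h
  simp only [ex] at h1
  have h2 := add_left_cancel h1
  rw [Finsupp.single_left_inj one_ne_zero] at h2
  exact Fin.succ_injective _ h2

/-- The derivative along the hyperplane at infinity. -/
noncomputable def der (hd : 1 ≤ d) (c : Idx m d → F) : Matrix (Fin m) (Fin m) F :=
  Matrix.of fun i j => c (i.succ, ex hd j)

theorem bad3 [Fintype F] (hd : 1 ≤ d) :
    {c : Idx m d → F | (der hd c).det = 0}.ncard * Fintype.card F ≤
      2 * Fintype.card (Idx m d → F) := by
  classical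
  set q := Fintype.card F with hq
  have hq2 : 2 ≤ q := Fintype.one_lt_card
  -- for `v ≠ 0` the vector `der c v` is equidistributed
  have hv : ∀ v : Fin m → F, v ≠ 0 →
      {c : Idx m d → F | (der hd c).mulVec v = 0}.ncard * q ^ m ≤
        Fintype.card (Idx m d → F) := by
    intro v hv
    obtain ⟨j, hj⟩ : ∃ j, v j ≠ 0 := by
      by_contra hcon
      push Not at hcon
      exact hv (funext hcon)
    let f : (Idx m d → F) →+ (Fin m → F) :=
      { toFun := fun c => (der hd c).mulVec v
        map_zero' := by
          funext i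
          simp [Matrix.mulVec, dotProduct, der]
        map_add' := by
          intro c c'
          funext i
          simp [Matrix.mulVec, dotProduct, der, add_mul, Finset.sum_add_distrib] }
    have hf : Function.Surjective f := by
      intro y
      refine ⟨fun k => if k.2 = ex hd j then (Fin.cons 0 (fun i => y i / v j) :
        Fin (m + 1) → F) k.1 else 0, ?_⟩
      funext i
      change ((der hd _).mulVec v) i = y i
      simp only [Matrix.mulVec, dotProduct, der, Matrix.of_apply, Fin.cons_succ]
      rw [Finset.sum_eq_single j]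
      · rw [if_pos rfl, div_mul_cancel₀ _ hj]
      · intro b _ hb
        rw [if_neg fun h => hb (ex_injective hd h), zero_mul]
      · simp
    have hcard : ∀ z, (univ.filter fun c => f c = z).card = (univ.filter fun c => f c = 0).card :=
      fun z => AddMonoidHom.card_fiber_eq_of_mem_range f (hf z) (hf 0)
    have h1 : Fintype.card (Idx m d → F) =
        ∑ z : Fin m → F, (univ.filter fun c => f c = z).card := by
      rw [← Finset.card_univ]
      exact Finset.card_eq_sum_card_fiberwise (fun c _ => Finset.mem_coe.2 (Finset.mem_univ _))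
    have h2 : Fintype.card (Idx m d → F) =
        q ^ m * (univ.filter fun c => f c = 0).card := by
      rw [h1, Finset.sum_congr rfl fun z _ => hcard z, Finset.sum_const, smul_eq_mul,
        Finset.card_univ, Fintype.card_fun, Fintype.card_fin]
    have h3 : {c : Idx m d → F | (der hd c).mulVec v = 0}.ncard =
        (univ.filter fun c => f c = 0).card := by
      rw [← Set.ncard_coe_finset]
      congr 1
      ext c
      simp only [Set.mem_ofPred_eq, Finset.coe_filter, Finset.mem_univ, true_and]
      rfl
    rw [h3, h2, mul_comm]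
  -- pairs
  have hpairs : {cx : (Idx m d → F) × (Fin m → F) | cx.2 ≠ 0 ∧
      (der hd cx.1).mulVec cx.2 = 0}.ncard ≤ Fintype.card (Idx m d → F) := by
    have h1 : {cx : (Idx m d → F) × (Fin m → F) | cx.2 ≠ 0 ∧
        (der hd cx.1).mulVec cx.2 = 0}.ncard ≤
        ∑ v ∈ univ.filter (fun v : Fin m → F => v ≠ 0),
          {c : Idx m d → F | (der hd c).mulVec v = 0}.ncard := by
      have h2 : {cx : (Idx m d → F) × (Fin m → F) | cx.2 ≠ 0 ∧
        (der hd cx.1).mulVec cx.2 = 0} ⊆ (((univ.filter (fun v : Fin m → F => v ≠ 0)).biUnion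
          fun v => (univ.filter fun c : Idx m d → F => (der hd c).mulVec v = 0).image
            fun c => (c, v) : Finset _) : Set _) := by
        rintro ⟨c, v⟩ ⟨h3, h4⟩
        simp only [Finset.coe_biUnion, Set.mem_iUnion, Finset.mem_coe, Finset.mem_image,
          Finset.mem_filter, Finset.mem_univ, true_and, Prod.mk.injEq]
        exact ⟨v, h3, c, h4, rfl, rfl⟩
      refine (Set.ncard_le_ncard h2 (Finset.finite_toSet _)).trans ?_
      rw [Set.ncard_coe_finset]
      refine Finset.card_biUnion_le.trans (Finset.sum_le_sum fun v _ => ?_)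
      refine Finset.card_image_le.trans ?_
      rw [← Set.ncard_coe_finset]
      refine Set.ncard_le_ncard ?_ (Set.toFinite _)
      intro c hc
      simpa using hc
    refine h1.trans ?_
    have h2 : (∑ v ∈ univ.filter (fun v : Fin m → F => v ≠ 0),
        {c : Idx m d → F | (der hd c).mulVec v = 0}.ncard) * q ^ m ≤
        Fintype.card (Idx m d → F) * q ^ m := by
      rw [Finset.sum_mul]
      calc ∑ v ∈ univ.filter (fun v : Fin m → F => v ≠ 0),
          {c : Idx m d → F | (der hd c).mulVec v = 0}.ncard * q ^ m
          ≤ ∑ _v ∈ univ.filter (fun v : Fin m → F => v ≠ 0), Fintype.card (Idx m d → F) :=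
            Finset.sum_le_sum fun v hv' => hv v (Finset.mem_filter.1 hv').2
        _ = (univ.filter (fun v : Fin m → F => v ≠ 0)).card * Fintype.card (Idx m d → F) := by
            rw [Finset.sum_const, smul_eq_mul]
        _ ≤ q ^ m * Fintype.card (Idx m d → F) := by
            refine Nat.mul_le_mul_right _ ((Finset.card_filter_le _ _).trans ?_)
            rw [Finset.card_univ, Fintype.card_fun, Fintype.card_fin]
        _ = Fintype.card (Idx m d → F) * q ^ m := mul_comm _ _
    exact Nat.le_of_mul_le_mul_right h2 (by positivity)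
  have h2 := double (fun (c : Idx m d → F) (v : Fin m → F) => v ≠ 0 ∧
      (der hd c).mulVec v = 0) (univ.filter fun c => (der hd c).det = 0) (q - 1) (by
        intro c hc
        rw [Finset.mem_filter] at hc
        obtain ⟨_, hc⟩ := hc
        obtain ⟨v, hv0, hv1⟩ := Matrix.exists_mulVec_eq_zero_iff.2 hc
        refine scaling_card (F := F) _ v hv0 fun a ha => ?_
        refine ⟨smul_ne_zero ha hv0, ?_⟩
        rw [Matrix.mulVec_smul, hv1, smul_zero])
  have e : {c : Idx m d → F | (der hd c).det = 0} =
      ((univ.filter fun c : Idx m d → F => (der hd c).det = 0 : Finset _) : Set _) := by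
    ext c
    simp
  rw [e, Set.ncard_coe_finset]
  have h3 := h2.trans hpairs
  have h4 : q ≤ 2 * (q - 1) := by omega
  calc (univ.filter fun c : Idx m d → F => (der hd c).det = 0).card * q
      ≤ (univ.filter fun c : Idx m d → F => (der hd c).det = 0).card * (2 * (q - 1)) :=
        Nat.mul_le_mul_left _ h4
    _ = 2 * ((univ.filter fun c : Idx m d → F => (der hd c).det = 0).card * (q - 1)) := by ring
    _ ≤ 2 * Fintype.card (Idx m d → F) := Nat.mul_le_mul_left _ h3

end Pool.Agent.Helper26.MQ
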