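import Pool.Agent.Helper26.MQ.Taylor

/-!
# Sequences of `p`-adic integers which are polynomials in a fixed null sequence up to order `J`
-/

set_option autoImplicit false

namespace Pool.Agent.Helper26.MQ

open Finset Filter Topology

variable {p : ℕ} [hp : Fact p.Prime]

/-- `a` is a polynomial in `t` up to order `J`. -/
def AE (t : ℕ → ℤ_[p]) (J : ℕ) (a : ℕ → ℤ_[p]) : Prop :=
  ∃ q : Polynomial ℤ_[p], ∀ n, ‖a n - q.eval (t n)‖ ≤ ‖t n‖ ^ J

variable {t : ℕ → ℤ_[p]} {J : ℕ} {a b : ℕ → ℤ_[p]}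

theorem AE.const (c : ℤ_[p]) : AE t J fun _ => c :=
  ⟨Polynomial.C c, fun n => by simp⟩

theorem AE.self : AE t J t :=
  ⟨Polynomial.X, fun n => by simp⟩

theorem AE.poly (q : Polynomial ℤ_[p]) : AE t J fun n => q.eval (t n) :=
  ⟨q, fun n => by simp⟩

theorem AE.small (h : ∀ n, ‖a n‖ ≤ ‖t n‖ ^ J) : AE t J a :=
  ⟨0, fun n => by simpa using h n⟩

theorem AE.congr (ha : AE t J a) (h : ∀ n, b n = a n) : AE t J b := by
  have : b = a := funext h
  rwa [this]

theorem AE.add (ha : AE t J a) (hb : AE t J b) : AE t J fun n => a n + b n := by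
  obtain ⟨q, hq⟩ := ha
  obtain ⟨r, hr⟩ := hb
  refine ⟨q + r, fun n => ?_⟩
  rw [Polynomial.eval_add, add_sub_add_comm]
  exact nadd (hq n) (hr n)

theorem AE.mul (ha : AE t J a) (hb : AE t J b) : AE t J fun n => a n * b n := by
  obtain ⟨q, hq⟩ := ha
  obtain ⟨r, hr⟩ := hb
  refine ⟨q * r, fun n => ?_⟩
  have e : a n * b n - (q * r).eval (t n) =
      (a n - q.eval (t n)) * b n + q.eval (t n) * (b n - r.eval (t n)) := by
    rw [Polynomial.eval_mul]
    ring
  rw [e]
  exact nadd (nmul_left _ (hq n)) (nmul_right _ (hr n))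

theorem AE.sub (ha : AE t J a) (hb : AE t J b) : AE t J fun n => a n - b n :=
  (ha.add ((AE.const (-1)).mul hb)).congr fun n => by ring

theorem AE.pow (ha : AE t J a) (k : ℕ) : AE t J fun n => a n ^ k := by
  induction k with
  | zero => exact (AE.const 1).congr fun n => by simp
  | succ k ih => exact (ih.mul ha).congr fun n => by rw [pow_succ]

theorem AE.sum {ι : Type*} (s : Finset ι) (f : ι → ℕ → ℤ_[p]) (h : ∀ i ∈ s, AE t J (f i)) :
    AE t J fun n => ∑ i ∈ s, f i n := by
  classical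
  induction s using Finset.induction_on with
  | empty => exact (AE.const 0).congr fun n => by simp
  | insert i s hi ih =>
    exact ((h i (Finset.mem_insert_self _ _)).add
      (ih fun j hj => h j (Finset.mem_insert_of_mem hj))).congr fun n => by
        rw [Finset.sum_insert hi]

theorem AE.mvEval {σ : Type*} {v : ℕ → σ → ℤ_[p]} (h : ∀ i, AE t J fun n => v n i)
    (F : MvPolynomial σ ℤ_[p]) : AE t J fun n => MvPolynomial.eval (v n) F := by
  induction F using MvPolynomial.induction_on with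
  | C c => exact (AE.const c).congr fun n => by simp
  | add f g hf hg => exact (hf.add hg).congr fun n => by rw [map_add]
  | mul_X f j hf => exact (hf.mul (h j)).congr fun n => by rw [map_mul, MvPolynomial.eval_X]

theorem AE.polyEval (ha : AE t J a) (q : Polynomial ℤ_[p]) :
    AE t J fun n => q.eval (a n) := by
  induction q using Polynomial.induction_on' with
  | add f g hf hg => exact (hf.add hg).congr fun n => by rw [Polynomial.eval_add]
  | monomial k c =>
    exact ((AE.const c).mul (ha.pow k)).congr fun n => by rw [Polynomial.eval_monomial]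

theorem AE.mono {J' : ℕ} (h : J ≤ J') (ha : AE t J' a) : AE t J a := by
  obtain ⟨q, hq⟩ := ha
  exact ⟨q, fun n => (hq n).trans (pow_le_pow_of_le_one (norm_nonneg _) (PadicInt.norm_le_one _) h)⟩

theorem AE.mul_t (ha : AE t J a) : AE t (J + 1) fun n => t n * a n := by
  obtain ⟨q, hq⟩ := ha
  refine ⟨Polynomial.X * q, fun n => ?_⟩
  rw [Polynomial.eval_mul, Polynomial.eval_X, ← mul_sub, norm_mul, pow_succ, mul_comm]
  exact mul_le_mul_of_nonneg_right (hq n) (norm_nonneg _)

theorem poly_sub_zero (q : Polynomial ℤ_[p]) (x : ℤ_[p]) : ‖q.eval x - q.eval 0‖ ≤ ‖x‖ := by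
  have h1 := Polynomial.sub_dvd_eval_sub x 0 q
  rw [sub_zero] at h1
  obtain ⟨c, hc⟩ := h1
  rw [hc]
  exact nmul_left _ le_rfl

theorem AE.inv (ht : ∀ n, ‖t n‖ < 1) (hJ : 1 ≤ J) (ha : AE t J a) (hab : ∀ n, a n * b n = 1) :
    AE t J b := by
  obtain ⟨q, hq⟩ := ha
  have hq0 : ‖q.eval 0‖ = 1 := by
    refine le_antisymm (PadicInt.norm_le_one _) ?_
    by_contra hcon
    push Not at hcon
    have h1 : ‖a 0‖ < 1 := by
      have e : a 0 = (a 0 - q.eval (t 0)) + ((q.eval (t 0) - q.eval 0) + q.eval 0) := by ring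
      rw [e]
      refine (PadicInt.nonarchimedean _ _).trans_lt (max_lt ?_ ?_)
      · refine (hq 0).trans_lt ?_
        calc ‖t 0‖ ^ J ≤ ‖t 0‖ ^ 1 :=
              pow_le_pow_of_le_one (norm_nonneg _) (PadicInt.norm_le_one _) hJ
          _ < 1 := by rw [pow_one]; exact ht 0
      · exact (PadicInt.nonarchimedean _ _).trans_lt
          (max_lt ((poly_sub_zero q _).trans_lt (ht 0)) hcon)
    have h2 : ‖a 0 * b 0‖ < 1 := by
      rw [norm_mul]
      calc ‖a 0‖ * ‖b 0‖ ≤ ‖a 0‖ * 1 :=
            mul_le_mul_of_nonneg_left (PadicInt.norm_le_one _) (norm_nonneg _)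
        _ < 1 := by rwa [mul_one]
    rw [hab 0, norm_one] at h2
    exact lt_irrefl _ h2
  obtain ⟨u, hu⟩ := PadicInt.isUnit_iff.2 hq0
  set c0 : ℤ_[p] := ((u⁻¹ : ℤ_[p]ˣ) : ℤ_[p]) with hc0
  have hc : c0 * q.eval 0 = 1 := by
    rw [hc0, ← hu]
    exact u.inv_mul
  set r : Polynomial ℤ_[p] := 1 - Polynomial.C c0 * q with hr
  have hr0 : r.eval 0 = 0 := by
    rw [hr]
    simp [hc]
  set Q : Polynomial ℤ_[p] := Polynomial.C c0 * ∑ k ∈ range J, r ^ k with hQ
  have hQq : q * Q = 1 - r ^ J := by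
    have h1 := mul_neg_geom_sum r J
    have h2 : Polynomial.C c0 * q = 1 - r := by rw [hr]; ring
    calc q * Q = (Polynomial.C c0 * q) * ∑ k ∈ range J, r ^ k := by rw [hQ]; ring
      _ = 1 - r ^ J := by rw [h2, h1]
  refine ⟨Q, fun n => ?_⟩
  have hrn : ‖r.eval (t n)‖ ≤ ‖t n‖ := by
    have := poly_sub_zero r (t n)
    rwa [hr0, sub_zero] at this
  have h3 : 1 - q.eval (t n) * Q.eval (t n) = r.eval (t n) ^ J := by
    rw [← Polynomial.eval_mul, hQq]
    simp
  have e : b n - Q.eval (t n) =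
      b n * (r.eval (t n) ^ J - (a n - q.eval (t n)) * Q.eval (t n)) := by
    rw [← h3]
    have := hab n
    linear_combination (Q.eval (t n)) * this
  rw [e]
  refine nmul_right _ (nsub ?_ (nmul_left _ (hq n)))
  rw [norm_pow]
  exact pow_le_pow_left₀ (norm_nonneg _) hrn J

/-- A sequence which is a polynomial in `t` to all orders vanishes everywhere or has finitely many
zeros. -/
theorem AE.dichotomy (ht : Tendsto t atTop (𝓝 0)) (ht1 : ∀ n, ‖t n‖ < 1) (ht0 : ∀ n, t n ≠ 0)
    (h : ∀ J, AE t J a) : (∀ n, a n = 0) ∨ ∀ᶠ n in atTop, a n ≠ 0 := by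
  by_cases hf : ∃ᶠ n in atTop, a n = 0
  swap
  · right
    rw [not_frequently] at hf
    exact hf
  left
  have htn : Tendsto (fun n => ‖t n‖) atTop (𝓝 0) := by
    simpa using ht.norm
  have hJ : ∀ J n, ‖a n‖ ≤ ‖t n‖ ^ J := by
    intro J
    obtain ⟨q, hq⟩ := h J
    have hdvd : ∀ k ≤ J, Polynomial.X ^ k ∣ q := by
      intro k
      induction k with
      | zero => intro _; simp
      | succ k ih =>
        intro hk
        obtain ⟨r, hr⟩ := ih (by omega)
        have hr0 : r.eval 0 = 0 := by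
          by_contra hcon
          have hpos : 0 < ‖r.eval 0‖ := norm_pos_iff.2 hcon
          have hev : ∀ᶠ n in atTop, ‖t n‖ < ‖r.eval 0‖ := htn.eventually (gt_mem_nhds hpos)
          obtain ⟨n, hn1, hn2⟩ := (hf.and_eventually hev).exists
          have h1 := hq n
          rw [hn1, zero_sub, norm_neg, hr, Polynomial.eval_mul, Polynomial.eval_pow,
            Polynomial.eval_X, norm_mul, norm_pow] at h1
          have htp : 0 < ‖t n‖ := norm_pos_iff.2 (ht0 n)
          have h2 : ‖t n‖ ^ J ≤ ‖t n‖ ^ k * ‖t n‖ := by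
            rw [← pow_succ]
            exact pow_le_pow_of_le_one htp.le (PadicInt.norm_le_one _) hk
          have h3 : ‖r.eval (t n)‖ ≤ ‖t n‖ :=
            le_of_mul_le_mul_left (h1.trans h2) (by positivity)
          have h4 : ‖r.eval 0‖ ≤ ‖t n‖ := by
            have e : r.eval 0 = r.eval (t n) - (r.eval (t n) - r.eval 0) := by ring
            rw [e]
            exact nsub h3 (poly_sub_zero r _)
          exact absurd h4 (not_le.2 hn2)
        obtain ⟨r', hr'⟩ := Polynomial.dvd_iff_isRoot.2 hr0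
        refine ⟨r', ?_⟩
        rw [hr, hr', map_zero, sub_zero, pow_succ, mul_assoc]
    obtain ⟨r, hr⟩ := hdvd J le_rfl
    intro n
    have e : a n = (a n - q.eval (t n)) + q.eval (t n) := by ring
    rw [e]
    refine nadd (hq n) ?_
    rw [hr, Polynomial.eval_mul, Polynomial.eval_pow, Polynomial.eval_X]
    refine nmul_left _ ?_
    rw [norm_pow]
  intro n
  have h1 : Tendsto (fun J : ℕ => ‖t n‖ ^ J) atTop (𝓝 0) :=
    tendsto_pow_atTop_nhds_zero_of_lt_one (norm_nonneg _) (ht1 n)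
  have h2 : ‖a n‖ ≤ 0 := ge_of_tendsto' h1 fun J => hJ J n
  exact norm_le_zero_iff.1 h2

end Pool.Agent.Helper26.MQ
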