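import Pool.Agent.Helper26.MQ.Poly

/-!
# The three bounds
-/

set_option autoImplicit false

namespace Pool.Agent.Helper26.MQ

open Finset MvPolynomial Pool.Agent.Helper86.MQ

variable {F : Type*} [Field F] {m d : ℕ}

/-- no orbit stays in the hyperplane `x₀ = 0` -/
def T1 (c : Idx m d → F) : Prop :=
  ∀ x : Fin (m + 1) → F, x 0 = 0 → ∃ k, (pm (arrPoly c))^[k] x 0 ≠ 0

/-- no non-zero orbit of the leading form stays in the hyperplane `x₀ = 0` -/
def T2 (c : Idx m d → F) : Prop :=
  ∀ x : Fin (m + 1) → F, x ≠ 0 → x 0 = 0 → ∃ k, (pm (arrForm c))^[k] x 0 ≠ 0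

/-- double counting -/
theorem double {C X : Type*} [Fintype C] [Fintype X] (Wt : C → X → Prop) (B : Finset C) (k : ℕ)
    (h : ∀ c ∈ B, k ≤ {x | Wt c x}.ncard) :
    B.card * k ≤ {cx : C × X | Wt cx.1 cx.2}.ncard := by
  classical
  have e : {cx : C × X | Wt cx.1 cx.2} =
      ((univ.filter fun cx : C × X => Wt cx.1 cx.2 : Finset (C × X)) : Set (C × X)) := by
    ext cx
    simp
  rw [e, Set.ncard_coe_finset]
  have h1 : (B.biUnion fun c => (univ.filter fun x => Wt c x).image fun x => (c, x)) ⊆
      (univ.filter fun cx : C × X => Wt cx.1 cx.2) := by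
    intro cx hcx
    simp only [Finset.mem_biUnion, Finset.mem_image, Finset.mem_filter, Finset.mem_univ,
      true_and] at hcx ⊢
    obtain ⟨c, _, x, hx, rfl⟩ := hcx
    exact hx
  refine le_trans ?_ (Finset.card_le_card h1)
  rw [Finset.card_biUnion]
  · rw [← smul_eq_mul]
    refine Finset.card_nsmul_le_sum _ _ _ fun c hc => ?_
    rw [Finset.card_image_of_injective _ (fun x y hxy => (Prod.mk.inj hxy).2)]
    have h2 := h c hc
    have e2 : {x | Wt c x} = ((univ.filter fun x => Wt c x : Finset X) : Set X) := by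
      ext x
      simp
    rwa [e2, Set.ncard_coe_finset] at h2
  · intro c _ c' _ hcc
    rw [Function.onFun, Finset.disjoint_left]
    intro a ha hb
    simp only [Finset.mem_image] at ha hb
    obtain ⟨x, _, rfl⟩ := ha
    obtain ⟨y, _, hy⟩ := hb
    exact hcc (Prod.mk.inj hy).1.symm

/-- a line minus the origin -/
theorem scaling_card [Fintype F] {V : Type*} [AddCommGroup V] [Module F V] [Fintype V]
    (P : V → Prop) (x : V) (hx : x ≠ 0) (h : ∀ a : F, a ≠ 0 → P (a • x)) :
    Fintype.card F - 1 ≤ {y | P y}.ncard := by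
  classical
  have h1 : ((univ.filter fun a : F => a ≠ 0).image fun a => a • x : Finset V).card =
      Fintype.card F - 1 := by
    rw [Finset.card_image_of_injective _ (smul_left_injective F hx)]
    rw [Finset.filter_ne' univ (0 : F), Finset.card_erase_of_mem (Finset.mem_univ _),
      Finset.card_univ]
  rw [← h1, ← Set.ncard_coe_finset]
  refine Set.ncard_le_ncard ?_ (Set.toFinite _)
  intro y hy
  simp only [Finset.coe_image, Finset.coe_filter, Finset.mem_univ, true_and, Set.mem_image] at hy
  obtain ⟨a, ha, rfl⟩ := hy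
  exact h a ha

theorem card_hyper [Fintype F] [DecidablePred fun x : Fin (m + 1) → F => x 0 = 0] :
    (univ.filter fun x : Fin (m + 1) → F => x 0 = 0).card = Fintype.card F ^ m := by
  classical
  have h : (univ.filter fun x : Fin (m + 1) → F => x 0 = 0) =
      (univ : Finset (Fin m → F)).image fun y => (Fin.cons 0 y : Fin (m + 1) → F) := by
    ext x
    simp only [Finset.mem_filter, Finset.mem_univ, true_and, Finset.mem_image]
    constructor
    · intro hx
      refine ⟨Fin.tail x, ?_⟩
      rw [← hx]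
      exact Fin.cons_self_tail x
    · rintro ⟨y, rfl⟩
      simp
  rw [h, Finset.card_image_of_injective _ (Fin.cons_right_injective (α := fun _ => F) 0)]
  simp

theorem card_span [Fintype F] {W : Type*} [AddCommGroup W] [Module F W] {r : ℕ}
    (v : Fin r → W) (hv : LinearIndependent F v) :
    (Submodule.span F (Set.range v) : Set W).ncard = Fintype.card F ^ r := by
  have : Module.Finite F (Submodule.span F (Set.range v)) :=
    FiniteDimensional.span_of_finite F (Set.finite_range v)
  have e : Nat.card (Submodule.span F (Set.range v)) = Fintype.card F ^ r := by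
    rw [Module.natCard_eq_pow_finrank (K := F), finrank_span_eq_card hv, Nat.card_eq_fintype_card,
      Fintype.card_fin]
  rw [← e]
  rfl

theorem bad1 [Fintype F] (hd : 1 ≤ d) :
    {c : Idx m d → F | ¬ T1 c}.ncard * Fintype.card F ≤
      (m + 2) * Fintype.card (Idx m d → F) := by
  classical
  set q := Fintype.card F with hq
  have hq0 : 0 < q := Fintype.card_pos
  set S : Finset (Fin (m + 1) → F) := univ.filter fun x => x 0 = 0 with hS
  have hcount := trap_count (F := F) (X := Fin (m + 1) → F) (W := F × (Fin (m + 1) → F))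
    (C := Idx m d → F) (fun c => pm (arrPoly c)) (fun x => ((1 : F), x)) S
    (fun r x hx y => fiber_affine hd x hx y) (fun r => q ^ (r - 1)) (by
      intro r x _ hx
      rcases Set.eq_empty_or_nonempty {z | z ∈ S ∧ ((1 : F), z) ∈
        Submodule.span F (Set.range fun k => ((1 : F), x k))} with h0 | ⟨z₀, _, hz₀⟩
      · rw [h0]
        simp
      set Z := {z | z ∈ S ∧ ((1 : F), z) ∈
        Submodule.span F (Set.range fun k => ((1 : F), x k))} with hZ
      have hr : r ≠ 0 := by
        rintro rfl
        have he : (Set.range fun k : Fin 0 => ((1 : F), x k)) = ∅ := Set.range_eq_empty _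
        rw [he, Submodule.span_empty, Submodule.mem_bot] at hz₀
        exact one_ne_zero (Prod.mk.inj hz₀).1
      -- `q * #Z ≤ q ^ r`
      have h1 : q * Z.ncard ≤ q ^ r := by
        rw [hq, ← card_span (fun k => ((1 : F), x k)) hx]
        have h2 : ((Set.univ : Set F) ×ˢ Z).ncard = Fintype.card F * Z.ncard := by
          rw [Set.ncard_prod, Set.ncard_univ, Nat.card_eq_fintype_card]
        rw [← h2]
        refine Set.ncard_le_ncard_of_injOn (fun az : F × (Fin (m + 1) → F) =>
          ((1 : F), az.2) - (1 - az.1) • ((1 : F), z₀)) ?_ ?_ (Set.toFinite _)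
        · rintro ⟨a, z⟩ ⟨_, hz⟩
          exact Submodule.sub_mem _ hz.2 (Submodule.smul_mem _ _ hz₀)
        · rintro ⟨a, z⟩ _ ⟨a', z'⟩ _ h
          simp only [Prod.smul_mk, smul_eq_mul, mul_one, Prod.mk_sub_mk, sub_sub_cancel,
            Prod.mk.injEq] at h
          obtain ⟨h3, h4⟩ := h
          subst h3
          have h5 : z = z' := sub_left_injective h4
          rw [h5]
      have h2 : q * Z.ncard ≤ q * q ^ (r - 1) := by
        rw [← pow_succ']
        have : r - 1 + 1 = r := by omega
        rwa [this]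
      exact Nat.le_of_mul_le_mul_left h2 hq0)
  have hR : Module.finrank F (F × (Fin (m + 1) → F)) = m + 2 := by
    rw [Module.finrank_prod, Module.finrank_self, Module.finrank_fin_fun]
    omega
  rw [hR] at hcount
  have hXc : (Fintype.card (Fin (m + 1) → F) : ℝ) = (q : ℝ) ^ (m + 1) := by
    rw [Fintype.card_fun, Fintype.card_fin]
    push_cast
    rfl
  have hSc : (S.card : ℝ) = (q : ℝ) ^ m := by
    rw [hS, card_hyper]
    push_cast
    rfl
  have hqR : (0 : ℝ) < q := by exact_mod_cast hq0
  have hterm : ∀ r ∈ Finset.Icc 1 (m + 2),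
      (S.card : ℝ) ^ r * ((q ^ (r - 1) : ℕ) : ℝ) / (Fintype.card (Fin (m + 1) → F) : ℝ) ^ r =
        (q : ℝ)⁻¹ := by
    intro r hr
    rw [Finset.mem_Icc] at hr
    obtain ⟨s, rfl⟩ : ∃ s, r = s + 1 := ⟨r - 1, by omega⟩
    rw [hXc, hSc, Nat.add_sub_cancel]
    push_cast
    field_simp
    ring
  rw [Finset.sum_congr rfl hterm, Finset.sum_const, Nat.card_Icc, nsmul_eq_mul] at hcount
  have hle : {c : Idx m d → F | ¬ T1 c}.ncard ≤
      {cx : (Idx m d → F) × (Fin (m + 1) → F) | cx.2 ∈ S ∧ ((1 : F), cx.2) ≠ 0 ∧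
        ∀ k, (pm (arrPoly cx.1))^[k] cx.2 ∈ S}.ncard := by
    have h2 := double (fun (c : Idx m d → F) (x : Fin (m + 1) → F) => x ∈ S ∧ ((1 : F), x) ≠ 0 ∧
      ∀ k, (pm (arrPoly c))^[k] x ∈ S) (univ.filter fun c => ¬ T1 c) 1 (by
        intro c hc
        rw [Finset.mem_filter] at hc
        obtain ⟨_, hc⟩ := hc
        unfold T1 at hc
        push Not at hc
        obtain ⟨x, hx0, hxk⟩ := hc
        rw [Nat.one_le_iff_ne_zero, Ne, Set.ncard_eq_zero (Set.toFinite _)]
        rw [← Ne, ← Set.nonempty_iff_ne_empty]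
        refine ⟨x, ?_, ?_, ?_⟩
        · rw [hS, Finset.mem_filter]
          exact ⟨Finset.mem_univ _, hx0⟩
        · intro h
          exact one_ne_zero (Prod.mk.inj h).1
        · intro k
          rw [hS, Finset.mem_filter]
          exact ⟨Finset.mem_univ _, hxk k⟩)
    rw [mul_one] at h2
    have e : {c : Idx m d → F | ¬ T1 c} =
        ((univ.filter fun c : Idx m d → F => ¬ T1 c : Finset _) : Set _) := by
      ext c
      simp
    rw [e, Set.ncard_coe_finset]
    exact h2
  have hfinal : ({c : Idx m d → F | ¬ T1 c}.ncard : ℝ) * q ≤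
      (m + 2 : ℝ) * Fintype.card (Idx m d → F) := by
    have h3 : ({c : Idx m d → F | ¬ T1 c}.ncard : ℝ) ≤
        (Fintype.card (Idx m d → F) : ℝ) * (((m + 2 + 1 - 1 : ℕ) : ℝ) * (q : ℝ)⁻¹) :=
      le_trans (by exact_mod_cast hle) hcount
    calc ({c : Idx m d → F | ¬ T1 c}.ncard : ℝ) * q
        ≤ (Fintype.card (Idx m d → F) : ℝ) * (((m + 2 + 1 - 1 : ℕ) : ℝ) * (q : ℝ)⁻¹) * q :=
          mul_le_mul_of_nonneg_right h3 hqR.le
      _ = (m + 2 : ℝ) * Fintype.card (Idx m d → F) := by
          have : ((m + 2 + 1 - 1 : ℕ) : ℝ) = (m : ℝ) + 2 := by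
            have : m + 2 + 1 - 1 = m + 2 := by omega
            rw [this]
            push_cast
            ring
          rw [this]
          field_simp
  exact_mod_cast hfinal

end Pool.Agent.Helper26.MQ
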