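import Pool.Agent.Helper26.MQ.Core3
import Pool.Agent.Helper26.MQ.Lift

/-!
# The chart at infinity
-/

set_option autoImplicit false

namespace Pool.Agent.Helper26.MQ

open Finset MvPolynomial Filter Topology Pool.Agent.Helper86.MQ

variable {p : ℕ} [hp : Fact p.Prime] {m d : ℕ}

/-- The dehomogenised homogenisation: the coordinate `0` is the coordinate at infinity. -/
noncomputable def hz {R ι : Type*} [CommRing R] (s : Finset ι) (ex : ι → Fin (m + 1) →₀ ℕ)
    (b : ι → R) (D : ℕ) : MvPolynomial (Fin (m + 1)) R :=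
  ∑ i ∈ s, monomial ((ex i).update 0 (D - (ex i).degree)) (b i)

theorem eval_hz {R ι : Type*} [CommRing R] (s : Finset ι) (ex : ι → Fin (m + 1) →₀ ℕ)
    (b : ι → R) (D : ℕ) (t : R) (y : Fin m → R) :
    eval (Fin.cons t y) (hz s ex b D) =
      ∑ i ∈ s, b i * (t ^ (D - (ex i).degree) * ∏ j : Fin m, y j ^ (ex i) j.succ) := by
  rw [hz, map_sum]
  refine Finset.sum_congr rfl fun i _ => ?_
  rw [eval_monomial, Finsupp.prod_fintype _ _ (by simp), Fin.prod_univ_succ]
  congr 2
  · rw [Fin.cons_zero]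
    simp
  · refine Finset.prod_congr rfl fun j _ => ?_
    rw [Fin.cons_succ]
    simp [Finsupp.update, Fin.succ_ne_zero]

theorem degree_succ (e : Fin (m + 1) →₀ ℕ) : e.degree = e 0 + ∑ j : Fin m, e j.succ := by
  rw [Finsupp.degree_eq_sum, Fin.sum_univ_succ]

/-- Evaluation at a point with `x₀ ≠ 0`. -/
theorem eval_chart {ι : Type*} (s : Finset ι) (ex : ι → Fin (m + 1) →₀ ℕ)
    (b : ι → ℤ_[p]) (D : ℕ) (hD : ∀ i ∈ s, (ex i).degree ≤ D) (x : Fin (m + 1) → ℚ_[p])
    (hx : x 0 ≠ 0) (t : ℤ_[p]) (y : Fin m → ℤ_[p]) (ht : (t : ℚ_[p]) = (x 0)⁻¹)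
    (hy : ∀ j, (y j : ℚ_[p]) = x j.succ / x 0) :
    ∑ i ∈ s, (b i : ℚ_[p]) * ∏ j, x j ^ (ex i) j =
      x 0 ^ D * ((eval (Fin.cons t y) (hz s ex b D) : ℤ_[p]) : ℚ_[p]) := by
  rw [eval_hz, PadicInt.coe_sum, Finset.mul_sum]
  refine Finset.sum_congr rfl fun i hi => ?_
  rw [PadicInt.coe_mul, PadicInt.coe_mul, PadicInt.coe_pow, ht]
  have h1 : ((∏ j : Fin m, y j ^ (ex i) j.succ : ℤ_[p]) : ℚ_[p]) =
      ∏ j : Fin m, (x j.succ / x 0) ^ (ex i) j.succ := by
    have h := map_prod (PadicInt.Coe.ringHom (p := p)) (fun j : Fin m => y j ^ (ex i) j.succ)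
      Finset.univ
    have h2 : ∀ j : Fin m, PadicInt.Coe.ringHom (p := p) (y j ^ (ex i) j.succ) =
        (x j.succ / x 0) ^ (ex i) j.succ := fun j => by
      rw [map_pow]
      congr 1
      exact hy j
    simp only [h2] at h
    exact h
  rw [h1, Fin.prod_univ_succ]
  have h2 : ∏ j : Fin m, x j.succ ^ (ex i) j.succ =
      x 0 ^ (∑ j : Fin m, (ex i) j.succ) * ∏ j : Fin m, (x j.succ / x 0) ^ (ex i) j.succ := by
    rw [← Finset.prod_pow_eq_pow_sum, ← Finset.prod_mul_distrib]
    refine Finset.prod_congr rfl fun j _ => ?_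
    rw [← mul_pow, mul_div_cancel₀ _ hx]
  rw [h2]
  have h3 : x 0 ^ D * ((x 0)⁻¹) ^ (D - (ex i).degree) = x 0 ^ (ex i).degree := by
    obtain ⟨k, hk⟩ := Nat.exists_eq_add_of_le (hD i hi)
    rw [hk, Nat.add_sub_cancel_left, pow_add, mul_assoc, ← mul_pow, mul_inv_cancel₀ hx, one_pow,
      mul_one]
  have h4 : x 0 ^ (ex i).degree = x 0 ^ (ex i) 0 * x 0 ^ (∑ j : Fin m, (ex i) j.succ) := by
    rw [← pow_add, ← degree_succ]
  calc (b i : ℚ_[p]) * (x 0 ^ (ex i) 0 * (x 0 ^ (∑ j : Fin m, (ex i) j.succ) *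
        ∏ j : Fin m, (x j.succ / x 0) ^ (ex i) j.succ))
      = (b i : ℚ_[p]) * (x 0 ^ (ex i).degree * ∏ j : Fin m, (x j.succ / x 0) ^ (ex i) j.succ) := by
        rw [h4]
        ring
    _ = _ := by
        rw [← h3]
        ring

/-- The linear coefficients. -/
theorem eval_zero_pderiv {R : Type*} [CommRing R] (k : Fin (m + 1))
    (F : MvPolynomial (Fin (m + 1)) R) :
    eval 0 (pderiv k F) = coeff (Finsupp.single k 1) F := by
  induction F using MvPolynomial.induction_on' with
  | monomial s a =>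
    rw [pderiv_monomial, coeff_monomial, eval_monomial]
    by_cases hs : s = Finsupp.single k 1
    · subst hs
      simp
    · rw [if_neg hs]
      by_cases hk : s k = 0
      · simp [hk]
      · have hne : s - Finsupp.single k 1 ≠ 0 := by
          intro h0
          apply hs
          ext j
          have h1 := DFunLike.congr_fun h0 j
          rw [Finsupp.tsub_apply, Finsupp.coe_zero, Pi.zero_apply] at h1
          by_cases hj : k = j
          · subst hj
            rw [Finsupp.single_eq_same] at h1 ⊢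
            omega
          · rw [Finsupp.single_eq_of_ne (Ne.symm hj)] at h1 ⊢
            omega
        obtain ⟨j, hj⟩ := Finsupp.support_nonempty_iff.2 hne
        rw [Finsupp.prod, Finset.prod_eq_zero hj, mul_zero]
        rw [Pi.zero_apply, zero_pow (Finsupp.mem_support_iff.1 hj)]
  | add F G hF hG => rw [map_add, map_add, coeff_add, hF, hG]

/-- The components of `Φ` in the chart. -/
noncomputable def comp (a : Idx m d → ℤ_[p]) (i : Fin (m + 1)) :
    MvPolynomial (Fin (m + 1)) ℤ_[p] :=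
  hz (univ : Finset {s : Fin (m + 1) →₀ ℕ // s.degree ≤ d}) (fun e => e.1) (fun e => a (i, e)) d

theorem coeff_comp (hd : 1 ≤ d) (a : Idx m d → ℤ_[p]) (i : Fin (m + 1)) (j : Fin m) :
    coeff (Finsupp.single j.succ 1) (comp a i) = a (i, ex hd j) := by
  classical
  rw [comp, hz, coeff_sum]
  simp only [coeff_monomial]
  rw [Finset.sum_eq_single (ex hd j)]
  · rw [if_pos]
    ext k
    have h1 : ((ex (m := m) hd j) : Fin (m + 1) →₀ ℕ).degree = d := by
      rw [ex]
      simp only [map_add, Finsupp.degree_single]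
      omega
    rw [h1, Nat.sub_self]
    refine Fin.cases ?_ (fun k => ?_) k
    · simp [Fin.succ_ne_zero]
    · simp [ex, Finsupp.update, Finsupp.single_apply, Fin.succ_ne_zero]
  · intro e _ he
    rw [if_neg]
    intro h
    apply he
    apply Subtype.ext
    have h0 := DFunLike.congr_fun h 0
    simp [Fin.succ_ne_zero] at h0
    have hdeg : (e : Fin (m + 1) →₀ ℕ).degree = d := by
      have := e.2
      omega
    have hk : ∀ k : Fin m, (e : Fin (m + 1) →₀ ℕ) k.succ =
        (Finsupp.single j.succ 1 : Fin (m + 1) →₀ ℕ) k.succ := by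
      intro k
      have h1 := DFunLike.congr_fun h k.succ
      simpa [Finsupp.update, Fin.succ_ne_zero] using h1
    have hs : ∑ k : Fin m, (e : Fin (m + 1) →₀ ℕ) k.succ = 1 := by
      rw [Finset.sum_congr rfl fun k _ => hk k, Finset.sum_eq_single j]
      · simp
      · intro b _ hb
        rw [Finsupp.single_apply, if_neg]
        exact fun h2 => hb (Fin.succ_injective _ h2).symm
      · simp
    have he0 : (e : Fin (m + 1) →₀ ℕ) 0 = d - 1 := by
      have := degree_succ (e : Fin (m + 1) →₀ ℕ)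
      omega
    ext k
    refine Fin.cases ?_ (fun k => ?_) k
    · simp [ex, he0, Fin.succ_ne_zero]
    · rw [hk k]
      simp [ex, Finsupp.single_apply]
  · simp

end Pool.Agent.Helper26.MQ
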