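import Pool.Agent.Helper26.MQ.AE

/-!
# Orbits near the attracting point at infinity
-/

set_option autoImplicit false

namespace Pool.Agent.Helper26.MQ

open Finset MvPolynomial Filter Topology

variable {p : ℕ} [hp : Fact p.Prime] {m d : ℕ}

/-- Orbits in the chart at infinity: `t` and `y` are the coordinates, `h` the components. -/
structure Orb (p : ℕ) [Fact p.Prime] (m d : ℕ)
    (h : Fin (m + 1) → MvPolynomial (Fin (m + 1)) ℤ_[p]) (u : ℤ_[p])
    (t : ℕ → ℤ_[p]) (y : ℕ → Fin m → ℤ_[p]) : Prop where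
  hu : ‖u‖ = 1
  t0 : ∀ n, t n ≠ 0
  t1 : ∀ n, ‖t n‖ < 1
  y1 : ∀ n i, ‖y n i‖ < 1
  st : ∀ n, (u + p * eval (Fin.cons (t n) (y n)) (h 0)) * t (n + 1) = p * t n ^ d
  sy : ∀ n i, (u + p * eval (Fin.cons (t n) (y n)) (h 0)) * y (n + 1) i =
    p * eval (Fin.cons (t n) (y n)) (h i.succ)
  det : ‖(Matrix.of fun i j : Fin m => eval 0 (pderiv j.succ (h i.succ))).det‖ = 1

theorem norm_p_lt : ‖(p : ℤ_[p])‖ < 1 := by
  rw [PadicInt.norm_p]
  exact inv_lt_one_of_one_lt₀ (by exact_mod_cast hp.out.one_lt)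

variable {h : Fin (m + 1) → MvPolynomial (Fin (m + 1)) ℤ_[p]} {u : ℤ_[p]}
  {t : ℕ → ℤ_[p]} {y : ℕ → Fin m → ℤ_[p]}

/-- the denominator -/
noncomputable def den (h : Fin (m + 1) → MvPolynomial (Fin (m + 1)) ℤ_[p]) (u : ℤ_[p])
    (t : ℕ → ℤ_[p]) (y : ℕ → Fin m → ℤ_[p]) (n : ℕ) : ℤ_[p] :=
  u + p * eval (Fin.cons (t n) (y n)) (h 0)

theorem norm_unit_add {u z : ℤ_[p]} (hu : ‖u‖ = 1) (hz : ‖z‖ < 1) : ‖u + z‖ = 1 := by
  refine le_antisymm (PadicInt.norm_le_one _) ?_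
  by_contra hcon
  push Not at hcon
  have : ‖u‖ < 1 := by
    have e : u = (u + z) + -z := by ring
    rw [e]
    exact (PadicInt.nonarchimedean _ _).trans_lt (max_lt hcon (by rwa [norm_neg]))
  rw [hu] at this
  exact lt_irrefl _ this

theorem p_mul_lt (z : ℤ_[p]) : ‖(p : ℤ_[p]) * z‖ < 1 := by
  rw [norm_mul]
  calc ‖(p : ℤ_[p])‖ * ‖z‖ ≤ ‖(p : ℤ_[p])‖ * 1 :=
        mul_le_mul_of_nonneg_left (PadicInt.norm_le_one _) (norm_nonneg _)
    _ < 1 := by rw [mul_one]; exact norm_p_lt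

theorem Orb.den_norm (H : Orb p m d h u t y) (n : ℕ) : ‖den h u t y n‖ = 1 :=
  norm_unit_add H.hu (p_mul_lt _)

/-- the inverse of the denominator -/
theorem Orb.exists_inv (H : Orb p m d h u t y) :
    ∃ E : ℕ → ℤ_[p], ∀ n, den h u t y n * E n = 1 := by
  have : ∀ n, ∃ e, den h u t y n * e = 1 := fun n => by
    obtain ⟨v, hv⟩ := PadicInt.isUnit_iff.2 (H.den_norm n)
    exact ⟨((v⁻¹ : ℤ_[p]ˣ) : ℤ_[p]), by rw [← hv]; exact v.mul_inv⟩
  choose E hE using this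
  exact ⟨E, hE⟩

theorem Orb.t_norm (H : Orb p m d h u t y) (n : ℕ) :
    ‖t (n + 1)‖ = ‖(p : ℤ_[p])‖ * ‖t n‖ ^ d := by
  have h1 := congrArg norm (H.st n)
  rw [norm_mul, norm_mul, norm_pow] at h1
  have h2 := H.den_norm n
  rw [den] at h2
  rwa [h2, one_mul] at h1

theorem Orb.y_small (H : Orb p m d h u t y) (n : ℕ) (i : Fin m) :
    ‖y (n + 1) i‖ ≤ ‖(p : ℤ_[p])‖ := by
  have h1 := congrArg norm (H.sy n i)
  rw [norm_mul] at h1
  have h2 := H.den_norm n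
  rw [den] at h2
  rw [h2, one_mul] at h1
  rw [h1]
  exact nmul_left _ le_rfl

theorem Orb.t_le (hd : 1 ≤ d) (H : Orb p m d h u t y) (n : ℕ) :
    ‖t n‖ ≤ ‖(p : ℤ_[p])‖ ^ n := by
  induction n with
  | zero => simpa using PadicInt.norm_le_one (t 0)
  | succ n ih =>
    rw [H.t_norm, pow_succ, mul_comm (‖(p : ℤ_[p])‖ ^ n)]
    refine mul_le_mul_of_nonneg_left ?_ (norm_nonneg _)
    calc ‖t n‖ ^ d ≤ ‖t n‖ ^ 1 :=
          pow_le_pow_of_le_one (norm_nonneg _) (PadicInt.norm_le_one _) hd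
      _ ≤ ‖(p : ℤ_[p])‖ ^ n := by rwa [pow_one]

theorem Orb.t_tendsto (hd : 1 ≤ d) (H : Orb p m d h u t y) : Tendsto t atTop (𝓝 0) := by
  refine squeeze_zero_norm (H.t_le hd) ?_
  exact tendsto_pow_atTop_nhds_zero_of_lt_one (norm_nonneg _) norm_p_lt

/-- Shifts of expandable sequences. -/
theorem Orb.shift (hd : 2 ≤ d) (H : Orb p m d h u t y) {J : ℕ} (hJ : 1 ≤ J)
    {E : ℕ → ℤ_[p]} (hE : ∀ n, den h u t y n * E n = 1) (hE1 : AE t J E)
    {a : ℕ → ℤ_[p]} (ha : AE t J a) :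
    ∃ (c : ℤ_[p]) (b : ℕ → ℤ_[p]), AE t J b ∧ ∀ n, a (n + 1) = c + p * (t n * b n) := by
  obtain ⟨q, hq⟩ := ha
  have hp0 : (p : ℤ_[p]) ≠ 0 := by exact_mod_cast hp.out.ne_zero
  have hst : ∀ n, t (n + 1) = p * (t n ^ d * E n) := by
    intro n
    have h1 := H.st n
    have h2 := hE n
    rw [den] at h2
    calc t (n + 1) = ((u + p * eval (Fin.cons (t n) (y n)) (h 0)) * E n) * t (n + 1) := by
          rw [h2, one_mul]
      _ = E n * ((u + p * eval (Fin.cons (t n) (y n)) (h 0)) * t (n + 1)) := by ring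
      _ = p * (t n ^ d * E n) := by rw [h1]; ring
  -- the polynomial part
  obtain ⟨q₁, hq₁⟩ := Polynomial.X_sub_C_dvd_sub_C_eval (p := q) (a := (0 : ℤ_[p]))
  rw [map_zero, sub_zero] at hq₁
  have hq2 : ∀ x, q.eval x = q.eval 0 + x * q₁.eval x := by
    intro x
    have h1 := congrArg (Polynomial.eval x) hq₁
    rw [Polynomial.eval_sub, Polynomial.eval_C, Polynomial.eval_mul, Polynomial.eval_X] at h1
    linear_combination h1
  -- the error term
  have herr : ∀ n, ∃ w : ℤ_[p], a (n + 1) - q.eval (t (n + 1)) = p * (t n * w) ∧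
      ‖w‖ ≤ ‖t n‖ ^ J := by
    intro n
    have h1 := hq (n + 1)
    have h2 : ‖t (n + 1)‖ ^ J ≤ ‖(p : ℤ_[p])‖ * ‖t n‖ * ‖t n‖ ^ J := by
      have hp1 := PadicInt.norm_le_one (p : ℤ_[p])
      have ht1 := PadicInt.norm_le_one (t n)
      rw [H.t_norm, mul_pow, ← pow_mul, mul_assoc]
      have h3 : ‖(p : ℤ_[p])‖ ^ J ≤ ‖(p : ℤ_[p])‖ := by
        calc ‖(p : ℤ_[p])‖ ^ J ≤ ‖(p : ℤ_[p])‖ ^ 1 :=
              pow_le_pow_of_le_one (norm_nonneg _) hp1 hJ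
          _ = _ := pow_one _
      have h4 : ‖t n‖ ^ (d * J) ≤ ‖t n‖ * ‖t n‖ ^ J := by
        rw [← pow_succ']
        refine pow_le_pow_of_le_one (norm_nonneg _) ht1 ?_
        nlinarith
      exact mul_le_mul h3 h4 (by positivity) (norm_nonneg _)
    have h3 : ‖a (n + 1) - q.eval (t (n + 1))‖ ≤ ‖(p : ℤ_[p]) * t n * t n ^ J‖ := by
      rw [norm_mul, norm_mul, norm_pow]
      exact h1.trans h2
    have h4 : (p : ℤ_[p]) * t n * t n ^ J ≠ 0 :=
      mul_ne_zero (mul_ne_zero hp0 (H.t0 n)) (pow_ne_zero _ (H.t0 n))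
    obtain ⟨w, hw⟩ : (p : ℤ_[p]) * t n * t n ^ J ∣ a (n + 1) - q.eval (t (n + 1)) := by
      set A := (p : ℤ_[p]) * t n * t n ^ J with hA
      set B := a (n + 1) - q.eval (t (n + 1)) with hB
      have hA0 : (A : ℚ_[p]) ≠ 0 := by
        intro h0
        exact h4 (Subtype.coe_injective (h0.trans PadicInt.coe_zero.symm))
      have hn : ‖(B : ℚ_[p]) / (A : ℚ_[p])‖ ≤ 1 := by
        rw [norm_div]
        exact div_le_one_of_le₀ h3 (norm_nonneg _)
      refine ⟨⟨(B : ℚ_[p]) / (A : ℚ_[p]), hn⟩, ?_⟩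
      apply Subtype.coe_injective
      change (B : ℚ_[p]) = (A : ℚ_[p]) * ((B : ℚ_[p]) / (A : ℚ_[p]))
      rw [mul_div_cancel₀ _ hA0]
    refine ⟨t n ^ J * w, ?_, ?_⟩
    · rw [hw]
      ring
    · rw [norm_mul, norm_pow]
      calc ‖t n‖ ^ J * ‖w‖ ≤ ‖t n‖ ^ J * 1 :=
            mul_le_mul_of_nonneg_left (PadicInt.norm_le_one _) (by positivity)
        _ = _ := mul_one _
  choose w hw1 hw2 using herr
  have htS : AE t J fun n => t (n + 1) :=
    ((AE.const (p : ℤ_[p])).mul ((AE.self.pow d).mul hE1)).congr hst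
  refine ⟨q.eval 0, fun n => t n ^ (d - 1) * E n * q₁.eval (t (n + 1)) + w n, ?_, ?_⟩
  · exact (((AE.self.pow (d - 1)).mul hE1).mul (htS.polyEval q₁)).add (AE.small hw2)
  · intro n
    have h1 : a (n + 1) = q.eval (t (n + 1)) + p * (t n * w n) := by
      rw [← hw1 n]
      ring
    have h2 : t (n + 1) = p * (t n * (t n ^ (d - 1) * E n)) := by
      rw [hst n]
      have : t n ^ d = t n * t n ^ (d - 1) := by
        rw [← pow_succ']
        congr 1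
        omega
      rw [this]
      ring
    rw [h1, hq2 (t (n + 1))]
    have h3 : t (n + 1) * q₁.eval (t (n + 1)) =
        p * (t n * (t n ^ (d - 1) * E n)) * q₁.eval (t (n + 1)) := by
      conv_lhs => rw [h2]
      rw [← h2]
    rw [h3]
    ring

end Pool.Agent.Helper26.MQ
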