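import Pool.Agent.Helper26.MQ.Core

/-!
# Orbits near the attracting point at infinity: expansion to all orders
-/

set_option autoImplicit false

namespace Pool.Agent.Helper26.MQ

open Finset MvPolynomial Filter Topology

variable {p : ℕ} [hp : Fact p.Prime] {m d : ℕ}

/-- Inverse function theorem for expandable sequences. -/
theorem ift {t : ℕ → ℤ_[p]} {y : ℕ → Fin m → ℤ_[p]} (ht1 : ∀ n, ‖t n‖ < 1)
    (hy1 : ∀ n i, ‖y n i‖ < 1) {J : ℕ} (hJ : 1 ≤ J)
    (G : Fin m → MvPolynomial (Fin (m + 1)) ℤ_[p])
    (hdet : ‖(Matrix.of fun i j : Fin m => eval 0 (pderiv j.succ (G i))).det‖ = 1)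
    (hy : ∀ j, AE t J fun n => y n j)
    (hG : ∀ i, AE t (J + 1) fun n => eval (Fin.cons (t n) (y n)) (G i)) (j : Fin m) :
    AE t (J + 1) fun n => y n j := by
  choose q hq using hy
  -- the constant terms are small
  have hq0 : ∀ j, ‖(q j).eval 0‖ < 1 := by
    intro j
    have e : (q j).eval 0 = (y 0 j - (y 0 j - (q j).eval (t 0))) -
        ((q j).eval (t 0) - (q j).eval 0) := by ring
    rw [e, sub_eq_add_neg, sub_eq_add_neg]
    refine (PadicInt.nonarchimedean _ _).trans_lt (max_lt
      ((PadicInt.nonarchimedean _ _).trans_lt (max_lt (hy1 0 j) ?_)) ?_)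
    · rw [norm_neg]
      refine (hq j 0).trans_lt ?_
      calc ‖t 0‖ ^ J ≤ ‖t 0‖ ^ 1 :=
            pow_le_pow_of_le_one (norm_nonneg _) (PadicInt.norm_le_one _) hJ
        _ < 1 := by rw [pow_one]; exact ht1 0
    · rw [norm_neg]
      exact (poly_sub_zero _ _).trans_lt (ht1 0)
  set c : Fin (m + 1) → ℤ_[p] := Fin.cons 0 fun j => (q j).eval 0 with hc
  set M : Matrix (Fin m) (Fin m) ℤ_[p] :=
    Matrix.of fun i j => eval c (pderiv j.succ (G i)) with hM
  have hMdet : IsUnit M.det := by
    refine det_unit hdet fun i j => ?_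
    rw [hM, Matrix.of_apply, Matrix.of_apply]
    -- uniform bound below one
    have hne : ∀ k, ‖(0 : Fin (m + 1) → ℤ_[p]) k - c k‖ ≤ ‖(p : ℤ_[p])‖ := by
      intro k
      rw [Pi.zero_apply, zero_sub, norm_neg]
      refine Fin.cases ?_ (fun k => ?_) k
      · rw [hc, Fin.cons_zero, norm_zero]
        exact norm_nonneg _
      · rw [hc, Fin.cons_succ]
        obtain ⟨w, hw⟩ := (PadicInt.norm_lt_one_iff_dvd _).1 (hq0 k)
        rw [hw]
        exact nmul_left _ le_rfl
    exact (lip _ _ _ (norm_nonneg _) hne).trans_lt norm_p_lt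
  set e : ℕ → Fin m → ℤ_[p] := fun n j => y n j - (q j).eval (t n) with he
  -- the linear system for the error
  have hMe : ∀ i, AE t (J + 1) fun n => (M.mulVec (e n)) i := by
    intro i
    set v : ℕ → Fin (m + 1) → ℤ_[p] := fun n => Fin.cons (t n) fun j => (q j).eval (t n) with hv
    set e' : ℕ → Fin (m + 1) → ℤ_[p] := fun n => Fin.cons 0 (e n) with he'
    have hve : ∀ n, v n + e' n = Fin.cons (t n) (y n) := by
      intro n
      funext k
      refine Fin.cases ?_ (fun k => ?_) k
      · simp [hv, he']
      · simp [hv, he', he]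
    have he'n : ∀ n k, ‖e' n k‖ ≤ ‖t n‖ ^ J := by
      intro n k
      refine Fin.cases ?_ (fun k => ?_) k
      · rw [he']
        simp only [Fin.cons_zero, norm_zero]
        positivity
      · rw [he']
        simp only [Fin.cons_succ]
        exact hq k n
    have h1 : AE t (J + 1) fun n => eval (v n) (G i) := by
      refine AE.mvEval (fun k => ?_) (G i)
      refine Fin.cases ?_ (fun k => ?_) k
      · exact AE.self.congr fun n => by simp [hv]
      · exact (AE.poly (q k)).congr fun n => by simp [hv]
    have h2 : AE t (J + 1) fun n => eval (v n + e' n) (G i) - eval (v n) (G i) -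
        ∑ k, eval (v n) (pderiv k (G i)) * e' n k := by
      refine AE.small fun n => ?_
      refine (taylor (G i) (v n) (e' n) (by positivity) (he'n n)).trans ?_
      rw [← pow_mul]
      exact pow_le_pow_of_le_one (norm_nonneg _) (PadicInt.norm_le_one _) (by omega)
    have h3 : AE t (J + 1) fun n => ∑ j : Fin m,
        (eval (v n) (pderiv j.succ (G i)) - M i j) * e n j := by
      refine AE.small fun n => nsum _ _ (by positivity) fun j _ => ?_
      rw [norm_mul, pow_succ']
      refine mul_le_mul ?_ (hq j n) (norm_nonneg _) (norm_nonneg _)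
      rw [hM, Matrix.of_apply]
      refine lip _ _ _ (norm_nonneg _) fun k => ?_
      refine Fin.cases ?_ (fun k => ?_) k
      · simp [hv, hc]
      · simp only [hv, hc, Fin.cons_succ]
        exact poly_sub_zero _ _
    have h4 : AE t (J + 1) fun n => eval (v n + e' n) (G i) := by
      refine (hG i).congr fun n => ?_
      rw [hve n]
    refine (((h4.sub h1).sub h2).sub h3).congr fun n => ?_
    rw [Fin.sum_univ_succ]
    simp only [he', Fin.cons_zero, Fin.cons_succ, mul_zero, zero_add, sub_mul,
      Finset.sum_sub_distrib]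
    rw [Matrix.mulVec, dotProduct]
    ring
  have hej : ∀ n, e n = M⁻¹.mulVec (M.mulVec (e n)) := by
    intro n
    rw [Matrix.mulVec_mulVec, Matrix.nonsing_inv_mul M hMdet, Matrix.one_mulVec]
  have h5 : AE t (J + 1) fun n => e n j := by
    have h6 : AE t (J + 1) fun n => ∑ i, M⁻¹ j i * (M.mulVec (e n)) i :=
      AE.sum _ (fun i n => M⁻¹ j i * (M.mulVec (e n)) i) fun i _ => (AE.const _).mul (hMe i)
    refine h6.congr fun n => ?_
    conv_lhs => rw [hej n]
    rw [Matrix.mulVec, dotProduct]
  refine ((AE.poly (q j)).add h5).congr fun n => ?_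
  rw [he]
  ring

variable {h : Fin (m + 1) → MvPolynomial (Fin (m + 1)) ℤ_[p]} {u : ℤ_[p]}
  {t : ℕ → ℤ_[p]} {y : ℕ → Fin m → ℤ_[p]}

/-- If the orbit is tangent to the strongly contracted direction, all coordinates can be expanded
to all orders. -/
theorem Orb.expand (hd : 2 ≤ d) (H : Orb p m d h u t y) (yst : Fin m → ℤ_[p])
    (hc : ∀ n i, ‖y n i - yst i‖ ≤ ‖t n‖) (J : ℕ) (j : Fin m) : AE t J fun n => y n j := by
  have main : ∀ J, 1 ≤ J → ∀ j, AE t J fun n => y n j := by
    intro J hJ
    induction J, hJ using Nat.le_induction with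
    | base => exact fun j => ⟨Polynomial.C (yst j), fun n => by simpa using hc n j⟩
    | succ J hJ ih =>
      obtain ⟨E, hE⟩ := H.exists_inv
      have hv : ∀ k, AE t J fun n => (Fin.cons (t n) (y n) : Fin (m + 1) → ℤ_[p]) k := by
        intro k
        refine Fin.cases ?_ (fun k => ?_) k
        · exact AE.self.congr fun n => by simp
        · exact (ih k).congr fun n => by simp
      have hD : AE t J (den h u t y) :=
        ((AE.const u).add ((AE.const (p : ℤ_[p])).mul (AE.mvEval hv (h 0)))).congr fun n => rfl
      have hE1 : AE t J E := AE.inv H.t1 hJ hD hE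
      choose c b hb1 hb2 using fun i => H.shift hd hJ hE hE1 (ih i)
      -- the constants are divisible by `p`
      have hcp : ∀ i, ∃ c', c i = p * c' := by
        intro i
        have h1 : ‖c i‖ < 1 := by
          have e : c i = y 1 i - p * (t 0 * b i 0) := by
            have := hb2 i 0
            rw [zero_add] at this
            rw [this]
            ring
          rw [e, sub_eq_add_neg]
          refine (PadicInt.nonarchimedean _ _).trans_lt (max_lt (H.y1 1 i) ?_)
          rw [norm_neg]
          exact p_mul_lt _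
        obtain ⟨c', hc'⟩ := (PadicInt.norm_lt_one_iff_dvd _).1 h1
        exact ⟨c', hc'⟩
      choose c' hc' using hcp
      have hp0 : (p : ℤ_[p]) ≠ 0 := by exact_mod_cast hp.out.ne_zero
      set G : Fin m → MvPolynomial (Fin (m + 1)) ℤ_[p] := fun i => h i.succ - C (c i) * h 0 with hG
      have hGval : ∀ i n, eval (Fin.cons (t n) (y n)) (G i) =
          t n * (den h u t y n * b i n) + u * c' i := by
        intro i n
        have h1 := H.sy n i
        have h2 := hb2 i n
        rw [h2] at h1
        apply mul_left_cancel₀ hp0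
        rw [hG]
        simp only [map_sub, map_mul, eval_C]
        rw [den]
        have h3 := hc' i
        linear_combination (-1 : ℤ_[p]) * h1 + u * h3
      refine ift H.t1 H.y1 hJ G ?_ ih ?_
      · -- the determinant
        have h1 : IsUnit (Matrix.of fun i j : Fin m => eval 0 (pderiv j.succ (G i))).det := by
          refine det_unit H.det fun i j => ?_
          rw [Matrix.of_apply, Matrix.of_apply, hG]
          simp only [map_sub, Derivation.leibniz, pderiv_C, smul_eq_mul, map_mul, eval_C,
            mul_zero, add_zero]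
          rw [hc' i]
          have e : eval 0 (pderiv j.succ (h i.succ)) - (eval 0 (pderiv j.succ (h i.succ)) -
              p * c' i * eval 0 (pderiv j.succ (h 0))) =
              p * (c' i * eval 0 (pderiv j.succ (h 0))) := by ring
          rw [e]
          exact p_mul_lt _
        exact PadicInt.isUnit_iff.1 h1
      · intro i
        exact (((hD.mul (hb1 i)).mul_t).add (AE.const (u * c' i))).congr (hGval i)
  rcases Nat.eq_zero_or_pos J with h0 | h0
  · subst h0
    exact (main 1 le_rfl j).mono (Nat.zero_le _)
  · exact main J h0 j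

/-- In the tangent case every polynomial vanishes on the whole orbit or at finitely many times. -/
theorem Orb.exact (hd : 2 ≤ d) (H : Orb p m d h u t y) (yst : Fin m → ℤ_[p])
    (hc : ∀ n i, ‖y n i - yst i‖ ≤ ‖t n‖) (F : MvPolynomial (Fin (m + 1)) ℤ_[p]) :
    (∀ n, eval (Fin.cons (t n) (y n)) F = 0) ∨
      ∀ᶠ n in atTop, eval (Fin.cons (t n) (y n)) F ≠ 0 := by
  refine AE.dichotomy (H.t_tendsto (by omega)) H.t1 H.t0 fun J => ?_
  refine AE.mvEval (fun k => ?_) F
  refine Fin.cases ?_ (fun k => ?_) k
  · exact AE.self.congr fun n => by simp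
  · exact (H.expand hd yst hc J k).congr fun n => by simp

end Pool.Agent.Helper26.MQ
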