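import Pool.Agent.Helper26.MQ.Core2

/-!
# Orbits near the attracting point at infinity: limit and dichotomy
-/

set_option autoImplicit false

namespace Pool.Agent.Helper26.MQ

open Finset MvPolynomial Filter Topology

variable {p : ℕ} [hp : Fact p.Prime] {m d : ℕ}
variable {h : Fin (m + 1) → MvPolynomial (Fin (m + 1)) ℤ_[p]} {u : ℤ_[p]}
  {t : ℕ → ℤ_[p]} {y : ℕ → Fin m → ℤ_[p]}

theorem norm_of_unit_mul {D z : ℤ_[p]} (hD : ‖D‖ = 1) : ‖z‖ = ‖D * z‖ := by
  rw [norm_mul, hD, one_mul]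

theorem Orb.step_small (hd : 1 ≤ d) (H : Orb p m d h u t y) (n : ℕ) :
    ∀ i, ‖y (n + 1) i - y n i‖ ≤ ‖(p : ℤ_[p])‖ ^ n := by
  induction n with
  | zero =>
    intro i
    rw [pow_zero]
    exact PadicInt.norm_le_one _
  | succ n ih =>
    intro i
    have hv : ∀ k, ‖(Fin.cons (t (n + 1)) (y (n + 1)) : Fin (m + 1) → ℤ_[p]) k -
        (Fin.cons (t n) (y n) : Fin (m + 1) → ℤ_[p]) k‖ ≤ ‖(p : ℤ_[p])‖ ^ n := by
      intro k
      refine Fin.cases ?_ (fun k => ?_) k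
      · simp only [Fin.cons_zero]
        refine nsub ((H.t_le hd (n + 1)).trans ?_) (H.t_le hd n)
        exact pow_le_pow_of_le_one (norm_nonneg _) (PadicInt.norm_le_one _) (Nat.le_succ n)
      · simp only [Fin.cons_succ]
        exact ih k
    have hr : (0 : ℝ) ≤ ‖(p : ℤ_[p])‖ ^ n := by positivity
    have h1 := lip (h i.succ) _ _ hr hv
    have h0 := lip (h 0) _ _ hr hv
    rw [norm_of_unit_mul (H.den_norm (n + 1)), den]
    have e : (u + p * eval (Fin.cons (t (n + 1)) (y (n + 1))) (h 0)) *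
        (y (n + 1 + 1) i - y (n + 1) i) =
        p * ((eval (Fin.cons (t (n + 1)) (y (n + 1))) (h i.succ) -
          eval (Fin.cons (t n) (y n)) (h i.succ)) -
          (eval (Fin.cons (t (n + 1)) (y (n + 1))) (h 0) -
          eval (Fin.cons (t n) (y n)) (h 0)) * y (n + 1) i) := by
      have h2 := H.sy (n + 1) i
      have h3 := H.sy n i
      linear_combination h2 - h3
    rw [e, norm_mul, pow_succ, mul_comm (‖(p : ℤ_[p])‖ ^ n)]
    exact mul_le_mul_of_nonneg_left (nsub h1 (nmul_left _ h0)) (norm_nonneg _)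

theorem Orb.limit (hd : 1 ≤ d) (H : Orb p m d h u t y) :
    ∃ yst : Fin m → ℤ_[p], (∀ i, Tendsto (fun n => y n i) atTop (𝓝 (yst i))) ∧
      ∀ i, (u + p * eval (Fin.cons 0 yst) (h 0)) * yst i =
        p * eval (Fin.cons 0 yst) (h i.succ) := by
  have hcs : ∀ i, ∃ l, Tendsto (fun n => y n i) atTop (𝓝 l) := by
    intro i
    refine cauchySeq_tendsto_of_complete ?_
    refine cauchySeq_of_le_geometric ‖(p : ℤ_[p])‖ 1 norm_p_lt fun n => ?_
    rw [dist_comm, dist_eq_norm, one_mul]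
    exact H.step_small hd n i
  choose yst hyst using hcs
  refine ⟨yst, hyst, fun i => ?_⟩
  have hv : Tendsto (fun n => (Fin.cons (t n) (y n) : Fin (m + 1) → ℤ_[p])) atTop
      (𝓝 (Fin.cons 0 yst)) := by
    rw [tendsto_pi_nhds]
    intro k
    refine Fin.cases ?_ (fun k => ?_) k
    · simpa using H.t_tendsto hd
    · simpa using hyst k
  have hF : ∀ F : MvPolynomial (Fin (m + 1)) ℤ_[p],
      Tendsto (fun n => eval (Fin.cons (t n) (y n)) F) atTop (𝓝 (eval (Fin.cons 0 yst) F)) :=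
    fun F => ((MvPolynomial.continuous_eval F).tendsto _).comp hv
  have h1 : Tendsto (fun n => (u + p * eval (Fin.cons (t n) (y n)) (h 0)) * y (n + 1) i) atTop
      (𝓝 ((u + p * eval (Fin.cons 0 yst) (h 0)) * yst i)) :=
    (tendsto_const_nhds.add (tendsto_const_nhds.mul (hF (h 0)))).mul
      ((tendsto_add_atTop_iff_nat 1).2 (hyst i))
  have h2 : Tendsto (fun n => (p : ℤ_[p]) * eval (Fin.cons (t n) (y n)) (h i.succ)) atTop
      (𝓝 (p * eval (Fin.cons 0 yst) (h i.succ))) := tendsto_const_nhds.mul (hF (h i.succ))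
  have h3 : (fun n => (u + p * eval (Fin.cons (t n) (y n)) (h 0)) * y (n + 1) i) =
      fun n => (p : ℤ_[p]) * eval (Fin.cons (t n) (y n)) (h i.succ) := funext fun n => H.sy n i
  rw [h3] at h1
  exact tendsto_nhds_unique h1 h2

/-- One step away from the strongly contracted direction. -/
theorem Orb.far_step (hd : 1 ≤ d) (H : Orb p m d h u t y) {yst : Fin m → ℤ_[p]}
    (hfix : ∀ i, (u + p * eval (Fin.cons 0 yst) (h 0)) * yst i =
        p * eval (Fin.cons 0 yst) (h i.succ)) (n : ℕ)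
    (hn : ‖t n‖ < ‖fun i => y n i - yst i‖) :
    ‖(p : ℤ_[p])‖ * ‖fun i => y n i - yst i‖ ≤ ‖fun i => y (n + 1) i - yst i‖ ∧
      ‖t (n + 1)‖ < ‖fun i => y (n + 1) i - yst i‖ := by
  have hp0 : 0 < ‖(p : ℤ_[p])‖ := norm_pos_iff.2 (by exact_mod_cast hp.out.ne_zero)
  set z : Fin m → ℤ_[p] := fun i => y n i - yst i with hz
  set z' : Fin m → ℤ_[p] := fun i => y (n + 1) i - yst i with hz'
  have hzpos : 0 < ‖z‖ := (norm_nonneg _).trans_lt hn
  have hyst1 : ∀ i, ‖yst i‖ ≤ ‖(p : ℤ_[p])‖ := by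
    intro i
    rw [norm_of_unit_mul (norm_unit_add H.hu (p_mul_lt (eval (Fin.cons 0 yst) (h 0)))), hfix i]
    exact nmul_left _ le_rfl
  have hz1 : ‖z‖ < 1 := by
    rw [pi_norm_lt_iff one_pos]
    intro i
    rw [hz]
    simp only
    rw [sub_eq_add_neg]
    refine (PadicInt.nonarchimedean _ _).trans_lt (max_lt (H.y1 n i) ?_)
    rw [norm_neg]
    exact (hyst1 i).trans_lt norm_p_lt
  set G : Fin m → MvPolynomial (Fin (m + 1)) ℤ_[p] := fun i => h i.succ - C (yst i) * h 0 with hG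
  set vs : Fin (m + 1) → ℤ_[p] := Fin.cons 0 yst with hvs
  set e : Fin (m + 1) → ℤ_[p] := Fin.cons (t n) z with he
  have hve : vs + e = Fin.cons (t n) (y n) := by
    funext k
    refine Fin.cases ?_ (fun k => ?_) k
    · simp [hvs, he]
    · simp [hvs, he, hz]
  set L : Matrix (Fin m) (Fin m) ℤ_[p] :=
    Matrix.of fun i j => eval vs (pderiv j.succ (G i)) with hL
  have hLdet : IsUnit L.det := by
    have h1 : ‖(Matrix.of fun i j : Fin m => eval 0 (pderiv j.succ (h i.succ))).det‖ = 1 := H.det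
    refine det_unit h1 fun i j => ?_
    rw [hL, Matrix.of_apply, Matrix.of_apply, hG]
    simp only [map_sub, Derivation.leibniz, pderiv_C, smul_eq_mul, map_mul, eval_C,
      mul_zero, add_zero]
    have hne : ∀ k, ‖(0 : Fin (m + 1) → ℤ_[p]) k - vs k‖ ≤ ‖(p : ℤ_[p])‖ := by
      intro k
      rw [Pi.zero_apply, zero_sub, norm_neg]
      refine Fin.cases ?_ (fun k => ?_) k
      · rw [hvs, Fin.cons_zero, norm_zero]
        exact norm_nonneg _
      · rw [hvs, Fin.cons_succ]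
        exact hyst1 k
    have e1 : eval 0 (pderiv j.succ (h i.succ)) - (eval vs (pderiv j.succ (h i.succ)) -
        yst i * eval vs (pderiv j.succ (h 0))) =
        (eval 0 (pderiv j.succ (h i.succ)) - eval vs (pderiv j.succ (h i.succ))) +
        yst i * eval vs (pderiv j.succ (h 0)) := by ring
    rw [e1]
    exact (nadd (lip _ _ _ (norm_nonneg _) hne) (nmul_left _ (hyst1 i))).trans_lt norm_p_lt
  -- the new error
  have hrel : ∀ i, den h u t y n * z' i = p * (eval (vs + e) (G i) - eval vs (G i)) := by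
    intro i
    have h1 := H.sy n i
    have h2 := hfix i
    rw [hve, hG, hz', den]
    simp only [map_sub, map_mul, eval_C]
    linear_combination h1 - h2
  have hen : ∀ k, ‖e k‖ ≤ ‖z‖ := by
    intro k
    refine Fin.cases ?_ (fun k => ?_) k
    · rw [he, Fin.cons_zero]
      exact hn.le
    · rw [he, Fin.cons_succ]
      exact norm_le_pi_norm z k
  have hT : ∀ i, ‖eval (vs + e) (G i) - eval vs (G i) - (L.mulVec z) i‖ < ‖z‖ := by
    intro i
    have h1 := taylor (G i) vs e (norm_nonneg z) hen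
    rw [Fin.sum_univ_succ] at h1
    have h2 : eval (vs + e) (G i) - eval vs (G i) - (L.mulVec z) i =
        (eval (vs + e) (G i) - eval vs (G i) - (eval vs (pderiv 0 (G i)) * e 0 +
          ∑ j : Fin m, eval vs (pderiv j.succ (G i)) * e j.succ)) +
          eval vs (pderiv 0 (G i)) * t n := by
      rw [Matrix.mulVec, dotProduct, he, hL]
      simp only [Fin.cons_zero, Fin.cons_succ, Matrix.of_apply]
      ring
    rw [h2]
    refine (PadicInt.nonarchimedean _ _).trans_lt (max_lt (h1.trans_lt ?_) ?_)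
    · rw [pow_two]
      calc ‖z‖ * ‖z‖ < ‖z‖ * 1 := mul_lt_mul_of_pos_left hz1 hzpos
        _ = ‖z‖ := mul_one _
    · exact (nmul_right _ le_rfl).trans_lt hn
  have hlow : ‖(p : ℤ_[p])‖ * ‖z‖ ≤ ‖z'‖ := by
    by_contra hcon
    push Not at hcon
    rw [pi_norm_lt_iff (by positivity)] at hcon
    have h1 : ∀ i, ‖(L.mulVec z) i‖ < ‖z‖ := by
      intro i
      have h2 : ‖eval (vs + e) (G i) - eval vs (G i)‖ < ‖z‖ := by
        have h3 := hcon i
        rw [norm_of_unit_mul (H.den_norm n), hrel i, norm_mul] at h3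
        exact lt_of_mul_lt_mul_left h3 (norm_nonneg _)
      have e1 : (L.mulVec z) i = (eval (vs + e) (G i) - eval vs (G i)) +
          -(eval (vs + e) (G i) - eval vs (G i) - (L.mulVec z) i) := by ring
      rw [e1]
      refine (PadicInt.nonarchimedean _ _).trans_lt (max_lt h2 ?_)
      rw [norm_neg]
      exact hT i
    have h2 : ‖L.mulVec z‖ < ‖z‖ := (pi_norm_lt_iff hzpos).2 h1
    have h3 : ‖z‖ ≤ ‖L.mulVec z‖ := by
      rw [pi_norm_le_iff_of_nonneg (norm_nonneg _)]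
      intro j
      exact mulVec_unit hLdet z (norm_nonneg _) (fun i => norm_le_pi_norm _ i) j
    exact absurd h2 (not_lt.2 h3)
  refine ⟨hlow, ?_⟩
  refine lt_of_lt_of_le ?_ hlow
  rw [H.t_norm]
  refine mul_lt_mul_of_pos_left ?_ hp0
  refine lt_of_le_of_lt ?_ hn
  calc ‖t n‖ ^ d ≤ ‖t n‖ ^ 1 :=
        pow_le_pow_of_le_one (norm_nonneg _) (PadicInt.norm_le_one _) hd
    _ = ‖t n‖ := pow_one _

/-- **The local alternative.** -/
theorem Orb.main (hd : 2 ≤ d) (H : Orb p m d h u t y) :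
    ∃ yst : Fin m → ℤ_[p], (∀ i, Tendsto (fun n => y n i) atTop (𝓝 (yst i))) ∧
      ((∀ F : MvPolynomial (Fin (m + 1)) ℤ_[p],
        (∀ n, eval (Fin.cons (t n) (y n)) F = 0) ∨
          ∀ᶠ n in atTop, eval (Fin.cons (t n) (y n)) F ≠ 0) ∨
        ∃ c : ℝ, 0 < c ∧ ∃ n₀, ∀ n, n₀ ≤ n → ∃ i, c * ‖(p : ℤ_[p])‖ ^ n ≤ ‖y n i - yst i‖) := by
  obtain ⟨yst, hlim, hfix⟩ := H.limit (by omega)
  refine ⟨yst, hlim, ?_⟩
  by_cases hc : ∀ n i, ‖y n i - yst i‖ ≤ ‖t n‖
  · left
    exact fun F => H.exact hd yst hc F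
  right
  push Not at hc
  obtain ⟨n₀, i₀, hn₀⟩ := hc
  have hp0 : 0 < ‖(p : ℤ_[p])‖ := norm_pos_iff.2 (by exact_mod_cast hp.out.ne_zero)
  have hstart : ‖t n₀‖ < ‖fun i => y n₀ i - yst i‖ :=
    hn₀.trans_le (norm_le_pi_norm (fun i => y n₀ i - yst i) i₀)
  set N : ℕ → ℝ := fun n => ‖fun i => y n i - yst i‖ with hN
  have hN0 : 0 < N n₀ := (norm_nonneg _).trans_lt hstart
  have hind : ∀ k, ‖t (n₀ + k)‖ < N (n₀ + k) ∧ ‖(p : ℤ_[p])‖ ^ k * N n₀ ≤ N (n₀ + k) := by
    intro k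
    induction k with
    | zero => exact ⟨hstart, by simp⟩
    | succ k ih =>
      obtain ⟨h1, h2⟩ := H.far_step (by omega) hfix (n₀ + k) ih.1
      refine ⟨h2, ?_⟩
      calc ‖(p : ℤ_[p])‖ ^ (k + 1) * N n₀ = ‖(p : ℤ_[p])‖ * (‖(p : ℤ_[p])‖ ^ k * N n₀) := by
            rw [pow_succ']
            ring
        _ ≤ ‖(p : ℤ_[p])‖ * N (n₀ + k) := mul_le_mul_of_nonneg_left ih.2 hp0.le
        _ ≤ N (n₀ + (k + 1)) := h1
  refine ⟨N n₀ / ‖(p : ℤ_[p])‖ ^ n₀, by positivity, n₀, fun n hn => ?_⟩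
  obtain ⟨k, rfl⟩ := Nat.exists_eq_add_of_le hn
  have h1 : N n₀ / ‖(p : ℤ_[p])‖ ^ n₀ * ‖(p : ℤ_[p])‖ ^ (n₀ + k) ≤ N (n₀ + k) := by
    refine le_trans (le_of_eq ?_) (hind k).2
    rw [pow_add]
    field_simp
  by_contra hcon
  push Not at hcon
  have hpos : 0 < N n₀ / ‖(p : ℤ_[p])‖ ^ n₀ * ‖(p : ℤ_[p])‖ ^ (n₀ + k) := by positivity
  have h2 := (pi_norm_lt_iff (x := fun i => y (n₀ + k) i - yst i) hpos).2 hcon
  exact absurd h1 (not_le.2 h2)

end Pool.Agent.Helper26.MQ
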