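import Mathlib

/-!
# Random maps rarely trap an orbit in a hypersurface: abstract count
-/

set_option autoImplicit false

namespace Pool.Agent.Helper26.MQ

open Finset

/-- Sequences `s 0, …, s r` in `S` whose first `r` members are independent and whose last member
is in their span. -/
theorem card_seq_le {F X W : Type*} [Field F] [AddCommGroup W] [Module F W]
    [DecidableEq X] (ι : X → W) (S : Finset X) (r b : ℕ)
    (hb : ∀ x : Fin r → X, (∀ k, x k ∈ S) → LinearIndependent F (fun k => ι (x k)) →
      {z | z ∈ S ∧ ι z ∈ Submodule.span F (Set.range fun k => ι (x k))}.ncard ≤ b) :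
    {s : Fin (r + 1) → X | (∀ k, s k ∈ S) ∧
      LinearIndependent F (fun k : Fin r => ι (s k.castSucc)) ∧
      ι (s (Fin.last r)) ∈ Submodule.span F (Set.range fun k : Fin r => ι (s k.castSucc))}.ncard
      ≤ S.card ^ r * b := by
  classical
  set A : Finset (Fin r → X) := (Fintype.piFinset fun _ : Fin r => S).filter
    fun x => LinearIndependent F (fun k => ι (x k)) with hA
  set Bx : (Fin r → X) → Finset X := fun x => S.filter
    fun z => ι z ∈ Submodule.span F (Set.range fun k => ι (x k)) with hBx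
  have hsub : {s : Fin (r + 1) → X | (∀ k, s k ∈ S) ∧
      LinearIndependent F (fun k : Fin r => ι (s k.castSucc)) ∧
      ι (s (Fin.last r)) ∈ Submodule.span F (Set.range fun k : Fin r => ι (s k.castSucc))} ⊆
      ((A.biUnion fun x => (Bx x).image fun z => (Fin.snoc x z : Fin (r + 1) → X) :
        Finset (Fin (r + 1) → X)) : Set (Fin (r + 1) → X)) := by
    rintro s ⟨h1, h2, h3⟩
    simp only [Finset.coe_biUnion, Set.mem_iUnion, Finset.mem_coe, Finset.mem_image]
    refine ⟨fun k => s k.castSucc, ?_, s (Fin.last r), ?_, ?_⟩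
    · rw [hA, Finset.mem_filter, Fintype.mem_piFinset]
      exact ⟨fun k => h1 _, h2⟩
    · rw [hBx, Finset.mem_filter]
      exact ⟨h1 _, h3⟩
    · exact Fin.snoc_init_self s
  calc _ ≤ ((A.biUnion fun x => (Bx x).image fun z => (Fin.snoc x z : Fin (r + 1) → X) :
        Finset (Fin (r + 1) → X)) : Set (Fin (r + 1) → X)).ncard :=
        Set.ncard_le_ncard hsub (Finset.finite_toSet _)
    _ = (A.biUnion fun x => (Bx x).image fun z => (Fin.snoc x z : Fin (r + 1) → X)).card :=
        Set.ncard_coe_finset _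
    _ ≤ A.card * b := by
        refine Finset.card_biUnion_le_card_mul _ _ _ fun x hx => ?_
        rw [hA, Finset.mem_filter, Fintype.mem_piFinset] at hx
        refine Finset.card_image_le.trans ?_
        have h := hb x hx.1 hx.2
        have e : {z | z ∈ S ∧ ι z ∈ Submodule.span F (Set.range fun k => ι (x k))} =
            ((Bx x : Finset X) : Set X) := by
          ext z
          simp [hBx]
        rw [e, Set.ncard_coe_finset] at h
        exact h
    _ ≤ S.card ^ r * b := by
        refine Nat.mul_le_mul_right _ ?_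
        refine (Finset.card_filter_le _ _).trans ?_
        rw [Fintype.card_piFinset]
        simp

/-- The number of pairs (parameter, starting point) whose orbit stays in `S` for ever. -/
theorem trap_count {F X W C : Type*} [Field F] [AddCommGroup W] [Module F W]
    [FiniteDimensional F W] [Fintype X] [DecidableEq X] [Nonempty X] [Fintype C]
    (g : C → X → X) (ι : X → W) (S : Finset X)
    (hind : ∀ (r : ℕ) (x : Fin r → X), LinearIndependent F (fun k => ι (x k)) →
      ∀ y : Fin r → X,
        {c : C | ∀ k, g c (x k) = y k}.ncard * Fintype.card X ^ r ≤ Fintype.card C)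
    (b : ℕ → ℕ)
    (hb : ∀ (r : ℕ) (x : Fin r → X), (∀ k, x k ∈ S) → LinearIndependent F (fun k => ι (x k)) →
      {z | z ∈ S ∧ ι z ∈ Submodule.span F (Set.range fun k => ι (x k))}.ncard ≤ b r) :
    ({cx : C × X | cx.2 ∈ S ∧ ι cx.2 ≠ 0 ∧ ∀ k, (g cx.1)^[k] cx.2 ∈ S}.ncard : ℝ) ≤
      (Fintype.card C : ℝ) * ∑ r ∈ Finset.Icc 1 (Module.finrank F W),
        (S.card : ℝ) ^ r * b r / (Fintype.card X : ℝ) ^ r := by
  classical
  set R := Module.finrank F W with hR
  set Sq : (r : ℕ) → Set (Fin (r + 1) → X) := fun r => {s : Fin (r + 1) → X | (∀ k, s k ∈ S) ∧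
      LinearIndependent F (fun k : Fin r => ι (s k.castSucc)) ∧
      ι (s (Fin.last r)) ∈ Submodule.span F (Set.range fun k : Fin r => ι (s k.castSucc))} with hSq
  have hfin : ∀ r, (Sq r).Finite := fun r => Set.toFinite _
  set Q : (r : ℕ) → Finset (Fin (r + 1) → X) := fun r => (hfin r).toFinset with hQ
  set Cs : (r : ℕ) → (Fin (r + 1) → X) → Finset C := fun r s =>
    univ.filter fun c => ∀ k : Fin r, g c (s k.castSucc) = s k.succ with hCs
  have hX : (0 : ℝ) < (Fintype.card X : ℝ) := by
    exact_mod_cast Fintype.card_pos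
  have hsub : {cx : C × X | cx.2 ∈ S ∧ ι cx.2 ≠ 0 ∧ ∀ k, (g cx.1)^[k] cx.2 ∈ S} ⊆
      (((Finset.Icc 1 R).biUnion fun r => (Q r).biUnion fun s =>
        (Cs r s).image fun c => (c, s 0) : Finset (C × X)) : Set (C × X)) := by
    rintro ⟨c, x⟩ ⟨hxS, hx0, hxk⟩
    simp only at hxS hx0 hxk
    set s : ℕ → X := fun k => (g c)^[k] x with hs
    -- dependence after `R + 1` steps
    have hdep : ∃ r, ¬ LinearIndependent F (fun k : Fin (r + 1) => ι (s k)) := by
      refine ⟨R, fun h => ?_⟩
      have h1 := h.fintype_card_le_finrank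
      simp [← hR] at h1
    set r := Nat.find hdep with hr
    have hr1 := Nat.find_spec hdep
    rw [← hr] at hr1
    have hr0 : r ≠ 0 := by
      intro h0
      rw [h0] at hr1
      apply hr1
      rw [linearIndependent_finSucc']
      refine ⟨linearIndependent_empty_type, ?_⟩
      intro hmem
      have he : (Set.range fun k : Fin 0 => ι (s k)) = ∅ := Set.range_eq_empty _
      have hmem' : ι (s 0) ∈ Submodule.span F (Set.range fun k : Fin 0 => ι (s k)) := hmem
      rw [he, Submodule.span_empty, Submodule.mem_bot] at hmem'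
      exact hx0 (by simpa [hs] using hmem')
    have hrlt : LinearIndependent F (fun k : Fin r => ι (s k)) := by
      have h2 := Nat.find_min hdep (m := r - 1) (by omega)
      rw [not_not] at h2
      have e : r - 1 + 1 = r := by omega
      rw [← e]
      exact h2
    have hrR : r ≤ R := by
      have h1 := hrlt.fintype_card_le_finrank
      simpa using h1
    have hlast : ι (s r) ∈ Submodule.span F (Set.range fun k : Fin r => ι (s k)) := by
      by_contra hcon
      apply hr1
      rw [linearIndependent_finSucc']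
      refine ⟨?_, ?_⟩
      · exact hrlt
      · exact hcon
    simp only [Finset.coe_biUnion, Set.mem_iUnion, Finset.mem_coe, Finset.mem_image,
      Finset.mem_Icc, Prod.mk.injEq]
    refine ⟨r, ⟨by omega, hrR⟩, fun k => s k, ?_, c, ?_, rfl, rfl⟩
    · rw [hQ]
      simp only [Set.Finite.mem_toFinset]
      exact ⟨fun k => hxk _, hrlt, hlast⟩
    · rw [hCs]
      simp only [Finset.mem_filter, Finset.mem_univ, true_and]
      intro k
      simp only [hs, Fin.val_castSucc, Fin.val_succ]
      rw [Function.iterate_succ_apply']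
  have h1 : ({cx : C × X | cx.2 ∈ S ∧ ι cx.2 ≠ 0 ∧ ∀ k, (g cx.1)^[k] cx.2 ∈ S}.ncard : ℝ) ≤
      ∑ r ∈ Finset.Icc 1 R, ∑ s ∈ Q r, ((Cs r s).card : ℝ) := by
    have h2 := Set.ncard_le_ncard hsub (Finset.finite_toSet _)
    rw [Set.ncard_coe_finset] at h2
    have h3 : ((Finset.Icc 1 R).biUnion fun r => (Q r).biUnion fun s =>
        (Cs r s).image fun c => (c, s 0)).card ≤
        ∑ r ∈ Finset.Icc 1 R, ∑ s ∈ Q r, (Cs r s).card := by
      refine Finset.card_biUnion_le.trans (Finset.sum_le_sum fun r _ => ?_)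
      refine Finset.card_biUnion_le.trans (Finset.sum_le_sum fun s _ => ?_)
      exact Finset.card_image_le
    exact_mod_cast h2.trans h3
  refine h1.trans ?_
  rw [Finset.mul_sum]
  refine Finset.sum_le_sum fun r _ => ?_
  have h4 : ∀ s ∈ Q r, ((Cs r s).card : ℝ) ≤ (Fintype.card C : ℝ) / (Fintype.card X : ℝ) ^ r := by
    intro s hs
    rw [hQ] at hs
    simp only [Set.Finite.mem_toFinset] at hs
    have h5 := hind r (fun k => s k.castSucc) hs.2.1 (fun k => s k.succ)
    have e : {c : C | ∀ k : Fin r, g c (s k.castSucc) = s k.succ} = ((Cs r s : Finset C) : Set C) := by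
      ext c
      simp [hCs]
    rw [e, Set.ncard_coe_finset] at h5
    rw [le_div_iff₀ (by positivity)]
    exact_mod_cast h5
  have h6 : ((Q r).card : ℝ) ≤ (S.card : ℝ) ^ r * b r := by
    have h7 := card_seq_le (F := F) ι S r (b r) (hb r)
    have e : (Sq r).ncard = (Q r).card := Set.ncard_eq_toFinset_card _ (hfin r)
    have h8 : (Q r).card ≤ S.card ^ r * b r := by
      rw [← e]
      exact h7
    exact_mod_cast h8
  calc ∑ s ∈ Q r, ((Cs r s).card : ℝ)
      ≤ ∑ _s ∈ Q r, (Fintype.card C : ℝ) / (Fintype.card X : ℝ) ^ r := Finset.sum_le_sum h4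
    _ = (Q r).card * ((Fintype.card C : ℝ) / (Fintype.card X : ℝ) ^ r) := by
        rw [Finset.sum_const, nsmul_eq_mul]
    _ ≤ ((S.card : ℝ) ^ r * b r) * ((Fintype.card C : ℝ) / (Fintype.card X : ℝ) ^ r) :=
        mul_le_mul_of_nonneg_right h6 (by positivity)
    _ = (Fintype.card C : ℝ) * ((S.card : ℝ) ^ r * b r / (Fintype.card X : ℝ) ^ r) := by ring

end Pool.Agent.Helper26.MQ
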