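import Pool.Agent.Helper26.MQ.Idx
import Pool.Agent.Helper86.MQ.Fixed

/-!
# The number of coefficient arrays for which the attracting point lies on a given hypersurface
-/

set_option autoImplicit false

namespace Pool.Agent.Helper26.MQ

open Finset MvPolynomial Pool.Agent.Helper86.MQ

theorem count_low {p : ℕ} [Fact p.Prime] {m d k : ℕ} (h : MvPolynomial (Fin m) (ZMod p))
    (h0 : h ≠ 0) (hk : h.totalDegree ≤ k) :
    (univ.filter fun c : Idx m d → ZMod p => eval (fun i => c (xd m d i)) h = 0).card * p ≤
      k * p ^ Fintype.card (Idx m d) := by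
  classical
  have hcard : Fintype.card (ZMod p) = p := ZMod.card p
  have hp0 : 0 < p := (Fact.out : p.Prime).pos
  -- Schwartz-Zippel
  set N0 := (univ.filter fun f : Fin m → ZMod p => eval f h = 0).card with hN0
  have h1 : N0 * p ≤ k * p ^ m := by
    have h2 := schwartz_zippel_totalDegree h0 (univ : Finset (ZMod p))
    have e : (Fintype.piFinset fun _ : Fin m => (univ : Finset (ZMod p))) = univ := by
      simp
    rw [e, Finset.card_univ, hcard, div_le_div_iff₀ (by positivity) (by positivity)] at h2
    have h3 : N0 * p ≤ h.totalDegree * p ^ m := by exact_mod_cast h2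
    exact h3.trans (Nat.mul_le_mul_right _ hk)
  -- the projection
  let f : (Idx m d → ZMod p) →+ (Fin m → ZMod p) :=
    { toFun := fun c i => c (xd m d i)
      map_zero' := rfl
      map_add' := fun _ _ => rfl }
  have hf : Function.Surjective f := by
    intro y
    refine ⟨fun k => (Fin.cons 0 y : Fin (m + 1) → ZMod p) k.1, ?_⟩
    funext i
    change (Fin.cons 0 y : Fin (m + 1) → ZMod p) i.succ = y i
    simp
  have hfib : ∀ z, (univ.filter fun c => f c = z).card = (univ.filter fun c => f c = 0).card :=
    fun z => AddMonoidHom.card_fiber_eq_of_mem_range f (hf z) (hf 0)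
  set Q := (univ.filter fun c => f c = 0).card with hQ
  have hA : p ^ Fintype.card (Idx m d) = p ^ m * Q := by
    have h2 : Fintype.card (Idx m d → ZMod p) =
        ∑ z : Fin m → ZMod p, (univ.filter fun c => f c = z).card := by
      rw [← Finset.card_univ]
      exact Finset.card_eq_sum_card_fiberwise (fun c _ => Finset.mem_coe.2 (Finset.mem_univ _))
    rw [Fintype.card_fun, hcard, Finset.sum_congr rfl fun z _ => hfib z, Finset.sum_const,
      smul_eq_mul, Finset.card_univ, Fintype.card_fun, hcard, Fintype.card_fin] at h2
    exact h2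
  have hX : (univ.filter fun c : Idx m d → ZMod p => eval (fun i => c (xd m d i)) h = 0).card =
      N0 * Q := by
    rw [Finset.card_eq_sum_card_fiberwise (f := f)
      (t := univ.filter fun z : Fin m → ZMod p => eval z h = 0)
      (fun c hc => by
        have h2 := (Finset.mem_filter.1 (Finset.mem_coe.1 hc)).2
        exact Finset.mem_coe.2 (Finset.mem_filter.2 ⟨Finset.mem_univ _, h2⟩))]
    rw [hN0, ← smul_eq_mul, ← Finset.sum_const]
    refine Finset.sum_congr rfl fun z hz => ?_
    rw [← hfib z]
    congr 1
    ext c
    simp only [Finset.mem_filter, Finset.mem_univ, true_and]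
    constructor
    · exact fun h2 => h2.2
    · intro h2
      refine ⟨?_, h2⟩
      have h3 := (Finset.mem_filter.1 hz).2
      rw [← h2] at h3
      exact h3
  rw [hX, hA]
  calc N0 * Q * p = (N0 * p) * Q := by ring
    _ ≤ (k * p ^ m) * Q := Nat.mul_le_mul_right _ h1
    _ = k * (p ^ m * Q) := by ring

end Pool.Agent.Helper26.MQ
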