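import Pool.Agent.Helper52.MQ.GenPos

/-!
# The generic condition modulo a prime of the second type

There is a nonzero polynomial `R` in the coefficients such that, over every field, `R ≠ 0` implies:
no fixed point of the forms of degree `d` lies on the hyperplane `x_{i₁} = 0`.
-/

set_option autoImplicit false

namespace Pool.Agent.Helper26.MQ

open MvPolynomial
open Pool.Agent.Helper86.MQ (Idx tf Fix GenB)
open Pool.Agent.Helper52.MQ (tg map_tg tg_eq exists_field indep_of_card clF subset_clF card_snd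
  tf_smul52 mo)

variable {m d : ℕ}

/-- the equations of a fixed point with `x_k = 1` and `x_{i₁} = 0` -/
noncomputable def eqB {B : Type*} [CommRing B] (k i₁ : Fin (m + 1)) (c : Idx m d → B)
    (x : Fin (m + 1) → B) : Fin (m + 1) ⊕ Bool → B
  | .inl j => tg c x j - tg c x k * x j
  | .inr true => x k - 1
  | .inr false => x i₁

theorem map_eqB {B B' : Type*} [CommRing B] [CommRing B'] (φ : B →+* B') (k i₁ : Fin (m + 1))
    (c : Idx m d → B) (x : Fin (m + 1) → B) (o : Fin (m + 1) ⊕ Bool) :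
    φ (eqB k i₁ c x o) = eqB k i₁ (fun q => φ (c q)) (fun j => φ (x j)) o := by
  rcases o with j | (_ | _)
  · simp only [eqB]
    rw [map_sub, map_mul, map_tg, map_tg]
  · simp [eqB]
  · simp [eqB]

/-- the exponent of `x_k ^ d` -/
noncomputable def kd (m d : ℕ) (k : Fin (m + 1)) : {s : Fin (m + 1) →₀ ℕ // s.degree ≤ d} :=
  ⟨Finsupp.single k d, by simp⟩

theorem eqB_false {A : Type*} [Field A] [CharZero A] {k i₁ : Fin (m + 1)} (hki : i₁ ≠ k)
    {c : Idx m d → A} (hc : AlgebraicIndependent ℤ c) {x : Fin (m + 1) → A} (hk : x k = 1)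
    (hi : x i₁ = 0) (hfix : ∀ j, tf c x j = tf c x k * x j) : False := by
  classical
  let t : Fin 1 → {s : Fin (m + 1) →₀ ℕ // s.degree ≤ d} := fun _ => kd m d k
  have htinj : Function.Injective t := fun a b _ => Subsingleton.elim a b
  let g : {j : Fin (m + 1) // j ≠ k} ⊕ (Unit ⊕ {q : Idx m d // ∀ b, q.2 ≠ t b}) → A :=
    Sum.elim (fun j => x j.1) (Sum.elim (fun _ => tf c x k) (fun q => c q.1))
  set F := clF (Set.range g) with hF
  have hx : ∀ j, x j ∈ F := by
    intro j
    by_cases hj : j = k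
    · rw [hj, hk]
      exact one_mem F
    · exact subset_clF ⟨Sum.inl ⟨j, hj⟩, rfl⟩
  have hμ : tf c x k ∈ F := subset_clF ⟨Sum.inr (Sum.inl ()), rfl⟩
  have hcq : ∀ q : Idx m d, q.2 ≠ kd m d k → c q ∈ F := fun q hq =>
    subset_clF ⟨Sum.inr (Sum.inr ⟨q, fun _ => hq⟩), rfl⟩
  have hall : ∀ q, c q ∈ F := by
    rintro ⟨j, e⟩
    by_cases hq : e = kd m d k
    · subst hq
      have h1 : tf c x j = c (j, kd m d k) + ∑ e ∈ Finset.univ.erase (kd m d k),
          (if e.1.degree = d then c (j, e) * ∏ l, x l ^ (e.1 l) else 0) := by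
        unfold tf
        rw [← Finset.add_sum_erase Finset.univ _ (Finset.mem_univ (kd m d k))]
        congr 1
        have h2 : (kd m d k).1.degree = d := by simp [kd]
        rw [if_pos h2]
        have h3 : ∏ l, x l ^ ((kd m d k).1 l) = 1 := by
          refine Finset.prod_eq_one fun l _ => ?_
          by_cases hl : l = k
          · rw [hl, hk, one_pow]
          · have h4 : (kd m d k).1 l = 0 := by
              simp only [kd]
              exact Finsupp.single_eq_of_ne hl
            rw [h4, pow_zero]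
        rw [h3, mul_one]
      have h5 : c (j, kd m d k) = tf c x k * x j - ∑ e ∈ Finset.univ.erase (kd m d k),
          (if e.1.degree = d then c (j, e) * ∏ l, x l ^ (e.1 l) else 0) := by
        rw [← hfix, h1, add_sub_cancel_right]
      rw [h5]
      refine sub_mem (mul_mem hμ (hx j)) (sum_mem fun e he => ?_)
      split_ifs
      · exact mul_mem (hcq _ (Finset.ne_of_mem_erase he)) (prod_mem fun l _ => pow_mem (hx l) _)
      · exact zero_mem F
    · exact hcq _ hq
  have hcard : Fintype.card ({j : Fin (m + 1) // j ≠ k} ⊕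
      (Unit ⊕ {q : Idx m d // ∀ b, q.2 ≠ t b})) ≤ Fintype.card (Idx m d) := by
    rw [Fintype.card_sum, Fintype.card_sum, Fintype.card_unit]
    have h1 := card_snd htinj
    have h2 : Fintype.card {j : Fin (m + 1) // j ≠ k} = m := by
      have h3 := Fintype.card_subtype_compl (fun j : Fin (m + 1) => j = k)
      rw [Fintype.card_fin, Fintype.card_subtype_eq] at h3
      rw [h3]
      omega
    omega
  have hg := indep_of_card hc hcard hall
  have hgx : AlgebraicIndependent ℤ (fun j : {j : Fin (m + 1) // j ≠ k} => x j.1) :=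
    hg.comp Sum.inl Sum.inl_injective
  have h0 := hgx.ne_zero ⟨i₁, hki⟩
  exact h0 hi

theorem exists_Rk {k i₁ : Fin (m + 1)} (hki : i₁ ≠ k) :
    ∃ R : MvPolynomial (Idx m d) ℤ, R ≠ 0 ∧ ∀ (K : Type) [Field K] (c : Idx m d → K)
      (x : Fin (m + 1) → K), (∀ o, eqB k i₁ c x o = 0) → aeval c R = 0 := by
  classical
  let B := MvPolynomial (Idx m d ⊕ Fin (m + 1)) ℤ
  let cB : Idx m d → B := fun q => X (.inl q)
  let xB : Fin (m + 1) → B := fun j => X (.inr j)
  let I : Ideal B := Ideal.span (Set.range (eqB k i₁ cB xB))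
  have hR : ∃ R : MvPolynomial (Idx m d) ℤ, R ≠ 0 ∧ aeval cB R ∈ I := by
    by_contra hcon
    obtain ⟨A, hA, hA0, φ, hφ, hind⟩ := exists_field I cB fun R hR hRI => hcon ⟨R, hR, hRI⟩
    have heq : ∀ o, eqB k i₁ (fun q => φ (cB q)) (fun j => φ (xB j)) o = 0 := by
      intro o
      rw [← map_eqB]
      exact hφ _ (Ideal.subset_span ⟨o, rfl⟩)
    exact eqB_false hki hind (x := fun j => φ (xB j)) (sub_eq_zero.1 (heq (.inr true)))
      (heq (.inr false)) (fun j => sub_eq_zero.1 (heq (.inl j)))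
  obtain ⟨R, hR0, hRI⟩ := hR
  refine ⟨R, hR0, fun K _ c x heq => ?_⟩
  let φ : B →+* K := eval₂Hom (Int.castRingHom K) (Sum.elim c x)
  have hc : ∀ q, φ (cB q) = c q := fun q => eval₂Hom_X' (Int.castRingHom K) _ (Sum.inl q)
  have hx : ∀ j, φ (xB j) = x j := fun j => eval₂Hom_X' (Int.castRingHom K) _ (Sum.inr j)
  have hI : I ≤ RingHom.ker φ := by
    refine Ideal.span_le.2 ?_
    rintro _ ⟨o, rfl⟩
    rw [SetLike.mem_coe, RingHom.mem_ker, map_eqB]
    simp only [hc, hx]
    exact heq o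
  have h1 : φ (aeval cB R) = 0 := hI hRI
  rw [← h1, MvPolynomial.aeval_def, MvPolynomial.aeval_def, MvPolynomial.eval₂_comp_left]
  congr 1
  · exact RingHom.ext_int _ _
  · funext q
    exact (hc q).symm

/-- The generic condition modulo a prime of the second type. -/
theorem exists_genB (m d : ℕ) (_hd : 1 ≤ d) (i₁ : Fin (m + 1)) (_hi : i₁ ≠ 0) :
    ∃ R : MvPolynomial (Idx m d) ℤ, R ≠ 0 ∧ ∀ (K : Type) [Field K] (c : Idx m d → K),
      aeval c R ≠ 0 → GenB i₁ c := by
  classical
  have hex : ∀ k : Fin (m + 1), ∃ R : MvPolynomial (Idx m d) ℤ, R ≠ 0 ∧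
      (i₁ ≠ k → ∀ (K : Type) [Field K] (c : Idx m d → K)
        (x : Fin (m + 1) → K), (∀ o, eqB k i₁ c x o = 0) → aeval c R = 0) := by
    intro k
    by_cases hki : i₁ = k
    · exact ⟨1, one_ne_zero, fun h => absurd hki h⟩
    · obtain ⟨R, hR0, hR⟩ := exists_Rk (m := m) (d := d) hki
      exact ⟨R, hR0, fun _ => hR⟩
  choose R hR0 hR using hex
  refine ⟨X (i₁, ⟨Finsupp.single 0 d, by simp⟩) * ∏ k, R k,
    mul_ne_zero (X_ne_zero _) (Finset.prod_ne_zero_iff.2 fun k _ => hR0 k), ?_⟩
  intro K _ c hc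
  rw [map_mul, aeval_X, map_prod] at hc
  refine ⟨left_ne_zero_of_mul hc, fun x hx hxi => ?_⟩
  have hprod := right_ne_zero_of_mul hc
  obtain ⟨k, hk⟩ : ∃ k, x k ≠ 0 := by
    by_contra hcon
    push Not at hcon
    exact hx.1 (funext hcon)
  have hki : i₁ ≠ k := by
    rintro rfl
    exact hk hxi
  obtain ⟨μ, hμ⟩ := hx.2
  let y : Fin (m + 1) → K := fun j => (x k)⁻¹ * x j
  have hyk : y k = 1 := inv_mul_cancel₀ hk
  have hyfix : ∀ j, tf c y j = tf c y k * y j := by
    intro j
    simp only [y]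
    rw [tf_smul52, tf_smul52, hμ, hμ]
    field_simp
  refine (Finset.prod_ne_zero_iff.1 hprod k (Finset.mem_univ k)) (hR k hki K c y ?_)
  rintro (j | (_ | _))
  · simp only [eqB]
    rw [tg_eq, tg_eq, hyfix j, sub_self]
  · simp only [eqB, y]
    rw [hxi, mul_zero]
  · simp only [eqB]
    rw [hyk, sub_self]

end Pool.Agent.Helper26.MQ
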