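import Pool.Agent.Helper26.MQ.Lift

/-!
# Every point escapes
-/

set_option autoImplicit false

namespace Pool.Agent.Helper26.MQ

open Finset MvPolynomial Pool.Agent.Helper86.MQ

variable {m d : ℕ} {p : ℕ} [hp : Fact p.Prime]

/-- reduction of a point -/
noncomputable def red (y : Fin (m + 1) → ℤ_[p]) : Fin (m + 1) → ZMod p :=
  fun j => PadicInt.toZMod (y j)

/-- inclusion of a point -/
noncomputable def inc (y : Fin (m + 1) → ℤ_[p]) : Fin (m + 1) → ℚ_[p] :=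
  fun j => ((y j : ℤ_[p]) : ℚ_[p])

theorem coe_prod_pow (y : Fin (m + 1) → ℤ_[p]) (e : Fin (m + 1) →₀ ℕ) :
    ((∏ j, y j ^ e j : ℤ_[p]) : ℚ_[p]) = ∏ j, ((y j : ℤ_[p]) : ℚ_[p]) ^ e j := by
  have h := map_prod (PadicInt.Coe.ringHom (p := p)) (fun j => y j ^ e j) Finset.univ
  have h2 : ∀ j, PadicInt.Coe.ringHom (p := p) (y j ^ e j) = ((y j : ℤ_[p]) : ℚ_[p]) ^ e j :=
    fun j => map_pow _ _ _
  simp only [h2] at h
  exact h

/-- One step at an integral point whose reduction is in the hyperplane. -/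
theorem stepA (hd : 2 ≤ d) {Φ : Fin (m + 1) → MvPolynomial (Fin (m + 1)) ℚ_[p]}
    {c : Idx m d → ZMod p} {a : Idx m d → ℤ_[p]} {s : ℚ_[p]}
    (ha : ∀ k, PadicInt.toZMod (a k) = c k) (hs : ‖s‖ = (p : ℝ))
    (hΦ : ∀ x i, pm Φ x i = (∑ e : {s : Fin (m + 1) →₀ ℕ // s.degree ≤ d},
        ((a (i, e) : ℤ_[p]) : ℚ_[p]) * ∏ j, x j ^ (e : Fin (m + 1) →₀ ℕ) j) +
          if i = 0 then s * x 0 ^ d else 0)
    (y : Fin (m + 1) → ℤ_[p]) (hy : red y 0 = 0) :
    ∃ y' : Fin (m + 1) → ℤ_[p], pm Φ (inc y) = inc y' ∧ red y' = pm (arrPoly c) (red y) := by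
  obtain ⟨z, hz1, hz2⟩ := special_small hd hs (y 0) ((toZMod_eq_zero_iff _).1 hy)
  refine ⟨fun i => (∑ e : {s : Fin (m + 1) →₀ ℕ // s.degree ≤ d},
    a (i, e) * ∏ j, y j ^ (e : Fin (m + 1) →₀ ℕ) j) + if i = 0 then z else 0, ?_, ?_⟩
  · funext i
    rw [hΦ]
    simp only [inc]
    rw [PadicInt.coe_add, PadicInt.coe_sum]
    congr 1
    · refine Finset.sum_congr rfl fun e _ => ?_
      rw [PadicInt.coe_mul]
      congr 1
      exact (coe_prod_pow y e).symm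
    · split_ifs
      · exact hz1.symm
      · simp
  · funext i
    simp only [red]
    rw [map_add, map_sum, pm, eval_arrPoly]
    have h1 : PadicInt.toZMod (if i = 0 then z else 0) = 0 := by
      split_ifs
      · exact hz2
      · exact map_zero _
    rw [h1, add_zero]
    refine Finset.sum_congr rfl fun e _ => ?_
    rw [map_mul, ha, map_prod]
    simp only [map_pow, red]

/-- One step at an integral point whose reduction is not in the hyperplane. -/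
theorem stepA' {Φ : Fin (m + 1) → MvPolynomial (Fin (m + 1)) ℚ_[p]}
    {a : Idx m d → ℤ_[p]} {s : ℚ_[p]} (hs : ‖s‖ = (p : ℝ))
    (hΦ : ∀ x i, pm Φ x i = (∑ e : {s : Fin (m + 1) →₀ ℕ // s.degree ≤ d},
        ((a (i, e) : ℤ_[p]) : ℚ_[p]) * ∏ j, x j ^ (e : Fin (m + 1) →₀ ℕ) j) +
          if i = 0 then s * x 0 ^ d else 0)
    (y : Fin (m + 1) → ℤ_[p]) (hy : red y 0 ≠ 0) :
    Esc (pm Φ (inc y)) := by
  have hp1 : (1 : ℝ) < p := by exact_mod_cast hp.out.one_lt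
  have h0 : ‖y 0‖ = 1 := norm_eq_one_of_toZMod _ hy
  have h1 : ∀ i, ‖∑ e : {s : Fin (m + 1) →₀ ℕ // s.degree ≤ d},
      ((a (i, e) : ℤ_[p]) : ℚ_[p]) * ∏ j, inc y j ^ (e : Fin (m + 1) →₀ ℕ) j‖ ≤ 1 := by
    intro i
    have h2 : (∑ e : {s : Fin (m + 1) →₀ ℕ // s.degree ≤ d},
      ((a (i, e) : ℤ_[p]) : ℚ_[p]) * ∏ j, inc y j ^ (e : Fin (m + 1) →₀ ℕ) j) =
      ((∑ e : {s : Fin (m + 1) →₀ ℕ // s.degree ≤ d},
        a (i, e) * ∏ j, y j ^ (e : Fin (m + 1) →₀ ℕ) j : ℤ_[p]) : ℚ_[p]) := by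
      rw [PadicInt.coe_sum]
      refine Finset.sum_congr rfl fun e _ => ?_
      rw [PadicInt.coe_mul]
      congr 1
      exact (coe_prod_pow y e).symm
    rw [h2]
    exact PadicInt.norm_le_one _
  have h2 : ‖pm Φ (inc y) 0‖ = (p : ℝ) := by
    rw [hΦ, if_pos rfl]
    have h3 : ‖s * inc y 0 ^ d‖ = (p : ℝ) := by
      rw [norm_mul, norm_pow, hs]
      have : ‖inc y 0‖ = 1 := h0
      rw [this, one_pow, mul_one]
    rw [IsUltrametricDist.norm_add_eq_max_of_norm_ne_norm, h3]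
    · exact max_eq_right ((h1 0).trans hp1.le)
    · rw [h3]
      exact fun h => absurd (h ▸ h1 0) (not_le.2 hp1)
  refine ⟨h2.ge, fun i => ?_⟩
  rw [h2]
  by_cases hi : i = 0
  · rw [hi, h2]
  · rw [hΦ, if_neg hi, add_zero]
    exact (h1 i).trans hp1.le

/-- Escape of integral points. -/
theorem escA (hd : 2 ≤ d) {Φ : Fin (m + 1) → MvPolynomial (Fin (m + 1)) ℚ_[p]}
    {c : Idx m d → ZMod p} {a : Idx m d → ℤ_[p]} {s : ℚ_[p]}
    (ha : ∀ k, PadicInt.toZMod (a k) = c k) (hs : ‖s‖ = (p : ℝ))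
    (hΦ : ∀ x i, pm Φ x i = (∑ e : {s : Fin (m + 1) →₀ ℕ // s.degree ≤ d},
        ((a (i, e) : ℤ_[p]) : ℚ_[p]) * ∏ j, x j ^ (e : Fin (m + 1) →₀ ℕ) j) +
          if i = 0 then s * x 0 ^ d else 0) (k : ℕ) : ∀
    (y : Fin (m + 1) → ℤ_[p]) (_ : (pm (arrPoly c))^[k] (red y) 0 ≠ 0),
    ∃ n, Esc ((pm Φ)^[n] (inc y)) := by
  induction k with
  | zero =>
    intro y hy
    exact ⟨1, stepA' hs hΦ y hy⟩
  | succ k ih =>
    intro y hy
    by_cases h0 : red y 0 = 0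
    · obtain ⟨y', h1, h2⟩ := stepA hd ha hs hΦ y h0
      rw [Function.iterate_succ_apply, ← h2] at hy
      obtain ⟨n, hn⟩ := ih y' hy
      refine ⟨n + 1, ?_⟩
      rw [Function.iterate_succ_apply, h1]
      exact hn
    · exact ⟨1, stepA' hs hΦ y h0⟩

/-- One step at a large point whose direction is in the hyperplane. -/
theorem stepB (hd : 2 ≤ d) {Φ : Fin (m + 1) → MvPolynomial (Fin (m + 1)) ℚ_[p]}
    {c : Idx m d → ZMod p} {a : Idx m d → ℤ_[p]} {s : ℚ_[p]}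
    (ha : ∀ k, PadicInt.toZMod (a k) = c k) (hs : ‖s‖ = (p : ℝ))
    (hΦ : ∀ x i, pm Φ x i = (∑ e : {s : Fin (m + 1) →₀ ℕ // s.degree ≤ d},
        ((a (i, e) : ℤ_[p]) : ℚ_[p]) * ∏ j, x j ^ (e : Fin (m + 1) →₀ ℕ) j) +
          if i = 0 then s * x 0 ^ d else 0)
    (y : Fin (m + 1) → ℤ_[p]) (hy : red y 0 = 0) (k : ℕ) (hk : 1 ≤ k) :
    ∃ y' : Fin (m + 1) → ℤ_[p],
      pm Φ (((p : ℚ_[p])⁻¹) ^ k • inc y) = ((p : ℚ_[p])⁻¹) ^ (k * d) • inc y' ∧
      red y' = pm (arrForm c) (red y) := by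
  obtain ⟨z, hz1, hz2⟩ := special_small hd hs (y 0) ((toZMod_eq_zero_iff _).1 hy)
  have hp0 : (p : ℚ_[p]) ≠ 0 := by exact_mod_cast hp.out.ne_zero
  refine ⟨fun i => (∑ e : {s : Fin (m + 1) →₀ ℕ // s.degree ≤ d},
    a (i, e) * ((p : ℤ_[p]) ^ (k * (d - (e : Fin (m + 1) →₀ ℕ).degree)) *
      ∏ j, y j ^ (e : Fin (m + 1) →₀ ℕ) j)) + if i = 0 then z else 0, ?_, ?_⟩
  · funext i
    rw [hΦ]
    simp only [inc, Pi.smul_apply, smul_eq_mul]
    rw [PadicInt.coe_add, PadicInt.coe_sum, mul_add, Finset.mul_sum]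
    congr 1
    · refine Finset.sum_congr rfl fun e _ => ?_
      rw [PadicInt.coe_mul, PadicInt.coe_mul, PadicInt.coe_pow, PadicInt.coe_natCast]
      rw [coe_prod_pow y e]
      have h3 : ∏ j, ((((p : ℚ_[p])⁻¹) ^ k * ((y j : ℤ_[p]) : ℚ_[p])) ^
          (e : Fin (m + 1) →₀ ℕ) j) = ((p : ℚ_[p])⁻¹) ^ (k * (e : Fin (m + 1) →₀ ℕ).degree) *
          ∏ j, ((y j : ℤ_[p]) : ℚ_[p]) ^ (e : Fin (m + 1) →₀ ℕ) j := by
        simp only [mul_pow]
        rw [Finset.prod_mul_distrib, Finset.prod_pow_eq_pow_sum, ← Finsupp.degree_eq_sum, pow_mul]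
      rw [h3]
      have h4 : k * d = k * (e : Fin (m + 1) →₀ ℕ).degree +
          k * (d - (e : Fin (m + 1) →₀ ℕ).degree) := by
        rw [← mul_add]
        congr 1
        have := e.2
        omega
      rw [h4, pow_add]
      have h5 : ((p : ℚ_[p])⁻¹) ^ (k * (d - (e : Fin (m + 1) →₀ ℕ).degree)) *
          (p : ℚ_[p]) ^ (k * (d - (e : Fin (m + 1) →₀ ℕ).degree)) = 1 := by
        rw [← mul_pow, inv_mul_cancel₀ hp0, one_pow]
      linear_combination (-(((a (i, e) : ℤ_[p]) : ℚ_[p]) *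
        ((p : ℚ_[p])⁻¹) ^ (k * (e : Fin (m + 1) →₀ ℕ).degree) *
        ∏ j, ((y j : ℤ_[p]) : ℚ_[p]) ^ (e : Fin (m + 1) →₀ ℕ) j)) * h5
    · split_ifs
      · rw [hz1]
        ring
      · simp
  · funext i
    simp only [red]
    rw [map_add, map_sum, pm, eval_arrForm]
    have h1 : PadicInt.toZMod (if i = 0 then z else 0) = 0 := by
      split_ifs
      · exact hz2
      · exact map_zero _
    rw [h1, add_zero]
    refine Finset.sum_congr rfl fun e _ => ?_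
    rw [map_mul, ha, map_mul, map_pow, map_natCast, map_prod, ZMod.natCast_self]
    split_ifs with h2
    · rw [h2, Nat.sub_self, mul_zero, pow_zero, one_mul]
      simp only [map_pow, red]
    · have h3 : k * (d - (e : Fin (m + 1) →₀ ℕ).degree) ≠ 0 := by
        have := e.2
        have h4 : d - (e : Fin (m + 1) →₀ ℕ).degree ≠ 0 := by omega
        exact Nat.mul_ne_zero (by omega) h4
      rw [zero_pow h3]
      ring

theorem esc_of_red {k : ℕ} (hk : 1 ≤ k) (y : Fin (m + 1) → ℤ_[p]) (hy : red y 0 ≠ 0) :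
    Esc (((p : ℚ_[p])⁻¹) ^ k • inc y) := by
  have hp1 : (1 : ℝ) < p := by exact_mod_cast hp.out.one_lt
  have h0 : ‖y 0‖ = 1 := norm_eq_one_of_toZMod _ hy
  have h1 : ∀ i, ‖(((p : ℚ_[p])⁻¹) ^ k • inc y) i‖ = (p : ℝ) ^ k * ‖y i‖ := by
    intro i
    rw [Pi.smul_apply, smul_eq_mul, norm_mul, norm_pow, norm_inv, Padic.norm_p, inv_inv]
    rfl
  refine ⟨?_, fun i => ?_⟩
  · rw [h1, h0, mul_one]
    calc (p : ℝ) = (p : ℝ) ^ 1 := (pow_one _).symm
      _ ≤ (p : ℝ) ^ k := pow_le_pow_right₀ hp1.le hk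
  · rw [h1, h1, h0]
    gcongr
    exact PadicInt.norm_le_one _

/-- Escape of large points. -/
theorem escB (hd : 2 ≤ d) {Φ : Fin (m + 1) → MvPolynomial (Fin (m + 1)) ℚ_[p]}
    {c : Idx m d → ZMod p} {a : Idx m d → ℤ_[p]} {s : ℚ_[p]}
    (ha : ∀ k, PadicInt.toZMod (a k) = c k) (hs : ‖s‖ = (p : ℝ))
    (hΦ : ∀ x i, pm Φ x i = (∑ e : {s : Fin (m + 1) →₀ ℕ // s.degree ≤ d},
        ((a (i, e) : ℤ_[p]) : ℚ_[p]) * ∏ j, x j ^ (e : Fin (m + 1) →₀ ℕ) j) +
          if i = 0 then s * x 0 ^ d else 0) (t : ℕ) : ∀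
    (y : Fin (m + 1) → ℤ_[p]) (k : ℕ) (_ : 1 ≤ k) (_ : (pm (arrForm c))^[t] (red y) 0 ≠ 0),
    ∃ n, Esc ((pm Φ)^[n] (((p : ℚ_[p])⁻¹) ^ k • inc y)) := by
  induction t with
  | zero =>
    intro y k hk hy
    exact ⟨0, esc_of_red hk y hy⟩
  | succ t ih =>
    intro y k hk hy
    by_cases h0 : red y 0 = 0
    · obtain ⟨y', h1, h2⟩ := stepB hd ha hs hΦ y h0 k hk
      rw [Function.iterate_succ_apply, ← h2] at hy
      obtain ⟨n, hn⟩ := ih y' (k * d) (Nat.mul_pos (by omega) (by omega)) hy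
      refine ⟨n + 1, ?_⟩
      rw [Function.iterate_succ_apply, h1]
      exact hn
    · exact ⟨0, esc_of_red hk y h0⟩

/-- The two cases. -/
theorem cases_point (x : Fin (m + 1) → ℚ_[p]) :
    (∃ y, x = inc y) ∨ ∃ (y : Fin (m + 1) → ℤ_[p]) (k : ℕ), 1 ≤ k ∧ red y ≠ 0 ∧
      x = ((p : ℚ_[p])⁻¹) ^ k • inc y := by
  have hp0 : (p : ℚ_[p]) ≠ 0 := by exact_mod_cast hp.out.ne_zero
  have hp1 : (1 : ℝ) < p := by exact_mod_cast hp.out.one_lt
  by_cases h : ∀ i, ‖x i‖ ≤ 1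
  · left
    exact ⟨fun i => ⟨x i, h i⟩, rfl⟩
  right
  push Not at h
  obtain ⟨i₀, hi₀⟩ := h
  obtain ⟨i, _, hi⟩ := Finset.exists_max_image univ (fun i => ‖x i‖) ⟨i₀, Finset.mem_univ _⟩
  have hi1 : 1 < ‖x i‖ := hi₀.trans_le (hi i₀ (Finset.mem_univ _))
  have hx0 : x i ≠ 0 := by
    intro h0
    rw [h0, norm_zero] at hi1
    linarith
  have hval := Padic.norm_eq_zpow_neg_valuation hx0
  have hneg : 0 < -(x i).valuation := by
    by_contra hcon
    push Not at hcon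
    have : (p : ℝ) ^ (-(x i).valuation) ≤ 1 := zpow_le_one_of_nonpos₀ hp1.le hcon
    rw [← hval] at this
    linarith
  obtain ⟨k, hk⟩ := Int.eq_ofNat_of_zero_le hneg.le
  rw [hk, zpow_natCast] at hval
  have hk1 : 1 ≤ k := by omega
  have hn : ∀ j, ‖(p : ℚ_[p]) ^ k * x j‖ ≤ 1 := by
    intro j
    rw [norm_mul, norm_pow, Padic.norm_p]
    calc ((p : ℝ)⁻¹) ^ k * ‖x j‖ ≤ ((p : ℝ)⁻¹) ^ k * (p : ℝ) ^ k := by
          gcongr
          rw [← hval]
          exact hi j (Finset.mem_univ _)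
      _ = 1 := by rw [← mul_pow, inv_mul_cancel₀ (by positivity), one_pow]
  refine ⟨fun j => ⟨(p : ℚ_[p]) ^ k * x j, hn j⟩, k, hk1, ?_, ?_⟩
  · intro h0
    have h1 : red (fun j => (⟨(p : ℚ_[p]) ^ k * x j, hn j⟩ : ℤ_[p])) i = 0 := by
      rw [h0]
      rfl
    have h2 := (toZMod_eq_zero_iff _).1 h1
    have h3 : ‖(p : ℚ_[p]) ^ k * x i‖ < 1 := h2
    rw [norm_mul, norm_pow, Padic.norm_p, hval, ← mul_pow, inv_mul_cancel₀ (by positivity),
      one_pow] at h3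
    exact lt_irrefl _ h3
  · funext j
    change x j = ((p : ℚ_[p])⁻¹) ^ k * ((p : ℚ_[p]) ^ k * x j)
    rw [← mul_assoc, ← mul_pow, inv_mul_cancel₀ hp0, one_pow, one_mul]

/-- **Trap theorem.** -/
theorem trap (m d : ℕ) (hd : 2 ≤ d) : ∃ C : ℕ, ∀ (p : ℕ) [Fact p.Prime],
    ∃ BB : Finset (Idx m d → ZMod p), BB.card * p ≤ C * p ^ Fintype.card (Idx m d) ∧
      ∀ Φ : Fin (m + 1) → MvPolynomial (Fin (m + 1)) ℚ_[p], Pre p m d Φ →
        ∀ c, Red Φ c → c ∉ BB →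
          Good p m d Φ ∧ ∀ x : Fin (m + 1) → ℚ_[p], ∃ n, Esc ((pm Φ)^[n] x) := by
  classical
  have hd1 : 1 ≤ d := by omega
  refine ⟨(m + 2) + 2 * (m + 1) + 2, fun p hp => ?_⟩
  refine ⟨(univ.filter fun c : Idx m d → ZMod p => ¬ T1 c) ∪
    (univ.filter fun c : Idx m d → ZMod p => ¬ T2 c) ∪
    (univ.filter fun c : Idx m d → ZMod p => (der hd1 c).det = 0), ?_, ?_⟩
  · have hq : Fintype.card (ZMod p) = p := ZMod.card p
    have hC : Fintype.card (Idx m d → ZMod p) = p ^ Fintype.card (Idx m d) := by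
      rw [Fintype.card_fun, hq]
    have h1 := bad1 (F := ZMod p) (m := m) hd1
    have h2 := bad2 (F := ZMod p) (m := m) (d := d) (by omega)
    have h3 := bad3 (F := ZMod p) (m := m) hd1
    rw [hC, hq] at h1 h2 h3
    have e1 : {c : Idx m d → ZMod p | ¬ T1 c}.ncard =
        (univ.filter fun c : Idx m d → ZMod p => ¬ T1 c).card := by
      rw [← Set.ncard_coe_finset]
      congr 1
      ext c
      simp
    have e2 : {c : Idx m d → ZMod p | ¬ T2 c}.ncard =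
        (univ.filter fun c : Idx m d → ZMod p => ¬ T2 c).card := by
      rw [← Set.ncard_coe_finset]
      congr 1
      ext c
      simp
    have e3 : {c : Idx m d → ZMod p | (der hd1 c).det = 0}.ncard =
        (univ.filter fun c : Idx m d → ZMod p => (der hd1 c).det = 0).card := by
      rw [← Set.ncard_coe_finset]
      congr 1
      ext c
      simp
    rw [e1] at h1
    rw [e2] at h2
    rw [e3] at h3
    have h4 := Finset.card_union_le ((univ.filter fun c : Idx m d → ZMod p => ¬ T1 c) ∪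
      (univ.filter fun c : Idx m d → ZMod p => ¬ T2 c))
      (univ.filter fun c : Idx m d → ZMod p => (der hd1 c).det = 0)
    have h5 := Finset.card_union_le (univ.filter fun c : Idx m d → ZMod p => ¬ T1 c)
      (univ.filter fun c : Idx m d → ZMod p => ¬ T2 c)
    calc _ ≤ ((univ.filter fun c : Idx m d → ZMod p => ¬ T1 c).card +
          (univ.filter fun c : Idx m d → ZMod p => ¬ T2 c).card +
          (univ.filter fun c : Idx m d → ZMod p => (der hd1 c).det = 0).card) * p :=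
          Nat.mul_le_mul_right _ (h4.trans (Nat.add_le_add_right h5 _))
      _ = (univ.filter fun c : Idx m d → ZMod p => ¬ T1 c).card * p +
          (univ.filter fun c : Idx m d → ZMod p => ¬ T2 c).card * p +
          (univ.filter fun c : Idx m d → ZMod p => (der hd1 c).det = 0).card * p := by ring
      _ ≤ (m + 2) * p ^ Fintype.card (Idx m d) + 2 * (m + 1) * p ^ Fintype.card (Idx m d) +
          2 * p ^ Fintype.card (Idx m d) := Nat.add_le_add (Nat.add_le_add h1 h2) h3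
      _ = ((m + 2) + 2 * (m + 1) + 2) * p ^ Fintype.card (Idx m d) := by ring
  · intro Φ hΦ c hc hcB
    simp only [Finset.mem_union, Finset.mem_filter, Finset.mem_univ, true_and, not_or,
      not_not] at hcB
    obtain ⟨⟨hT1, hT2⟩, hdet⟩ := hcB
    obtain ⟨a, s, ha, hs, hcoef, hΦx⟩ := exists_lift hΦ hc
    refine ⟨{ hΦ with unit := ?_ }, fun x => ?_⟩
    · set Z : Matrix (Fin m) (Fin m) ℤ_[p] := Matrix.of fun i j => a (i.succ, ex hd1 j) with hZ
      have h1 : (Matrix.of fun i j : Fin m =>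
          coeff (Finsupp.single 0 (d - 1) + Finsupp.single j.succ 1) (Φ i.succ)) =
          (PadicInt.Coe.ringHom (p := p)).mapMatrix Z := by
        ext i j
        have h2 := hcoef (i.succ, ex hd1 j) (fun h => Fin.succ_ne_zero _ h.1)
        exact h2.symm
      rw [h1, ← RingHom.map_det]
      have h2 : PadicInt.toZMod Z.det = (der hd1 c).det := by
        rw [RingHom.map_det]
        congr 1
        ext i j
        simp [hZ, der, ha]
      have h3 := norm_eq_one_of_toZMod Z.det (by rw [h2]; exact hdet)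
      exact h3
    · rcases cases_point x with ⟨y, rfl⟩ | ⟨y, k, hk, hy, rfl⟩
      · by_cases h0 : red y 0 = 0
        · obtain ⟨n, hn⟩ := hT1 (red y) h0
          exact escA hd ha hs hΦx n y hn
        · exact escA hd ha hs hΦx 0 y h0
      · by_cases h0 : red y 0 = 0
        · obtain ⟨n, hn⟩ := hT2 (red y) hy h0
          exact escB hd ha hs hΦx n y k hk hn
        · exact escB hd ha hs hΦx 0 y k hk h0

end Pool.Agent.Helper26.MQ
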