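import Pool.Agent.Helper26.MQ.Chart
import Pool.Agent.Helper26.MQ.Trap

/-!
# The escaping region and the local theorem for curves
-/

set_option autoImplicit false

namespace Pool.Agent.Helper26.MQ

open Finset MvPolynomial Filter Topology Pool.Agent.Helper86.MQ

variable {p : ℕ} [hp : Fact p.Prime] {m d : ℕ}

/-- The decomposition of `Φ`, from `Pre` only. -/
theorem exists_lift' {Φ : Fin (m + 1) → MvPolynomial (Fin (m + 1)) ℚ_[p]} (hΦ : Pre p m d Φ) :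
    ∃ (a : Idx m d → ℤ_[p]) (s : ℚ_[p]), ‖s‖ = (p : ℝ) ∧
      (∀ k : Idx m d, ¬ (k.1 = 0 ∧ k.2.1 = Finsupp.single 0 d) →
        ((a k : ℤ_[p]) : ℚ_[p]) = coeff k.2.1 (Φ k.1)) ∧
      ∀ x i, pm Φ x i = (∑ e : {s : Fin (m + 1) →₀ ℕ // s.degree ≤ d},
        ((a (i, e) : ℤ_[p]) : ℚ_[p]) * ∏ j, x j ^ (e : Fin (m + 1) →₀ ℕ) j) +
          if i = 0 then s * x 0 ^ d else 0 := by
  classical
  have hc : Red Φ (fun k : Idx m d =>
      if h : ¬ (k.1 = 0 ∧ k.2.1 = Finsupp.single 0 d) then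
        PadicInt.toZMod (⟨coeff k.2.1 (Φ k.1), hΦ.int _ _ h⟩ : ℤ_[p]) else 0) := by
    intro k hk
    refine ⟨⟨coeff k.2.1 (Φ k.1), hΦ.int _ _ hk⟩, rfl, ?_⟩
    symm
    exact dif_pos hk
  obtain ⟨a, s, _, hs, ha, hx⟩ := exists_lift hΦ hc
  exact ⟨a, s, hs, ha, hx⟩

/-- One step in the chart. -/
theorem step_chart {Φ : Fin (m + 1) → MvPolynomial (Fin (m + 1)) ℚ_[p]}
    {a : Idx m d → ℤ_[p]} {s : ℚ_[p]}
    (hΦ : ∀ x i, pm Φ x i = (∑ e : {s : Fin (m + 1) →₀ ℕ // s.degree ≤ d},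
        ((a (i, e) : ℤ_[p]) : ℚ_[p]) * ∏ j, x j ^ (e : Fin (m + 1) →₀ ℕ) j) +
          if i = 0 then s * x 0 ^ d else 0)
    {u : ℤ_[p]} (hu : (u : ℚ_[p]) = p * s) {x : Fin (m + 1) → ℚ_[p]}
    (hx : x 0 ≠ 0) {t : ℤ_[p]} {y : Fin m → ℤ_[p]} (ht : (t : ℚ_[p]) = (x 0)⁻¹)
    (hy : ∀ j, (y j : ℚ_[p]) = x j.succ / x 0) :
    pm Φ x 0 = x 0 ^ d * ((p : ℚ_[p])⁻¹ *
      ((u + p * eval (Fin.cons t y) (comp a 0) : ℤ_[p]) : ℚ_[p])) ∧
    ∀ i : Fin m, pm Φ x i.succ = x 0 ^ d *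
      ((eval (Fin.cons t y) (comp a i.succ) : ℤ_[p]) : ℚ_[p]) := by
  have hp0 : (p : ℚ_[p]) ≠ 0 := by exact_mod_cast hp.out.ne_zero
  have h1 : ∀ i, (∑ e : {s : Fin (m + 1) →₀ ℕ // s.degree ≤ d},
        ((a (i, e) : ℤ_[p]) : ℚ_[p]) * ∏ j, x j ^ (e : Fin (m + 1) →₀ ℕ) j) =
      x 0 ^ d * ((eval (Fin.cons t y) (comp a i) : ℤ_[p]) : ℚ_[p]) := fun i =>
    eval_chart univ (fun e : {s : Fin (m + 1) →₀ ℕ // s.degree ≤ d} => e.1)
      (fun e => a (i, e)) d (fun e _ => e.2) x hx t y ht hy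
  refine ⟨?_, fun i => ?_⟩
  · rw [hΦ, if_pos rfl, h1, PadicInt.coe_add, PadicInt.coe_mul, PadicInt.coe_natCast, hu]
    field_simp
    ring
  · rw [hΦ, if_neg (Fin.succ_ne_zero i), add_zero, h1]

theorem Esc.ne_zero {x : Fin (m + 1) → ℚ_[p]} (hx : Esc x) : x 0 ≠ 0 := by
  intro h0
  have h1 := hx.1
  rw [h0, norm_zero] at h1
  have : (0 : ℝ) < p := by exact_mod_cast hp.out.pos
  linarith

theorem Esc.exists_chart {x : Fin (m + 1) → ℚ_[p]} (hx : Esc x) :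
    ∃ (t : ℤ_[p]) (y : Fin m → ℤ_[p]), (t : ℚ_[p]) = (x 0)⁻¹ ∧
      ∀ j, (y j : ℚ_[p]) = x j.succ / x 0 := by
  have hp1 : (1 : ℝ) < p := by exact_mod_cast hp.out.one_lt
  have h0 : 0 < ‖x 0‖ := norm_pos_iff.2 (Esc.ne_zero hx)
  have h1 : ‖(x 0)⁻¹‖ ≤ 1 := by
    rw [norm_inv]
    exact inv_le_one_of_one_le₀ (hp1.le.trans hx.1)
  have h2 : ∀ j : Fin m, ‖x j.succ / x 0‖ ≤ 1 := by
    intro j
    rw [norm_div]
    exact div_le_one_of_le₀ (hx.2 _) h0.le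
  exact ⟨⟨(x 0)⁻¹, h1⟩, fun j => ⟨x j.succ / x 0, h2 j⟩, rfl, fun j => rfl⟩

/-- The region `Esc` is mapped to itself, and the first coordinate grows doubly exponentially. -/
theorem esc_step (_hd : 2 ≤ d) {Φ : Fin (m + 1) → MvPolynomial (Fin (m + 1)) ℚ_[p]}
    (hΦ : Pre p m d Φ) {x : Fin (m + 1) → ℚ_[p]} (hx : Esc x) :
    Esc (pm Φ x) ∧ ‖pm Φ x 0‖ = p * ‖x 0‖ ^ d := by
  obtain ⟨a, s, hs, _, hΦx⟩ := exists_lift' hΦ
  have hp1 : (1 : ℝ) < p := by exact_mod_cast hp.out.one_lt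
  have hus : ‖(p : ℚ_[p]) * s‖ = 1 := by
    rw [norm_mul, Padic.norm_p, hs]
    field_simp
  set u : ℤ_[p] := ⟨p * s, hus.le⟩ with hu
  have hu1 : ‖u‖ = 1 := hus
  obtain ⟨t, y, ht, hy⟩ := Esc.exists_chart hx
  obtain ⟨h0, h1⟩ := step_chart hΦx (u := u) rfl (Esc.ne_zero hx) ht hy
  have hn0 : ‖pm Φ x 0‖ = p * ‖x 0‖ ^ d := by
    rw [h0, norm_mul, norm_mul, norm_pow, norm_inv, Padic.norm_p, inv_inv]
    have h2 : ‖((u + p * eval (Fin.cons t y) (comp a 0) : ℤ_[p]) : ℚ_[p])‖ = 1 :=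
      norm_unit_add hu1 (p_mul_lt _)
    rw [h2]
    ring
  have hge : (1 : ℝ) ≤ ‖x 0‖ ^ d := one_le_pow₀ (hp1.le.trans hx.1)
  refine ⟨⟨?_, fun i => ?_⟩, hn0⟩
  · rw [hn0]
    nlinarith
  · rw [hn0]
    refine Fin.cases ?_ (fun i => ?_) i
    · rw [hn0]
    · rw [h1, norm_mul, norm_pow]
      have h2 : ‖((eval (Fin.cons t y) (comp a i.succ) : ℤ_[p]) : ℚ_[p])‖ ≤ 1 :=
        PadicInt.norm_le_one _
      calc ‖x 0‖ ^ d * ‖((eval (Fin.cons t y) (comp a i.succ) : ℤ_[p]) : ℚ_[p])‖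
          ≤ ‖x 0‖ ^ d * 1 := mul_le_mul_of_nonneg_left h2 (by positivity)
        _ ≤ p * ‖x 0‖ ^ d := by nlinarith

theorem esc_iterate (hd : 2 ≤ d) {Φ : Fin (m + 1) → MvPolynomial (Fin (m + 1)) ℚ_[p]}
    (hΦ : Pre p m d Φ) {x : Fin (m + 1) → ℚ_[p]} (hx : Esc x) (n : ℕ) :
    Esc ((pm Φ)^[n] x) := by
  induction n with
  | zero => exact hx
  | succ n ih =>
    rw [Function.iterate_succ_apply']
    exact (esc_step hd hΦ ih).1

/-- An integral polynomial in the chart with the same zeros on the orbit. -/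
theorem exists_integral (f : MvPolynomial (Fin (m + 1)) ℚ_[p]) :
    ∃ F : MvPolynomial (Fin (m + 1)) ℤ_[p], ∀ (x : Fin (m + 1) → ℚ_[p]), x 0 ≠ 0 →
      ∀ (t : ℤ_[p]) (y : Fin m → ℤ_[p]), (t : ℚ_[p]) = (x 0)⁻¹ →
        (∀ j, (y j : ℚ_[p]) = x j.succ / x 0) →
        (eval x f = 0 ↔ eval (Fin.cons t y) F = 0) := by
  classical
  have hp0 : (p : ℚ_[p]) ≠ 0 := by exact_mod_cast hp.out.ne_zero
  -- a power of `p` which clears the denominators
  obtain ⟨k, hk⟩ : ∃ k : ℕ, ∀ e ∈ f.support, ‖(p : ℚ_[p]) ^ k * coeff e f‖ ≤ 1 := by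
    have hlim : Tendsto (fun k : ℕ => ‖(p : ℚ_[p])‖ ^ k) atTop (𝓝 0) :=
      tendsto_pow_atTop_nhds_zero_of_lt_one (norm_nonneg _) (by
        rw [Padic.norm_p]
        exact inv_lt_one_of_one_lt₀ (by exact_mod_cast hp.out.one_lt))
    have h1 : ∀ᶠ k : ℕ in atTop, ∀ e ∈ f.support, ‖(p : ℚ_[p]) ^ k * coeff e f‖ ≤ 1 := by
      rw [Finset.eventually_all]
      intro e _
      have h2 : Tendsto (fun k : ℕ => ‖(p : ℚ_[p])‖ ^ k * ‖coeff e f‖) atTop (𝓝 0) := by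
        simpa using hlim.mul_const ‖coeff e f‖
      filter_upwards [h2.eventually (gt_mem_nhds one_pos)] with k hk
      rw [norm_mul, norm_pow]
      exact hk.le
    exact h1.exists
  let b : {e // e ∈ f.support} → ℤ_[p] := fun e => ⟨(p : ℚ_[p]) ^ k * coeff e.1 f, hk e.1 e.2⟩
  set D := f.totalDegree with hD
  refine ⟨hz f.support.attach (fun e => e.1) b D, fun x hx t y ht hy => ?_⟩
  have h1 := eval_chart f.support.attach (fun e => e.1) b D (fun e _ => le_totalDegree e.2)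
    x hx t y ht hy
  have h2 : ∑ e ∈ f.support.attach, (b e : ℚ_[p]) * ∏ j, x j ^ (e.1) j =
      (p : ℚ_[p]) ^ k * eval x f := by
    rw [eval_eq', Finset.mul_sum, ← Finset.sum_attach f.support]
    refine Finset.sum_congr rfl fun e _ => ?_
    change (p : ℚ_[p]) ^ k * coeff e.1 f * _ = _
    ring
  rw [h2] at h1
  have hx0 : x 0 ^ D ≠ 0 := pow_ne_zero _ hx
  have hpk : (p : ℚ_[p]) ^ k ≠ 0 := pow_ne_zero _ hp0
  constructor
  · intro h0
    rw [h0, mul_zero] at h1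
    have h3 := (mul_eq_zero.1 h1.symm).resolve_left hx0
    exact Subtype.coe_injective (h3.trans PadicInt.coe_zero.symm)
  · intro h0
    rw [h0, PadicInt.coe_zero, mul_zero] at h1
    exact (mul_eq_zero.1 h1).resolve_left hpk

/-- **Local theorem for curves.** -/
theorem local_curve (hd : 2 ≤ d) {Φ : Fin (m + 1) → MvPolynomial (Fin (m + 1)) ℚ_[p]}
    (hΦ : Good p m d Φ) {x : Fin (m + 1) → ℚ_[p]} (hx : Esc x) :
    ∃ yst : Fin m → ℚ_[p],
      (∀ i : Fin m, Tendsto (fun n => (pm Φ)^[n] x i.succ / (pm Φ)^[n] x 0) atTop (𝓝 (yst i))) ∧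
      ((∀ f : MvPolynomial (Fin (m + 1)) ℚ_[p],
          (∀ᶠ n in atTop, eval ((pm Φ)^[n] x) f = 0) ∨
          (∀ᶠ n in atTop, eval ((pm Φ)^[n] x) f ≠ 0)) ∨
        ∃ c : ℝ, 0 < c ∧ ∀ᶠ n in atTop, ∃ i : Fin m,
          c * ((p : ℝ)⁻¹) ^ n ≤ ‖(pm Φ)^[n] x i.succ / (pm Φ)^[n] x 0 - yst i‖) := by
  have hp0 : (p : ℚ_[p]) ≠ 0 := by exact_mod_cast hp.out.ne_zero
  have hp1 : (1 : ℝ) < p := by exact_mod_cast hp.out.one_lt
  obtain ⟨a, s, hs, ha, hΦx⟩ := exists_lift' hΦ.toPre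
  have hus : ‖(p : ℚ_[p]) * s‖ = 1 := by
    rw [norm_mul, Padic.norm_p, hs]
    field_simp
  set u : ℤ_[p] := ⟨p * s, hus.le⟩ with hu
  have hu1 : ‖u‖ = 1 := hus
  have hesc := esc_iterate hd hΦ.toPre hx
  choose t y ht hy using fun n => Esc.exists_chart (hesc n)
  have hne : ∀ n, (pm Φ)^[n] x 0 ≠ 0 := fun n => Esc.ne_zero (hesc n)
  have hden : ∀ n, ‖u + p * eval (Fin.cons (t n) (y n)) (comp a 0)‖ = 1 := fun n =>
    norm_unit_add hu1 (p_mul_lt _)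
  have hdne : ∀ n, ((u + p * eval (Fin.cons (t n) (y n)) (comp a 0) : ℤ_[p]) : ℚ_[p]) ≠ 0 := by
    intro n h0
    have h1 := hden n
    have h2 : ‖((u + p * eval (Fin.cons (t n) (y n)) (comp a 0) : ℤ_[p]) : ℚ_[p])‖ = 1 := h1
    rw [h0, norm_zero] at h2
    exact zero_ne_one h2
  have hstep := fun n => step_chart hΦx (u := u) rfl (hne n) (ht n) (hy n)
  have hst : ∀ n, (u + p * eval (Fin.cons (t n) (y n)) (comp a 0)) * t (n + 1) = p * t n ^ d := by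
    intro n
    apply Subtype.coe_injective
    change (((u + p * eval (Fin.cons (t n) (y n)) (comp a 0)) * t (n + 1) : ℤ_[p]) : ℚ_[p]) =
      ((p * t n ^ d : ℤ_[p]) : ℚ_[p])
    rw [PadicInt.coe_mul, ht (n + 1), Function.iterate_succ_apply', (hstep n).1, PadicInt.coe_mul,
      PadicInt.coe_pow, PadicInt.coe_natCast, ht n, inv_pow]
    have h1 := hdne n
    have h2 := hne n
    field_simp
  have hsy : ∀ n i, (u + p * eval (Fin.cons (t n) (y n)) (comp a 0)) * y (n + 1) i =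
      p * eval (Fin.cons (t n) (y n)) (comp a i.succ) := by
    intro n i
    apply Subtype.coe_injective
    change (((u + p * eval (Fin.cons (t n) (y n)) (comp a 0)) * y (n + 1) i : ℤ_[p]) : ℚ_[p]) =
      ((p * eval (Fin.cons (t n) (y n)) (comp a i.succ) : ℤ_[p]) : ℚ_[p])
    rw [PadicInt.coe_mul, hy (n + 1), Function.iterate_succ_apply', (hstep n).1, (hstep n).2,
      PadicInt.coe_mul, PadicInt.coe_natCast]
    have h1 := hdne n
    have h2 := hne n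
    field_simp
  have hy1 : ∀ n i, ‖y (n + 1) i‖ < 1 := by
    intro n i
    rw [norm_of_unit_mul (hden n), hsy n i]
    exact p_mul_lt _
  have ht0 : ∀ n, t n ≠ 0 := by
    intro n h0
    have h1 := ht n
    rw [h0, PadicInt.coe_zero] at h1
    exact inv_ne_zero (hne n) h1.symm
  have ht1 : ∀ n, ‖t n‖ < 1 := by
    intro n
    have h1 : ‖t n‖ = ‖((pm Φ)^[n] x 0)⁻¹‖ := by
      rw [← ht n]
      rfl
    rw [h1, norm_inv]
    exact inv_lt_one_of_one_lt₀ (hp1.trans_le (hesc n).1)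
  have H : Orb p m d (comp a) u (fun n => t (n + 1)) (fun n => y (n + 1)) :=
    { hu := hu1
      t0 := fun n => ht0 _
      t1 := fun n => ht1 _
      y1 := fun n i => hy1 n i
      st := fun n => hst _
      sy := fun n i => hsy _ i
      det := by
        have hd1 : 1 ≤ d := by omega
        have h1 := hΦ.unit
        have h2 : (Matrix.of fun i j : Fin m =>
            coeff (Finsupp.single 0 (d - 1) + Finsupp.single j.succ 1) (Φ i.succ)) =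
            (PadicInt.Coe.ringHom (p := p)).mapMatrix
              (Matrix.of fun i j : Fin m => eval 0 (pderiv j.succ (comp a i.succ))) := by
          ext i j
          rw [Matrix.of_apply, RingHom.mapMatrix_apply, Matrix.map_apply, Matrix.of_apply,
            eval_zero_pderiv, coeff_comp hd1]
          exact (ha (i.succ, ex hd1 j) (fun h => Fin.succ_ne_zero _ h.1)).symm
        rw [h2, ← RingHom.map_det] at h1
        exact h1 }
  obtain ⟨yst, hlim, halt⟩ := H.main hd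
  have hshift : ∀ P : ℕ → Prop, (∀ᶠ n in atTop, P (n + 1)) → ∀ᶠ n in atTop, P n := by
    intro P hP
    rw [eventually_atTop] at hP ⊢
    obtain ⟨n₀, hn₀⟩ := hP
    refine ⟨n₀ + 1, fun n hn => ?_⟩
    obtain ⟨k, rfl⟩ : ∃ k, n = k + 1 := ⟨n - 1, by omega⟩
    exact hn₀ k (by omega)
  refine ⟨fun i => (yst i : ℚ_[p]), fun i => ?_, ?_⟩
  · have h1 : Tendsto (fun n => ((y n i : ℤ_[p]) : ℚ_[p])) atTop (𝓝 ((yst i : ℤ_[p]) : ℚ_[p])) := by
      rw [← tendsto_add_atTop_iff_nat 1]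
      exact (continuous_subtype_val.tendsto _).comp (hlim i)
    refine h1.congr fun n => ?_
    exact hy n i
  rcases halt with h | ⟨c, hc, n₀, hn₀⟩
  · left
    intro f
    obtain ⟨F, hF⟩ := exists_integral f
    rcases h F with h1 | h1
    · left
      refine hshift _ (Eventually.of_forall fun n => ?_)
      exact (hF _ (hne _) _ _ (ht _) (hy _)).2 (h1 n)
    · right
      refine hshift _ (h1.mono fun n hn h0 => hn ?_)
      exact (hF _ (hne _) _ _ (ht _) (hy _)).1 h0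
  · right
    refine ⟨c, hc, hshift _ ?_⟩
    rw [eventually_atTop]
    refine ⟨n₀, fun n hn => ?_⟩
    obtain ⟨i, hi⟩ := hn₀ n hn
    refine ⟨i, ?_⟩
    rw [← hy (n + 1) i]
    have h1 : ‖((y (n + 1) i : ℤ_[p]) : ℚ_[p]) - ((yst i : ℤ_[p]) : ℚ_[p])‖ =
        ‖y (n + 1) i - yst i‖ := by
      rw [← PadicInt.coe_sub]
      rfl
    rw [h1]
    refine le_trans ?_ hi
    rw [PadicInt.norm_p]
    refine mul_le_mul_of_nonneg_left ?_ hc.le
    exact pow_le_pow_of_le_one (by positivity) (inv_le_one_of_one_le₀ hp1.le) (Nat.le_succ n)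

end Pool.Agent.Helper26.MQ
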