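import Mathlib

/-!
# Polynomials over the `p`-adic integers: Lipschitz and Taylor estimates
-/

set_option autoImplicit false

namespace Pool.Agent.Helper26.MQ

open Finset MvPolynomial

variable {p : ℕ} [hp : Fact p.Prime] {σ : Type*} [Fintype σ] [DecidableEq σ]

theorem nadd {a b : ℤ_[p]} {r : ℝ} (ha : ‖a‖ ≤ r) (hb : ‖b‖ ≤ r) : ‖a + b‖ ≤ r :=
  (PadicInt.nonarchimedean a b).trans (max_le ha hb)

theorem nsub {a b : ℤ_[p]} {r : ℝ} (ha : ‖a‖ ≤ r) (hb : ‖b‖ ≤ r) : ‖a - b‖ ≤ r := by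
  rw [sub_eq_add_neg]
  exact nadd ha (by rwa [norm_neg])

theorem nmul_left {a : ℤ_[p]} (b : ℤ_[p]) {r : ℝ} (ha : ‖a‖ ≤ r) : ‖a * b‖ ≤ r := by
  rw [norm_mul]
  calc ‖a‖ * ‖b‖ ≤ ‖a‖ * 1 := mul_le_mul_of_nonneg_left (PadicInt.norm_le_one b) (norm_nonneg _)
    _ ≤ r := by rwa [mul_one]

theorem nmul_right (a : ℤ_[p]) {b : ℤ_[p]} {r : ℝ} (hb : ‖b‖ ≤ r) : ‖a * b‖ ≤ r := by
  rw [mul_comm]
  exact nmul_left a hb

theorem nsum {ι : Type*} (s : Finset ι) (f : ι → ℤ_[p]) {r : ℝ} (hr : 0 ≤ r)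
    (h : ∀ i ∈ s, ‖f i‖ ≤ r) : ‖∑ i ∈ s, f i‖ ≤ r := by
  classical
  induction s using Finset.induction_on with
  | empty => simpa using hr
  | insert a s ha ih =>
    rw [Finset.sum_insert ha]
    exact nadd (h a (Finset.mem_insert_self _ _))
      (ih fun i hi => h i (Finset.mem_insert_of_mem hi))

omit [Fintype σ] [DecidableEq σ] in
/-- Lipschitz estimate. -/
theorem lip (f : MvPolynomial σ ℤ_[p]) (a b : σ → ℤ_[p]) {r : ℝ} (hr : 0 ≤ r)
    (h : ∀ j, ‖a j - b j‖ ≤ r) : ‖eval a f - eval b f‖ ≤ r := by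
  induction f using MvPolynomial.induction_on with
  | C c => simpa using hr
  | add f g hf hg =>
    rw [map_add, map_add, add_sub_add_comm]
    exact nadd hf hg
  | mul_X f j hf =>
    rw [map_mul, map_mul, eval_X, eval_X]
    have e : eval a f * a j - eval b f * b j =
        (eval a f - eval b f) * a j + eval b f * (a j - b j) := by ring
    rw [e]
    exact nadd (nmul_left _ hf) (nmul_right _ (h j))

/-- Taylor estimate of order two. -/
theorem taylor (f : MvPolynomial σ ℤ_[p]) (a e : σ → ℤ_[p]) {r : ℝ} (hr : 0 ≤ r)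
    (h : ∀ j, ‖e j‖ ≤ r) :
    ‖eval (a + e) f - eval a f - ∑ j, eval a (pderiv j f) * e j‖ ≤ r ^ 2 := by
  have hr2 : 0 ≤ r ^ 2 := by positivity
  induction f using MvPolynomial.induction_on with
  | C c => simpa using hr2
  | add f g hf hg =>
    have e1 : eval (a + e) (f + g) - eval a (f + g) - ∑ j, eval a (pderiv j (f + g)) * e j =
        (eval (a + e) f - eval a f - ∑ j, eval a (pderiv j f) * e j) +
        (eval (a + e) g - eval a g - ∑ j, eval a (pderiv j g) * e j) := by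
      simp only [map_add, add_mul, Finset.sum_add_distrib]
      ring
    rw [e1]
    exact nadd hf hg
  | mul_X f k hf =>
    have e1 : ∑ j, eval a (pderiv j (f * X k)) * e j =
        (∑ j, eval a (pderiv j f) * e j) * a k + eval a f * e k := by
      have e2 : ∀ j, eval a (pderiv j (f * X k)) * e j =
          (eval a (pderiv j f) * e j) * a k + if j = k then eval a f * e k else 0 := by
        intro j
        rw [pderiv_mul, pderiv_X, map_add, map_mul, map_mul, eval_X]
        by_cases hj : j = k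
        · subst hj
          rw [Pi.single_eq_same, if_pos rfl, map_one]
          ring
        · rw [Pi.single_eq_of_ne (Ne.symm hj), if_neg hj, map_zero]
          ring
      rw [Finset.sum_congr rfl fun j _ => e2 j, Finset.sum_add_distrib, ← Finset.sum_mul]
      simp
    set ρ := eval (a + e) f - eval a f - ∑ j, eval a (pderiv j f) * e j with hρ
    set L := ∑ j, eval a (pderiv j f) * e j with hL
    have e3 : eval (a + e) (f * X k) - eval a (f * X k) - ∑ j, eval a (pderiv j (f * X k)) * e j =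
        ρ * a k + (L * e k + ρ * e k) := by
      rw [e1, map_mul, map_mul, eval_X, eval_X, Pi.add_apply, hρ]
      ring
    rw [e3]
    refine nadd (nmul_left _ hf) (nadd ?_ (nmul_left _ hf))
    rw [norm_mul, pow_two]
    refine mul_le_mul ?_ (h k) (norm_nonneg _) hr
    exact nsum _ _ hr fun j _ => nmul_right _ (h j)

theorem toZMod_eq_of_norm_lt {a b : ℤ_[p]} (h : ‖a - b‖ < 1) :
    PadicInt.toZMod a = PadicInt.toZMod b := by
  rw [← sub_eq_zero, ← map_sub, ← RingHom.mem_ker, PadicInt.ker_toZMod,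
    IsLocalRing.mem_maximalIdeal, PadicInt.mem_nonunits]
  exact h

theorem norm_lt_of_toZMod_eq {a b : ℤ_[p]} (h : PadicInt.toZMod a = PadicInt.toZMod b) :
    ‖a - b‖ < 1 := by
  rwa [← sub_eq_zero, ← map_sub, ← RingHom.mem_ker, PadicInt.ker_toZMod,
    IsLocalRing.mem_maximalIdeal, PadicInt.mem_nonunits] at h

/-- Matrices with congruent entries have determinants with the same reduction. -/
theorem det_unit {m : ℕ} {A B : Matrix (Fin m) (Fin m) ℤ_[p]} (hA : ‖A.det‖ = 1)
    (h : ∀ i j, ‖A i j - B i j‖ < 1) : IsUnit B.det := by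
  have h1 : PadicInt.toZMod A.det = PadicInt.toZMod B.det := by
    rw [RingHom.map_det, RingHom.map_det]
    congr 1
    ext i j
    exact toZMod_eq_of_norm_lt (h i j)
  have h2 := norm_lt_of_toZMod_eq h1
  rw [PadicInt.isUnit_iff]
  refine le_antisymm (PadicInt.norm_le_one _) ?_
  by_contra hcon
  push Not at hcon
  have h3 : ‖A.det‖ < 1 := by
    have : A.det = (A.det - B.det) + B.det := by ring
    rw [this]
    exact (PadicInt.nonarchimedean _ _).trans_lt (max_lt h2 hcon)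
  rw [hA] at h3
  exact lt_irrefl _ h3

theorem mulVec_norm_le {m : ℕ} (A : Matrix (Fin m) (Fin m) ℤ_[p]) (z : Fin m → ℤ_[p]) {r : ℝ}
    (hr : 0 ≤ r) (h : ∀ j, ‖z j‖ ≤ r) (i : Fin m) : ‖(A.mulVec z) i‖ ≤ r := by
  rw [Matrix.mulVec, dotProduct]
  exact nsum _ _ hr fun j _ => nmul_right _ (h j)

theorem mulVec_unit {m : ℕ} {A : Matrix (Fin m) (Fin m) ℤ_[p]} (hA : IsUnit A.det)
    (z : Fin m → ℤ_[p]) {r : ℝ} (hr : 0 ≤ r) (h : ∀ i, ‖(A.mulVec z) i‖ ≤ r) (j : Fin m) :
    ‖z j‖ ≤ r := by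
  have h1 : z = A⁻¹.mulVec (A.mulVec z) := by
    rw [Matrix.mulVec_mulVec, Matrix.nonsing_inv_mul A hA, Matrix.one_mulVec]
  rw [h1]
  exact mulVec_norm_le _ _ hr h j

end Pool.Agent.Helper26.MQ
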