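import Pool.Agent.Helper26.MQ.LocalCurve
import Pool.Agent.Helper86.MQ.Sys

/-!
# From good maps to local systems
-/

set_option autoImplicit false

namespace Pool.Agent.Helper26.MQ

open Finset MvPolynomial Pool.Agent.Helper86.MQ

variable {p : ℕ} [hp : Fact p.Prime] {m d : ℕ}

/-- Escaping orbits of a good map are orbits of one local system, from the first step on. -/
theorem chart (_hd : 2 ≤ d) {Φ : Fin (m + 1) → MvPolynomial (Fin (m + 1)) ℚ_[p]}
    (hΦ : Good p m d Φ) :
    ∃ Z : Sys p m, ∀ x, Esc x → ∃ (t : ℕ → ℤ_[p]) (y : ℕ → Fin m → ℤ_[p]),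
      Pool.Agent.Helper86.MQ.Orb Z d t y ∧
      ∀ n, (t n : ℚ_[p]) = ((pm Φ)^[n + 1] x 0)⁻¹ ∧
        ∀ i : Fin m, (y n i : ℚ_[p]) = (pm Φ)^[n + 1] x i.succ / (pm Φ)^[n + 1] x 0 := by
  have hp0 : (p : ℚ_[p]) ≠ 0 := by exact_mod_cast hp.out.ne_zero
  have hp1 : (1 : ℝ) < p := by exact_mod_cast hp.out.one_lt
  obtain ⟨a, s, hs, ha, hΦx⟩ := exists_lift' hΦ.toPre
  have hus : ‖(p : ℚ_[p]) * s‖ = 1 := by
    rw [norm_mul, Padic.norm_p, hs]
    field_simp
  set u : ℤ_[p] := ⟨p * s, hus.le⟩ with hu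
  have hu1 : ‖u‖ = 1 := hus
  have hdet : ‖(Matrix.of fun i j : Fin m => eval 0 (pderiv j.succ (comp a i.succ))).det‖ = 1 := by
    have hd1 : 1 ≤ d := by omega
    have h1 := hΦ.unit
    have h2 : (Matrix.of fun i j : Fin m =>
        coeff (Finsupp.single 0 (d - 1) + Finsupp.single j.succ 1) (Φ i.succ)) =
        (PadicInt.Coe.ringHom (p := p)).mapMatrix
          (Matrix.of fun i j : Fin m => eval 0 (pderiv j.succ (comp a i.succ))) := by
      ext i j
      rw [Matrix.of_apply, RingHom.mapMatrix_apply, Matrix.map_apply, Matrix.of_apply,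
        eval_zero_pderiv, coeff_comp hd1]
      exact (ha (i.succ, ex hd1 j) (fun h => Fin.succ_ne_zero _ h.1)).symm
    rw [h2, ← RingHom.map_det] at h1
    exact h1
  refine ⟨{ u := u
            hu := PadicInt.isUnit_iff.2 hu1
            g := comp a 0
            H := fun i => comp a i.succ
            hdet := PadicInt.isUnit_iff.2 hdet }, fun x hx => ?_⟩
  have hesc := esc_iterate _hd hΦ.toPre hx
  choose t y ht hy using fun n => Esc.exists_chart (hesc n)
  have hne : ∀ n, (pm Φ)^[n] x 0 ≠ 0 := fun n => Esc.ne_zero (hesc n)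
  have hden : ∀ n, ‖u + p * eval (Fin.cons (t n) (y n)) (comp a 0)‖ = 1 := fun n =>
    norm_unit_add hu1 (p_mul_lt _)
  have hdne : ∀ n, ((u + p * eval (Fin.cons (t n) (y n)) (comp a 0) : ℤ_[p]) : ℚ_[p]) ≠ 0 := by
    intro n h0
    have h1 := hden n
    have h2 : ‖((u + p * eval (Fin.cons (t n) (y n)) (comp a 0) : ℤ_[p]) : ℚ_[p])‖ = 1 := h1
    rw [h0, norm_zero] at h2
    exact zero_ne_one h2
  have hstep := fun n => step_chart hΦx (u := u) rfl (hne n) (ht n) (hy n)
  have hst : ∀ n, (u + p * eval (Fin.cons (t n) (y n)) (comp a 0)) * t (n + 1) = p * t n ^ d := by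
    intro n
    apply Subtype.coe_injective
    change (((u + p * eval (Fin.cons (t n) (y n)) (comp a 0)) * t (n + 1) : ℤ_[p]) : ℚ_[p]) =
      ((p * t n ^ d : ℤ_[p]) : ℚ_[p])
    rw [PadicInt.coe_mul, ht (n + 1), Function.iterate_succ_apply', (hstep n).1, PadicInt.coe_mul,
      PadicInt.coe_pow, PadicInt.coe_natCast, ht n, inv_pow]
    have h1 := hdne n
    have h2 := hne n
    field_simp
  have hsy : ∀ n i, (u + p * eval (Fin.cons (t n) (y n)) (comp a 0)) * y (n + 1) i =
      p * eval (Fin.cons (t n) (y n)) (comp a i.succ) := by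
    intro n i
    apply Subtype.coe_injective
    change (((u + p * eval (Fin.cons (t n) (y n)) (comp a 0)) * y (n + 1) i : ℤ_[p]) : ℚ_[p]) =
      ((p * eval (Fin.cons (t n) (y n)) (comp a i.succ) : ℤ_[p]) : ℚ_[p])
    rw [PadicInt.coe_mul, hy (n + 1), Function.iterate_succ_apply', (hstep n).1, (hstep n).2,
      PadicInt.coe_mul, PadicInt.coe_natCast]
    have h1 := hdne n
    have h2 := hne n
    field_simp
  refine ⟨fun n => t (n + 1), fun n => y (n + 1), ?_, fun n => ⟨ht (n + 1), hy (n + 1)⟩⟩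
  exact
    { t0 := fun n h0 => by
        have h1 := ht (n + 1)
        rw [h0, PadicInt.coe_zero] at h1
        exact inv_ne_zero (hne (n + 1)) h1.symm
      tp := fun n => by
        rw [← PadicInt.norm_lt_one_iff_dvd]
        have h1 : ‖t (n + 1)‖ = ‖((pm Φ)^[n + 1] x 0)⁻¹‖ := by
          rw [← ht (n + 1)]
          rfl
        rw [h1, norm_inv]
        exact inv_lt_one_of_one_lt₀ (hp1.trans_le (hesc (n + 1)).1)
      yp := fun n i => by
        rw [← PadicInt.norm_lt_one_iff_dvd, norm_of_unit_mul (hden n), hsy n i]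
        exact p_mul_lt _
      tn := fun n => hst (n + 1)
      yn := fun n i => hsy (n + 1) i }

/-- Polynomials in the chart. -/
theorem homog (f : MvPolynomial (Fin (m + 1)) ℚ_[p]) :
    ∃ F : MvPolynomial (Fin (m + 1)) ℤ_[p], ∀ (x : Fin (m + 1) → ℚ_[p]) (t : ℤ_[p])
      (y : Fin m → ℤ_[p]), x 0 ≠ 0 → (t : ℚ_[p]) = (x 0)⁻¹ →
        (∀ i : Fin m, (y i : ℚ_[p]) = x i.succ / x 0) →
        (eval x f = 0 ↔ eval (Fin.cons t y) F = 0) := by
  obtain ⟨F, hF⟩ := exists_integral f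
  exact ⟨F, fun x t y hx ht hy => hF x hx t y ht hy⟩

end Pool.Agent.Helper26.MQ
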